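import Pool.Agent.H52.AC.Defs
import Pool.Agent.H72.ES.Inj
import Pool.Agent.H72.ES.Mult

/-! # [AC-INJ] Functions of `y`-degree `< n` do not vanish along the local series

Statement: as `Pool.Agent.H72.ES.inj` (`Pool/Agent/H72/ES/Inj.lean`), the hypothesis on the leading form
replaced by the irreducibility of `F` over `ℚ`.
Proof. Let `P = FQ n F ∈ ℚ[X][Y]`, irreducible, monic in `Y` of degree `n` (`F 0 n = 1`;
coefficient of `Y^j` is `∑_i C (F i j) X^i`); it is the image of `toP n F ∈ ℤ[X][Y]` under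
`Polynomial.mapRingHom (Int.castRingHom ℚ)` on coefficients (compare coefficients, `toP_coeff`).
`K = FractionRing ℚ[X]`; `P` is irreducible over `K` (Gauss:
`Polynomial.Monic.irreducible_iff_irreducible_map_fraction_map`), the image of `p` in `K[Y]` is not zero
(`ℤ → ℚ` and `ℚ[X] → K` are injective) and has degree `< n`, so it is coprime to `P`
(`Irreducible.coprime_iff_not_dvd`, degrees): `u P + v p = 1` in `K[Y]`.
`L = FractionRing (PowerSeries ℚ)`. The homomorphism `ℚ[X] → PowerSeries ℚ → L`, `X ↦ x1 + κ S`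
(`eval₂`/`Polynomial.aeval`), is injective as `κ ≠ 0`: its values are (the series of) the polynomials
`r.comp (C x1 + C κ * X)`, see `hev` in `Pool/Agent/H72/ES/Inj.lean`. So it extends to
`Ψ : K →+* L` (`IsFractionRing.lift`). Evaluate the Bezout identity by `Ψ` and at `Y ↦` the image of `Y`
(mapped to `PowerSeries ℚ` and `L`): the image of `P` is the image of `Lam (xs x1 κ) Y (toP n F) = 0`, the
image of `p` is the image of `Lam (xs x1 κ) Y p`; if that is `0` we get `0 = 1`.
(`Lam x y = eval₂RingHom (eval₂RingHom (Int.castRingHom S) x) y`; both ways of evaluating agree by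
`Polynomial.ringHom_ext'`.) -/

namespace Pool.Agent.H52.AC

open Finset Polynomial Pool.Agent.H72.ES Pool.Agent.H8.AW

private lemma inj_FQ_coeff (d : ℕ) (c : ℕ → ℕ → ℤ) (j k : ℕ) :
    ((FQ d c).coeff j).coeff k = if k + j ≤ d then ((c k j : ℤ) : ℚ) else 0 := by
  unfold FQ
  simp only [finsetSum_coeff, coeff_C_mul_X_pow]
  have h0 : ∀ b ∈ range (d + 1),
      (if j = b then ∑ i ∈ range (d + 1 - b), C ((c i b : ℤ) : ℚ) * X ^ i else (0 : ℚ[X])).coeff k =
      if j = b then (∑ i ∈ range (d + 1 - b), C ((c i b : ℤ) : ℚ) * X ^ i).coeff k else 0 := by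
    intro b _
    split_ifs
    · rfl
    · exact coeff_zero k
  rw [sum_congr rfl h0, sum_ite_eq]
  simp only [mem_range]
  by_cases h1 : j < d + 1
  · rw [if_pos h1, finsetSum_coeff]
    simp only [coeff_C_mul_X_pow]
    rw [sum_ite_eq]
    simp only [mem_range]
    by_cases h2 : k < d + 1 - j
    · rw [if_pos h2, if_pos (by omega)]
    · rw [if_neg h2, if_neg (by omega)]
  · rw [if_neg h1, if_neg (by omega)]

private lemma inj_toP_map (d : ℕ) (c : ℕ → ℕ → ℤ) :
    (toP d c).map (mapRingHom (Int.castRingHom ℚ)) = FQ d c := by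
  ext j k
  rw [coeff_map, coe_mapRingHom, coeff_map, toP_coeff, inj_FQ_coeff]
  split_ifs <;> simp

theorem inj_irr {n : ℕ} {F : ℕ → ℕ → ℤ} (hn : 1 ≤ n) (htop : F 0 n = 1)
    (hirr : Irreducible (FQ n F)) {x1 κ : ℤ} (hκ : κ ≠ 0) {Y : PowerSeries ℤ}
    (hY : Lam (xs x1 κ) Y (toP n F) = 0) {p : ℤ[X][X]} (hp : p ≠ 0) (hdeg : p.natDegree < n) :
    Lam (xs x1 κ) Y p ≠ 0 := by
  classical
  intro hpY
  set P : ℚ[X][X] := FQ n F with hP
  have hPc : ∀ j k, (P.coeff j).coeff k = if k + j ≤ n then ((F k j : ℤ) : ℚ) else 0 :=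
    inj_FQ_coeff n F
  have hcn : P.coeff n = 1 := by
    ext k
    rw [hPc, coeff_one]
    by_cases hk : k = 0
    · subst hk
      simp [htop]
    · rw [if_neg (by omega), if_neg hk]
  have hdegle : P.natDegree ≤ n := by
    rw [natDegree_le_iff_coeff_eq_zero]
    intro j hj
    ext k
    rw [hPc, if_neg (by omega), coeff_zero]
  have hmonic : P.Monic := monic_of_natDegree_le_of_coeff_eq_one n hdegle hcn
  have hnat : P.natDegree = n := by
    apply le_antisymm hdegle
    apply le_natDegree_of_ne_zero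
    rw [hcn]
    exact one_ne_zero
  -- the fraction field
  let K := FractionRing ℚ[X]
  have hirrK : Irreducible (P.map (algebraMap ℚ[X] K)) :=
    (hmonic.irreducible_iff_irreducible_map_fraction_map (K := K)).1 hirr
  have hinjK : Function.Injective (algebraMap ℚ[X] K) := IsFractionRing.injective _ _
  have hinjZ : Function.Injective (Int.castRingHom ℚ) := (Int.castRingHom ℚ).injective_int
  have hinjφ : Function.Injective (mapRingHom (Int.castRingHom ℚ)) := by
    rw [coe_mapRingHom]
    exact map_injective _ hinjZ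
  set pq : ℚ[X][X] := p.map (mapRingHom (Int.castRingHom ℚ)) with hpq
  have hpq0 : pq ≠ 0 := by
    rw [hpq, Ne, Polynomial.map_eq_zero_iff hinjφ]
    exact hp
  have hpqdeg : pq.natDegree < n := by
    rw [hpq, natDegree_map_eq_of_injective hinjφ]
    exact hdeg
  have hcop : IsCoprime (P.map (algebraMap ℚ[X] K)) (pq.map (algebraMap ℚ[X] K)) := by
    rw [hirrK.coprime_iff_not_dvd]
    intro hdvd
    have h1 : pq.map (algebraMap ℚ[X] K) ≠ 0 := by
      rw [Ne, Polynomial.map_eq_zero_iff hinjK]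
      exact hpq0
    have h2 := natDegree_le_of_dvd hdvd h1
    rw [natDegree_map_eq_of_injective hinjK, natDegree_map_eq_of_injective hinjK, hnat] at h2
    omega
  -- the target field
  let L := FractionRing (PowerSeries ℚ)
  let ι : PowerSeries ℚ →+* L := algebraMap (PowerSeries ℚ) L
  have hι : Function.Injective ι := IsFractionRing.injective _ _
  let θ : PowerSeries ℤ →+* L := ι.comp (PowerSeries.map (Int.castRingHom ℚ))
  -- the series `x`
  set xq : PowerSeries ℚ := PowerSeries.map (Int.castRingHom ℚ) (xs x1 κ) with hxq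
  have hxpoly : xq = ((C (x1 : ℚ) + C (κ : ℚ) * X : ℚ[X]) : PowerSeries ℚ) := by
    rw [hxq, xs, Polynomial.coe_add, Polynomial.coe_mul, Polynomial.coe_C, Polynomial.coe_C,
      Polynomial.coe_X, map_add, map_mul, PowerSeries.map_C, PowerSeries.map_C, PowerSeries.map_X]
    simp
  have hev : ∀ r : ℚ[X], eval₂ (PowerSeries.C (R := ℚ)) xq r = 0 → r = 0 := by
    intro r hr
    have h1 : eval₂ (PowerSeries.C (R := ℚ)) xq r =
        ((r.comp (C (x1 : ℚ) + C (κ : ℚ) * X) : ℚ[X]) : PowerSeries ℚ) := by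
      have h2 := Polynomial.hom_eval₂ r (C : ℚ →+* ℚ[X])
        (Polynomial.coeToPowerSeries.ringHom (R := ℚ)) (C (x1 : ℚ) + C (κ : ℚ) * X)
      rw [Polynomial.comp, ← Polynomial.coeToPowerSeries.ringHom_apply, h2,
        Polynomial.coeToPowerSeries.ringHom_apply, ← hxpoly]
      congr 1
      exact Subsingleton.elim _ _
    rw [h1, Polynomial.coe_eq_zero_iff, comp_eq_zero_iff] at hr
    rcases hr with hr | ⟨_, hr⟩
    · exact hr
    · exfalso
      have := congrArg (fun q : ℚ[X] => q.coeff 1) hr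
      simp at this
      exact hκ this
  let ψ : ℚ[X] →+* L := ι.comp (eval₂RingHom (PowerSeries.C (R := ℚ)) xq)
  have hψ : Function.Injective ψ := by
    rw [injective_iff_map_eq_zero]
    intro q hq
    have h1 : ι (eval₂ (PowerSeries.C (R := ℚ)) xq q) = 0 := hq
    rw [map_eq_zero_iff ι hι] at h1
    exact hev q h1
  let Ψ : K →+* L := IsFractionRing.lift hψ
  have hΨ : ∀ a, Ψ (algebraMap ℚ[X] K a) = ψ a := fun a => IsFractionRing.lift_algebraMap hψ a
  -- evaluation
  have hval : ∀ g : ℤ[X][X], eval₂ Ψ (θ Y)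
      ((g.map (mapRingHom (Int.castRingHom ℚ))).map (algebraMap ℚ[X] K)) =
        θ (Lam (xs x1 κ) Y g) := by
    intro g
    have h1 : ((eval₂RingHom Ψ (θ Y)).comp (mapRingHom (algebraMap ℚ[X] K))).comp
        (mapRingHom (mapRingHom (Int.castRingHom ℚ))) = θ.comp (Lam (xs x1 κ) Y) := by
      apply Polynomial.ringHom_ext'
      · apply Polynomial.ringHom_ext'
        · exact Subsingleton.elim _ _
        · simp only [RingHom.comp_apply, coe_mapRingHom, map_C, map_X, coe_eval₂RingHom, eval₂_C,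
            Lam, eval₂_X, hΨ]
          show ι (eval₂ (PowerSeries.C (R := ℚ)) xq X) = ι xq
          rw [eval₂_X]
      · simp only [RingHom.comp_apply, coe_mapRingHom, map_X, coe_eval₂RingHom, eval₂_X, Lam]
    have h2 := congrArg (fun h : ℤ[X][X] →+* L => h g) h1
    exact h2
  obtain ⟨u, v, huv⟩ := hcop
  have h1 := congrArg (eval₂ Ψ (θ Y)) huv
  have h2 := hval (toP n F)
  rw [inj_toP_map, hY, map_zero] at h2
  have h3 := hval p
  rw [hpY, map_zero] at h3
  rw [eval₂_add, eval₂_mul, eval₂_mul, h2, h3, eval₂_one] at h1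
  simp at h1

end Pool.Agent.H52.AC
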