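import Mathlib

/-! # [AC-SER] Taylor series of analytic functions at the origin, Cauchy estimates -/

namespace Pool.Agent.H52.AC

open Finset Metric

/-- the functions analytic at the origin -/
noncomputable def An : Subring (ℂ → ℂ) where
  carrier := {g | AnalyticAt ℂ g 0}
  mul_mem' := fun ha hb => AnalyticAt.mul ha hb
  one_mem' := analyticAt_const
  add_mem' := fun ha hb => AnalyticAt.add ha hb
  zero_mem' := analyticAt_const
  neg_mem' := fun ha => AnalyticAt.neg ha

theorem mem_An {g : ℂ → ℂ} : g ∈ An ↔ AnalyticAt ℂ g 0 := Iff.rfl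

/-- the Taylor series at the origin -/
noncomputable def serf (g : ℂ → ℂ) : PowerSeries ℂ :=
  PowerSeries.mk fun k => iteratedDeriv k g 0 / (k.factorial : ℂ)

theorem serf_mul {g h : ℂ → ℂ} (hg : AnalyticAt ℂ g 0) (hh : AnalyticAt ℂ h 0) :
    serf (g * h) = serf g * serf h := by
  ext k
  rw [PowerSeries.coeff_mul, serf, PowerSeries.coeff_mk,
    iteratedDeriv_mul (hg.contDiffAt) (hh.contDiffAt), Finset.sum_div,
    Finset.Nat.sum_antidiagonal_eq_sum_range_succ_mk]
  refine sum_congr rfl fun i hi => ?_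
  have hik : i ≤ k := Nat.lt_succ_iff.1 (mem_range.1 hi)
  rw [serf, serf, PowerSeries.coeff_mk, PowerSeries.coeff_mk]
  have h1 : (k.factorial : ℂ) = (k.choose i : ℂ) * (i.factorial : ℂ) * ((k - i).factorial : ℂ) := by
    exact_mod_cast (Nat.choose_mul_factorial_mul_factorial hik).symm
  have h2 : (k.factorial : ℂ) ≠ 0 := by exact_mod_cast (Nat.factorial_ne_zero k)
  have h3 : (i.factorial : ℂ) ≠ 0 := by exact_mod_cast (Nat.factorial_ne_zero i)
  have h4 : ((k - i).factorial : ℂ) ≠ 0 := by exact_mod_cast (Nat.factorial_ne_zero (k - i))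
  have h5 : (k.choose i : ℂ) ≠ 0 := by
    exact_mod_cast (Nat.choose_pos hik).ne'
  rw [div_mul_div_comm, div_eq_div_iff h2 (mul_ne_zero h3 h4), h1]
  ring

theorem serf_add {g h : ℂ → ℂ} (hg : AnalyticAt ℂ g 0) (hh : AnalyticAt ℂ h 0) :
    serf (g + h) = serf g + serf h := by
  ext k
  rw [map_add, serf, serf, serf, PowerSeries.coeff_mk, PowerSeries.coeff_mk, PowerSeries.coeff_mk,
    iteratedDeriv_add hg.contDiffAt hh.contDiffAt, add_div]

theorem serf_const (c : ℂ) : serf (fun _ => c) = PowerSeries.C c := by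
  ext k
  rw [serf, PowerSeries.coeff_mk, iteratedDeriv_const, PowerSeries.coeff_C]
  split_ifs with h
  · rw [h]
    simp
  · simp

theorem serf_congr {g h : ℂ → ℂ} (hgh : ∀ᶠ s in nhds (0 : ℂ), g s = h s) : serf g = serf h := by
  ext k
  have h1 : iteratedDeriv k g 0 = iteratedDeriv k h 0 := Filter.EventuallyEq.iteratedDeriv_eq k hgh
  rw [serf, serf, PowerSeries.coeff_mk, PowerSeries.coeff_mk, h1]

theorem serf_id : serf (fun s => s) = PowerSeries.X := by
  ext k
  rw [serf, PowerSeries.coeff_mk, iteratedDeriv_fun_id_zero, PowerSeries.coeff_X]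
  split_ifs with h
  · rw [h]
    simp
  · simp

theorem serf_affine (a b : ℂ) :
    serf (fun s => a + b * s) = PowerSeries.C a + PowerSeries.C b * PowerSeries.X := by
  have h1 : (fun s : ℂ => a + b * s) = (fun _ => a) + (fun _ => b) * (fun s => s) := rfl
  have hid : AnalyticAt ℂ (fun s : ℂ => s) 0 := analyticAt_id
  rw [h1, serf_add analyticAt_const (analyticAt_const.mul hid),
    serf_mul analyticAt_const hid, serf_const, serf_const, serf_id]

/-- the Taylor series as a ring homomorphism -/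
noncomputable def ser : An →+* PowerSeries ℂ where
  toFun g := serf g.1
  map_one' := by
    have : ((1 : An) : ℂ → ℂ) = fun _ => (1 : ℂ) := rfl
    rw [this, serf_const, map_one]
  map_mul' a b := serf_mul a.2 b.2
  map_zero' := by
    have : ((0 : An) : ℂ → ℂ) = fun _ => (0 : ℂ) := rfl
    rw [this, serf_const, map_zero]
  map_add' a b := serf_add a.2 b.2

theorem ser_apply (g : An) : ser g = serf g.1 := rfl

theorem serf_zero (g : ℂ → ℂ) : PowerSeries.constantCoeff (serf g) = g 0 := by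
  rw [← PowerSeries.coeff_zero_eq_constantCoeff_apply, serf, PowerSeries.coeff_mk]
  simp

/-- Cauchy's estimate -/
theorem serf_le {g : ℂ → ℂ} {r ρ M : ℝ} (hρ : 0 < ρ) (hr : ρ < r)
    (hg : DifferentiableOn ℂ g (ball 0 r)) (hM : ∀ s, ‖s‖ = ρ → ‖g s‖ ≤ M) (k : ℕ) :
    ‖PowerSeries.coeff k (serf g)‖ * ρ ^ k ≤ M := by
  have h0 : DiffContOnCl ℂ g (ball 0 ρ) := by
    refine DifferentiableOn.diffContOnCl ?_
    rw [closure_ball _ hρ.ne']
    exact hg.mono (closedBall_subset_ball hr)
  have h1 := Complex.norm_iteratedDeriv_le_of_forall_mem_sphere_norm_le k hρ h0 (C := M) (by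
    intro z hz
    exact hM z (mem_sphere_zero_iff_norm.1 hz))
  rw [serf, PowerSeries.coeff_mk, norm_div, Complex.norm_natCast]
  have h2 : (0 : ℝ) < k.factorial := by exact_mod_cast Nat.factorial_pos k
  have h3 : (0 : ℝ) < ρ ^ k := pow_pos hρ k
  rw [div_mul_eq_mul_div, div_le_iff₀ h2]
  calc ‖iteratedDeriv k g 0‖ * ρ ^ k ≤ (k.factorial * M / ρ ^ k) * ρ ^ k := by gcongr
    _ = M * k.factorial := by field_simp

end Pool.Agent.H52.AC
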