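import Mathlib

/-! # [AC-TS] The local parameter `T` as a function of `s`, `x = x1 + κ s`

Proof. `g s = T1 * (1 + κ s / x1) ^ (-(1/e : ℂ))` (complex power, principal branch). For `‖s‖ < r`,
`‖κ‖ r ≤ ‖x1‖`, we have `‖κ s / x1‖ < 1`, so `1 + κ s / x1` has positive real part and is in the slit
plane (`Complex.mem_slitPlane_of_norm_lt_one`), so `g` is differentiable there
(`DifferentiableAt.cpow`, `DifferentiableOn.cpow`, constant exponent:
`DifferentiableAt.cpow_const`); `((1 + w)^(-1/e))^e = (1 + w)^(-1) = (1+w)⁻¹`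
(`Complex.cpow_nat_mul` / `Complex.cpow_mul_nat`, `Complex.cpow_neg_one`), so
`(q g(s))^e (x1 + κ s) = (q T1)^e (1 + κ s/x1)⁻¹ x1 (1 + κ s / x1) = 1`. `g 0 = T1 * 1^(..) = T1`
(`Complex.one_cpow`). -/

namespace Pool.Agent.H52.AC

open Finset

theorem exists_Ts {q x1 κ T1 : ℂ} {e : ℕ} (he : 1 ≤ e) (hT : (q * T1) ^ e * x1 = 1) {r : ℝ}
    (hr : ‖κ‖ * r ≤ ‖x1‖) : ∃ g : ℂ → ℂ, DifferentiableOn ℂ g (Metric.ball 0 r) ∧ g 0 = T1 ∧
      ∀ s ∈ Metric.ball (0 : ℂ) r, (q * g s) ^ e * (x1 + κ * s) = 1 := by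
  have he0 : (e : ℂ) ≠ 0 := by
    have : e ≠ 0 := by omega
    exact_mod_cast this
  have hx1 : x1 ≠ 0 := by
    rintro rfl
    rw [mul_zero] at hT
    exact zero_ne_one hT
  have hw : ∀ s ∈ Metric.ball (0 : ℂ) r, ‖κ * s / x1‖ < 1 := by
    intro s hs
    rw [mem_ball_zero_iff] at hs
    have h0 : 0 < ‖x1‖ := norm_pos_iff.2 hx1
    rw [norm_div, norm_mul, div_lt_one h0]
    rcases eq_or_ne κ 0 with rfl | hκ
    · rw [norm_zero, zero_mul]
      exact h0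
    · exact (mul_lt_mul_of_pos_left hs (norm_pos_iff.2 hκ)).trans_le hr
  have hsl : ∀ s ∈ Metric.ball (0 : ℂ) r, 1 + κ * s / x1 ∈ Complex.slitPlane := fun s hs =>
    Complex.mem_slitPlane_of_norm_lt_one (hw s hs)
  refine ⟨fun s => T1 * (1 + κ * s / x1) ^ (-(1 / (e : ℂ))), ?_, ?_, ?_⟩
  · intro s hs
    apply DifferentiableAt.differentiableWithinAt
    apply DifferentiableAt.const_mul
    apply DifferentiableAt.cpow_const
    · fun_prop
    · exact hsl s hs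
  · simp
  · intro s hs
    have h1 : 1 + κ * s / x1 ≠ 0 := Complex.slitPlane_ne_zero (hsl s hs)
    have h2 : ((1 + κ * s / x1) ^ (-(1 / (e : ℂ)))) ^ e = (1 + κ * s / x1)⁻¹ := by
      rw [← Complex.cpow_mul_nat]
      rw [neg_mul, one_div, inv_mul_cancel₀ he0, Complex.cpow_neg_one]
    have h3 : (q * (T1 * (1 + κ * s / x1) ^ (-(1 / (e : ℂ))))) ^ e * (x1 + κ * s) =
        ((q * T1) ^ e * x1) * (((1 + κ * s / x1) ^ (-(1 / (e : ℂ)))) ^ e * (1 + κ * s / x1)) := by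
      rw [← mul_assoc, mul_pow _ (_ ^ (-(1 / (e : ℂ))))]
      have h4 : x1 + κ * s = x1 * (1 + κ * s / x1) := by
        field_simp
      rw [h4]
      ring
    show (q * (T1 * (1 + κ * s / x1) ^ (-(1 / (e : ℂ))))) ^ e * (x1 + κ * s) = 1
    rw [h3, hT, h2, inv_mul_cancel₀ h1, one_mul]

end Pool.Agent.H52.AC
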