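import Pool.Agent.H52.AC.FI
import Pool.Agent.H52.AC.SER
import Pool.Agent.H52.AC.TS
import Pool.Agent.H72.ES.Local

/-! # [AC-LOC] The integral local series of the curve is the composed branch; Cauchy's estimate

Let `κ = |κ|` be the integer `≠ 0` in `xs x1 κ = x1 + κ S`, `r = |x1| / (2 |κ|) * (3/2)` or any
radius with `ρ < r` and `|κ| r < |x1|` (e.g. `r = 3 |x1| / (4 |κ|)`; `ρ ≤ |x1| / (2 |κ|) < r`).
(1) `g` from `exists_Ts` (`q = pd.q`, radius `r`); for `s` in the ball, `x(s) = x1 + κ s`,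
`|x(s)| ≥ |x1| - |κ| r = |x1|/4 > 0`, so `‖g s‖^e ≤ 1/|x(s)| ≤ 4/|x1|` (`q ≥ 1`), so
`R ‖g s‖ ≤ 1/2` by `hbig : 4 (2R)^e ≤ |x1|` (contrapositive of `pow_lt_pow_left`).
(2) `Z_j(s) = evz (g s) (pd.x j)` is differentiable on the ball: `evz_diff` (`Gr r'` for
`r' = 2/(3R)`, `gr_of_le`, `‖g s‖ ≤ 1/(2R) < r'`) composed with `g`. So `s ↦ x(s) Z_j(s) ∈ An`.
(3) In `An[W]`: the polynomial `P = ∑_(i+j ≤ n) F i j x^i W^j` and `Q = ∏_j (W - x Z_j)` have
coefficients which agree near `0`: for each `s` in the ball, `split_at` at `T = g s`: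
`f(t, Z) = ∏ (Z - Z_j(s))`, `t = 1/x(s)`; put `Z = W/x(s)` and multiply by `x(s)^n` (`fI_eval`,
`ev_eq_evt`): `ev n F x(s) W = ∏ (W - x(s) Z_j(s))` for all `W ∈ ℂ`, so the polynomials (in `W`) agree
(`Polynomial.funext`). Apply `ser` (`serf_congr` for each coefficient):
`∑ F i j (x1 + κ S)^i W^j = ∏_j (W - serf (x Z_j))` in `PowerSeries ℂ [W]`, (`serf_affine`).
(4) Let `ψ = PowerSeries.map (Int.castRingHom ℂ)`. `W = ψ Y` is a root of the left side by `hY`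
(`ev_map`, `cst_map`), so `ψ Y = serf (x Z_j)` for some `j` (`PowerSeries ℂ` is a domain). Constant
coefficients (`serf_zero`, `hY0`): `y1 = x1 evz T1 (x j)`, so `j = i` by `huniq`.
(5) `ψ (ev D (cst c) (xs x1 κ) Y) = ev D (cst c) (x1 + κ S) (serf (x Z_i)) = serf h`, with
`h s = ev D (cst ℂ c) (x(s)) (x(s) Z_i(s))` (`ser` is a ring homomorphism, `ev_map`), and for `s` in the ball
`h s = x(s)^D evt D (cst ℂ c) (1/x(s)) (Z_i(s))` (`ev_eq_evt`). `serf_le` with `M`: for `‖s‖ = ρ` use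
`hM` with `T = g s`, `x = x(s)`, `‖x(s) - x1‖ = |κ| ρ ≤ |x1|/2`. -/

namespace Pool.Agent.H52.AC

open Finset Polynomial Pool.Agent.H87.SA2 Pool.Agent.H8.AW Pool.Agent.H72.ES

/-- evaluation at a point -/
private noncomputable def loc_es (s : ℂ) : An →+* ℂ := (Pi.evalRingHom (fun _ : ℂ => ℂ) s).comp An.subtype

private theorem loc_es_apply (s : ℂ) (g : An) : loc_es s g = g.1 s := rfl

/-- the polynomial identity at a point -/
private theorem loc_point {n : ℕ} {F : ℕ → ℕ → ℤ} (pd : PData (fI n F) n) {T x : ℂ}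
    (hT : pd.R * ‖T‖ < 1) (hTx : ((pd.q : ℂ) * T) ^ pd.e * x = 1) :
    ev n (cst ℂ[X] F) (C x) X = ∏ j, (X - C (x * evz T (pd.x j))) := by
  refine Polynomial.funext fun W => ?_
  have h1 : (ev n (cst ℂ[X] F) (C x) X).eval W = ev n (cst ℂ F) x W := by
    have h2 := ev_map (Polynomial.evalRingHom W) n (cst ℂ[X] F) (C x) X
    rw [cst_map] at h2
    simp only [Polynomial.coe_evalRingHom, Polynomial.eval_C, Polynomial.eval_X] at h2
    exact h2
  rw [h1, ev_eq_evt n (cst ℂ F) x W _ hTx, ← fI_eval, split_at pd hT]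
  rw [Polynomial.eval_prod, Polynomial.eval_prod]
  have h3 : x ^ n = ∏ _j : Fin n, x := by
    rw [Finset.prod_const, Finset.card_univ, Fintype.card_fin]
  rw [h3, ← Finset.prod_mul_distrib]
  refine Finset.prod_congr rfl fun j _ => ?_
  rw [Polynomial.eval_sub, Polynomial.eval_X, Polynomial.eval_C, Polynomial.eval_sub,
    Polynomial.eval_X, Polynomial.eval_C, mul_sub, ← mul_assoc, mul_comm x (_ ^ _), hTx, one_mul]

/-- the polynomial identity for the Taylor series -/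
private theorem loc_series {n : ℕ} {F : ℕ → ℕ → ℤ} (xA : An) (WA : Fin n → An)
    {r : ℝ} (hr : 0 < r)
    (h : ∀ s ∈ Metric.ball (0 : ℂ) r, ev n (cst ℂ[X] F) (C (xA.1 s)) X =
      ∏ j, (X - C ((WA j).1 s))) :
    ev n (cst (PowerSeries ℂ)[X] F) (C (serf xA.1)) X = ∏ j, (X - C (serf (WA j).1)) := by
  have h1 : ev n (cst (PowerSeries ℂ)[X] F) (C (serf xA.1)) X =
      (ev n (cst An[X] F) (C xA) X).map ser := by
    have h2 := ev_map (Polynomial.mapRingHom ser) n (cst An[X] F) (C xA) X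
    rw [cst_map] at h2
    simp only [Polynomial.coe_mapRingHom, Polynomial.map_C, Polynomial.map_X, ser_apply] at h2
    exact h2.symm
  have h2 : ∏ j, (X - C (serf (WA j).1)) = (∏ j, (X - C (WA j)) : An[X]).map ser := by
    rw [Polynomial.map_prod]
    refine Finset.prod_congr rfl fun j _ => ?_
    rw [Polynomial.map_sub, Polynomial.map_X, Polynomial.map_C, ser_apply]
  rw [h1, h2]
  ext1 k
  rw [Polynomial.coeff_map, Polynomial.coeff_map, ser_apply, ser_apply]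
  refine serf_congr ?_
  filter_upwards [Metric.ball_mem_nhds (0 : ℂ) hr] with s hs
  have h3 := h s hs
  have h4 : (ev n (cst An[X] F) (C xA) X).map (loc_es s) =
      ev n (cst ℂ[X] F) (C (xA.1 s)) X := by
    have h5 := ev_map (Polynomial.mapRingHom (loc_es s)) n (cst An[X] F) (C xA) X
    rw [cst_map] at h5
    simp only [Polynomial.coe_mapRingHom, Polynomial.map_C, Polynomial.map_X, loc_es_apply] at h5
    exact h5
  have h5 : (∏ j, (X - C (WA j)) : An[X]).map (loc_es s) = ∏ j, (X - C ((WA j).1 s)) := by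
    rw [Polynomial.map_prod]
    refine Finset.prod_congr rfl fun j _ => ?_
    rw [Polynomial.map_sub, Polynomial.map_X, Polynomial.map_C, loc_es_apply]
  rw [← h4, ← h5] at h3
  have h6 := congrArg (fun f => Polynomial.coeff f k) h3
  simp only [Polynomial.coeff_map, loc_es_apply] at h6
  exact h6

theorem loc_bound {n : ℕ} {F : ℕ → ℕ → ℤ} (pd : PData (fI n F) n) {x1 y1 κ : ℤ}
    (hx1 : x1 ≠ 0) (hκ : κ ≠ 0) {Y : PowerSeries ℤ} (hY0 : PowerSeries.constantCoeff Y = y1)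
    (hY : ev n (cst (PowerSeries ℤ) F) (xs x1 κ) Y = 0) {T1 : ℂ} {i : Fin n}
    (hT1 : ((pd.q : ℂ) * T1) ^ pd.e * (x1 : ℂ) = 1)
    (hi : evz T1 (pd.x i) = (y1 : ℂ) / (x1 : ℂ))
    (huniq : ∀ j, evz T1 (pd.x j) = (y1 : ℂ) / (x1 : ℂ) → j = i)
    (hbig : 4 * (2 * pd.R) ^ pd.e ≤ |(x1 : ℝ)|) (D : ℕ) (c : ℕ → ℕ → ℤ) {M ρ : ℝ}
    (hρ : 0 < ρ) (hρx : |(κ : ℝ)| * ρ ≤ |(x1 : ℝ)| / 2)
    (hM : ∀ T x : ℂ, ((pd.q : ℂ) * T) ^ pd.e * x = 1 → ‖x - x1‖ ≤ |(x1 : ℝ)| / 2 →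
      ‖x ^ D * evt D (cst ℂ c) (1 / x) (evz T (pd.x i))‖ ≤ M) (K : ℕ) :
    |((PowerSeries.coeff K (ev D (cst (PowerSeries ℤ) c) (xs x1 κ) Y) : ℤ) : ℝ)| * ρ ^ K ≤ M := by
  classical
  have he := pd.e_pos
  have hq1 : (1 : ℝ) ≤ pd.q := by exact_mod_cast pd.q_pos
  have hR2 := pd.R_ge
  have hR0 : 0 < pd.R := by linarith
  have hxp : 0 < |(x1 : ℝ)| := abs_pos.2 (by exact_mod_cast hx1)
  have hκp : 0 < |(κ : ℝ)| := abs_pos.2 (by exact_mod_cast hκ)
  have hnx : ‖(x1 : ℂ)‖ = |(x1 : ℝ)| := Complex.norm_intCast x1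
  have hnκ : ‖(κ : ℂ)‖ = |(κ : ℝ)| := Complex.norm_intCast κ
  obtain ⟨r, hr⟩ : ∃ r : ℝ, |(κ : ℝ)| * r = 3 / 4 * |(x1 : ℝ)| :=
    ⟨3 / 4 * |(x1 : ℝ)| / |(κ : ℝ)|, by field_simp⟩
  have hρr : ρ < r := by
    have : |(κ : ℝ)| * ρ < |(κ : ℝ)| * r := by
      rw [hr]
      linarith
    exact lt_of_mul_lt_mul_left this hκp.le
  have hr0 : 0 < r := hρ.trans hρr
  obtain ⟨g, hgd, hg0, hgs⟩ := exists_Ts (q := (pd.q : ℂ)) (x1 := (x1 : ℂ)) (κ := (κ : ℂ)) he hT1
    (r := r) (by rw [hnκ, hnx, hr]; linarith)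
  have hxs : ∀ s ∈ Metric.ball (0 : ℂ) r, |(x1 : ℝ)| / 4 ≤ ‖(x1 : ℂ) + κ * s‖ := by
    intro s hs
    rw [mem_ball_zero_iff] at hs
    have h1 : ‖(κ : ℂ) * s‖ ≤ 3 / 4 * |(x1 : ℝ)| := by
      rw [norm_mul, hnκ, ← hr]
      exact mul_le_mul_of_nonneg_left hs.le hκp.le
    have h2 : ‖(x1 : ℂ)‖ ≤ ‖(x1 : ℂ) + κ * s‖ + ‖(κ : ℂ) * s‖ := by
      have h3 := norm_sub_le ((x1 : ℂ) + κ * s) (κ * s)
      rwa [add_sub_cancel_right] at h3
    rw [hnx] at h2
    linarith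
  have hRg : ∀ s ∈ Metric.ball (0 : ℂ) r, pd.R * ‖g s‖ ≤ 1 / 2 := by
    intro s hs
    have h1 := hxs s hs
    have h2 : (‖(pd.q : ℂ) * g s‖) ^ pd.e * ‖(x1 : ℂ) + κ * s‖ = 1 := by
      rw [← norm_pow, ← norm_mul, hgs s hs, norm_one]
    have h3 : ‖g s‖ ≤ ‖(pd.q : ℂ) * g s‖ := by
      rw [norm_mul, Complex.norm_natCast]
      exact le_mul_of_one_le_left (norm_nonneg _) hq1
    have h4 : (2 * pd.R * ‖g s‖) ^ pd.e ≤ 1 := by
      have h5 : ‖g s‖ ^ pd.e ≤ ‖(pd.q : ℂ) * g s‖ ^ pd.e := pow_le_pow_left₀ (norm_nonneg _) h3 _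
      have h6 : (0 : ℝ) ≤ ‖(pd.q : ℂ) * g s‖ ^ pd.e := by positivity
      have h7 : (0 : ℝ) ≤ (2 * pd.R) ^ pd.e := by positivity
      calc (2 * pd.R * ‖g s‖) ^ pd.e = (2 * pd.R) ^ pd.e * ‖g s‖ ^ pd.e := mul_pow _ _ _
        _ ≤ (2 * pd.R) ^ pd.e * ‖(pd.q : ℂ) * g s‖ ^ pd.e := mul_le_mul_of_nonneg_left h5 h7
        _ ≤ (|(x1 : ℝ)| / 4) * ‖(pd.q : ℂ) * g s‖ ^ pd.e :=
          mul_le_mul_of_nonneg_right (by linarith) h6
        _ ≤ ‖(x1 : ℂ) + κ * s‖ * ‖(pd.q : ℂ) * g s‖ ^ pd.e := mul_le_mul_of_nonneg_right h1 h6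
        _ = 1 := by rw [mul_comm]; exact h2
    have h5 : 2 * pd.R * ‖g s‖ ≤ 1 := by
      by_contra hcon
      push Not at hcon
      exact absurd (one_lt_pow₀ hcon (by omega)) (not_lt.2 h4)
    linarith
  have hZd : ∀ j, DifferentiableOn ℂ (fun s => evz (g s) (pd.x j)) (Metric.ball 0 r) := by
    intro j
    have hGr : Gr (2 / (3 * pd.R)) (pd.x j) := by
      refine gr_of_le (R := pd.R) (C := pd.R) hR0.le (by positivity) ?_ ?_
      · have : pd.R * (2 / (3 * pd.R)) = 2 / 3 := by field_simp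
        rw [this]
        norm_num
      · intro m
        rw [← pow_succ']
        exact pd.growth j m
    refine (evz_diff hGr).comp hgd ?_
    intro s hs
    rw [mem_ball_zero_iff]
    have h1 := hRg s hs
    rw [lt_div_iff₀ (by positivity)]
    linarith
  have hnhds : Metric.ball (0 : ℂ) r ∈ nhds (0 : ℂ) := Metric.ball_mem_nhds 0 hr0
  have hxd : DifferentiableOn ℂ (fun s : ℂ => (x1 : ℂ) + κ * s) (Metric.ball 0 r) := by
    fun_prop
  have hWd : ∀ j, DifferentiableOn ℂ (fun s : ℂ => ((x1 : ℂ) + κ * s) * evz (g s) (pd.x j))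
      (Metric.ball 0 r) := fun j => hxd.mul (hZd j)
  let xA : An := ⟨fun s => (x1 : ℂ) + κ * s, hxd.analyticAt hnhds⟩
  let WA : Fin n → An := fun j => ⟨fun s => ((x1 : ℂ) + κ * s) * evz (g s) (pd.x j),
    (hWd j).analyticAt hnhds⟩
  have hid := loc_series (n := n) (F := F) xA WA hr0 (fun s hs => loc_point pd
    (lt_of_le_of_lt (hRg s hs) (by norm_num)) (hgs s hs))
  -- the integral series
  let ψ : PowerSeries ℤ →+* PowerSeries ℂ := PowerSeries.map (Int.castRingHom ℂ)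
  have hψx : ψ (xs x1 κ) = serf xA.1 := by
    show ψ (xs x1 κ) = serf (fun s => (x1 : ℂ) + κ * s)
    rw [serf_affine, xs, map_add, map_mul]
    show PowerSeries.map (Int.castRingHom ℂ) _ + PowerSeries.map (Int.castRingHom ℂ) _ *
      PowerSeries.map (Int.castRingHom ℂ) _ = _
    rw [PowerSeries.map_C, PowerSeries.map_C, PowerSeries.map_X]
    rfl
  have hψY : ev n (cst (PowerSeries ℂ) F) (serf xA.1) (ψ Y) = 0 := by
    have h1 := ev_map ψ n (cst (PowerSeries ℤ) F) (xs x1 κ) Y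
    rw [hY, map_zero, cst_map, hψx] at h1
    exact h1.symm
  have hroot : ∏ j, (ψ Y - serf (WA j).1) = 0 := by
    have h1 := congrArg (Polynomial.eval (ψ Y)) hid
    rw [Polynomial.eval_prod] at h1
    have h2 : (ev n (cst (PowerSeries ℂ)[X] F) (C (serf xA.1)) X).eval (ψ Y) =
        ev n (cst (PowerSeries ℂ) F) (serf xA.1) (ψ Y) := by
      have h3 := ev_map (Polynomial.evalRingHom (ψ Y)) n (cst (PowerSeries ℂ)[X] F)
        (C (serf xA.1)) X
      rw [cst_map] at h3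
      simp only [Polynomial.coe_evalRingHom, Polynomial.eval_C, Polynomial.eval_X] at h3
      exact h3
    rw [h2, hψY] at h1
    rw [h1]
    refine Finset.prod_congr rfl fun j _ => ?_
    rw [Polynomial.eval_sub, Polynomial.eval_X, Polynomial.eval_C]
  obtain ⟨j, -, hj⟩ := Finset.prod_eq_zero_iff.1 hroot
  have hjY : ψ Y = serf (WA j).1 := sub_eq_zero.1 hj
  have hji : j = i := by
    apply huniq
    have h1 := congrArg PowerSeries.constantCoeff hjY
    rw [serf_zero] at h1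
    have h2 : PowerSeries.constantCoeff (ψ Y) = (y1 : ℂ) := by
      rw [← hY0, ← PowerSeries.coeff_zero_eq_constantCoeff_apply,
        ← PowerSeries.coeff_zero_eq_constantCoeff_apply]
      show PowerSeries.coeff 0 (PowerSeries.map (Int.castRingHom ℂ) Y) = _
      rw [PowerSeries.coeff_map]
      rfl
    rw [h2] at h1
    have h3 : (WA j).1 0 = (x1 : ℂ) * evz T1 (pd.x j) := by
      show ((x1 : ℂ) + κ * 0) * evz (g 0) (pd.x j) = _
      rw [mul_zero, add_zero, hg0]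
    rw [h3] at h1
    rw [h1]
    field_simp
  rw [hji] at hjY
  -- the composed function
  have hhser : ψ (ev D (cst (PowerSeries ℤ) c) (xs x1 κ) Y) =
      serf (fun s => ev D (cst ℂ c) ((x1 : ℂ) + κ * s)
        (((x1 : ℂ) + κ * s) * evz (g s) (pd.x i))) := by
    rw [ev_map, cst_map, hψx, hjY]
    have h1 := ev_map ser D (cst An c) xA (WA i)
    rw [cst_map] at h1
    rw [ser_apply] at h1
    rw [ser_apply, ser_apply] at h1
    rw [← h1]
    congr 1
    funext s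
    have h2 := ev_map (loc_es s) D (cst An c) xA (WA i)
    rw [cst_map] at h2
    exact h2
  have hcoef : |((PowerSeries.coeff K (ev D (cst (PowerSeries ℤ) c) (xs x1 κ) Y) : ℤ) : ℝ)| =
      ‖PowerSeries.coeff K (serf (fun s => ev D (cst ℂ c) ((x1 : ℂ) + κ * s)
        (((x1 : ℂ) + κ * s) * evz (g s) (pd.x i))))‖ := by
    rw [← hhser]
    show _ = ‖PowerSeries.coeff K (PowerSeries.map (Int.castRingHom ℂ) _)‖
    rw [PowerSeries.coeff_map, eq_intCast, Complex.norm_intCast]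
  rw [hcoef]
  refine serf_le hρ hρr ?_ ?_ K
  · unfold ev
    refine DifferentiableOn.fun_sum fun a _ => DifferentiableOn.fun_sum fun b _ => ?_
    exact ((differentiableOn_const _).mul (hxd.pow a)).mul ((hWd i).pow b)
  · intro s hs
    have hsb : s ∈ Metric.ball (0 : ℂ) r := by
      rw [mem_ball_zero_iff, hs]
      exact hρr
    have h1 := hgs s hsb
    have hx0 : (x1 : ℂ) + κ * s ≠ 0 := by
      intro h0
      rw [h0, mul_zero] at h1
      exact zero_ne_one h1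
    have h2 := hM (g s) ((x1 : ℂ) + κ * s) h1 (by
      rw [add_sub_cancel_left, norm_mul, hnκ, hs]
      exact hρx)
    have h3 : 1 / ((x1 : ℂ) + κ * s) * ((x1 : ℂ) + κ * s) = 1 := by field_simp
    rw [ev_eq_evt D (cst ℂ c) _ _ _ h3]
    have h4 : 1 / ((x1 : ℂ) + κ * s) * (((x1 : ℂ) + κ * s) * evz (g s) (pd.x i)) =
        evz (g s) (pd.x i) := by
      rw [← mul_assoc, h3, one_mul]
    rw [h4]
    exact h2

end Pool.Agent.H52.AC
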