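import Pool.Agent.H52.AC.NPG
import Pool.Agent.H8.KF.MultG

/-! # [AC-MUG] Multiplicity estimate

`Pool.Agent.H8.KF.multG` with the irreducibility of the leading form replaced by injectivity. -/

namespace Pool.Agent.H52.AC

open Finset Polynomial Pool.Agent.H72.ES Pool.Agent.H8.KF Pool.Agent.H8.KF.MultGAux

open MultAux in
theorem multI {n Q : ℕ} {f : ℤ[X]} {F : ℕ → ℕ → ℤ} (hF : Norml n Q f F)
    (hinj : ∀ (x1 κ : ℤ) (Y : PowerSeries ℤ), κ ≠ 0 → Lam (xs x1 κ) Y (toP n F) = 0 →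
      ∀ p : ℤ[X][X], p ≠ 0 → p.natDegree < n → Lam (xs x1 κ) Y p ≠ 0)
    (x1 y1 : ℤ) (hx1 : x1 ≠ 0) (hκ : evy n F x1 y1 ≠ 0) (Y : PowerSeries ℤ)
    (hY0 : PowerSeries.constantCoeff Y = y1)
    (hY : ev n (cst (PowerSeries ℤ) F) (xs x1 (evy n F x1 y1 ^ 2)) Y = 0) (d : ℕ)
    {ι : Type} [Fintype ι] (r0 : ℕ) (hr0 : Fintype.card ι = r0)
    (A : ι → ℕ → ℕ → ℤ) (hA : ∀ m i j, A m i j ≠ 0 → i + j ≤ d ∧ j < n) (Z : ℝ)
    (hZ : ∀ m i j, |((A m i j : ℤ) : ℝ)| ≤ Z) (μ : ι → ℤ)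
    (hne : ∃ i j, ∑ m, μ m * A m i j ≠ 0) (K : ℕ)
    (hvan : ∀ k ≤ K, PowerSeries.coeff k (ev d
      (cst (PowerSeries ℤ) (fun i j => ∑ m, μ m * A m i j)) (xs x1 (evy n F x1 y1 ^ 2)) Y) = 0) :
    |(x1 : ℝ)| ^ (K - r0) ≤ ((n : ℝ) * ((r0 : ℝ) ^ r0 *
      (((Q : ℝ) ^ 4 * ((d : ℝ) + 3 * r0 * n)) ^ r0 * Z) ^ r0 * ((Q : ℝ) ^ 3) ^ (r0 ^ 2 * n))) ^ n := by
  classical
  have hn := hF.hn
  have hQ := hF.hQ
  have hQ1 := one_le_QR hn hQ
  have hnQ := n_leR hn hQ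
  have hn4 : (4 : ℝ) ≤ n := by exact_mod_cast hn
  have hd0 : (0 : ℝ) ≤ d := Nat.cast_nonneg d
  set κ : ℤ := evy n F x1 y1 ^ 2 with hκdef
  have hκ0 : κ ≠ 0 := pow_ne_zero 2 hκ
  set Λ := Lam (xs x1 κ) Y with hΛ
  set Fp := toP n F with hFp
  have hFΛ : Λ Fp = 0 := by rw [hΛ, hFp, Lam_toP]; exact hY
  -- `Z ≥ 1`
  obtain ⟨i0, j0, hij⟩ := hne
  obtain ⟨m0, -, hm0⟩ := exists_ne_zero_of_sum_ne_zero hij
  have hAm0 : A m0 i0 j0 ≠ 0 := fun h => hm0 (by rw [h, mul_zero])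
  have hZ1 : 1 ≤ Z := by
    have h1 : (1 : ℝ) ≤ |((A m0 i0 j0 : ℤ) : ℝ)| := by exact_mod_cast Int.one_le_abs hAm0
    exact h1.trans (hZ _ _ _)
  set h : ℤ[X][X] := toP d (fun i j => ∑ m, μ m * A m i j) with hh
  have hh0 : h ≠ 0 := by
    intro h0
    have h1 := toP_coeffM d (fun i j => ∑ m, μ m * A m i j) i0 j0
    rw [← hh, h0, coeff_zero, coeff_zero, if_pos (hA m0 i0 j0 hAm0).1] at h1
    exact hij h1.symm
  obtain ⟨r, s, c0, c, l0, hr, hcl0, hrel, hindep⟩ :=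
    MultGAux.exists_min_rel (fun m => toP d (A m)) h hh0
    (fun k v hkv => by
      rcases smul_eq_zero.mp hkv with h | h
      · exact Or.inl h
      · exact Or.inr h) μ (MultGAux.toP_sum d A μ)
  rw [hr0] at hr
  have hr01 : 1 ≤ r0 := by have := l0.2; omega
  have hp_deg : ∀ m, (toP d (A m)).natDegree < n := by
    intro m
    have := toP_natDegree_le d (n - 1) (A m) (fun i j hne' _ => by have := (hA m i j hne').2; omega)
    omega
  have hp_L2 : ∀ m, L2 (toP d (A m)) ≤ (d + 1) * n * Z := by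
    intro m
    have h1 := L2_toP_le d (n - 1) (A m) Z (hZ m) (fun i j hne' => by
      have := hA m i j hne'; omega)
    have h2 : (((n - 1 : ℕ) : ℝ) + 1) = n := by
      rw [Nat.cast_sub (by omega)]; push_cast; ring
    rw [h2] at h1
    exact h1
  set D := Dop Fp with hD
  set a : ℕ → Fin r → PowerSeries ℤ := fun i l => Λ (D^[i] (toP d (A (s l)))) with ha
  set g : PowerSeries ℤ := Λ (derivative Fp) with hg
  have hgc : PowerSeries.constantCoeff g ≠ 0 := by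
    rw [hg, hΛ, Lam_hom, hY0]
    have h1 : PowerSeries.constantCoeff (xs x1 κ) = x1 := by simp [xs]
    rw [h1, hFp, Lam_deriv_toP]
    exact hκ
  have hstep : ∀ p : ℤ[X][X], PowerSeries.C κ * Λ (D p) = g * PowerSeries.derivative ℤ (Λ p) :=
    fun p => Dop_chain x1 κ Y Fp hFΛ p
  have hW0 : (Matrix.of fun (i l : Fin r) => a i l).det ≠ 0 := by
    apply wronsk κ hκ0 g hgc a
    · intro i l
      simp only [ha]
      rw [Function.iterate_succ_apply']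
      exact hstep _
    · intro e he
      apply hindep
      by_contra hcon
      refine hinj x1 κ Y hκ0 hFΛ _ hcon ?_ ?_
      · refine lt_of_le_of_lt (natDegree_sum_le_of_forall_le (n := n - 1) _ _ fun l _ => ?_)
          (by omega)
        have h1 := natDegree_smul_le (e l) (toP d (A (s l)))
        have h2 := hp_deg (s l)
        omega
      · rw [map_sum, ← he]
        refine sum_congr rfl fun l _ => ?_
        rw [map_zsmul, zsmul_eq_mul]
        simp only [ha, Function.iterate_zero, id]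
        congr 1
        simp
  set M : Matrix (Fin r) (Fin r) ℤ[X][X] := Matrix.of fun i l => D^[(i : ℕ)] (toP d (A (s l)))
    with hM
  set W := M.det with hWdef
  have hΛW : Λ W = (Matrix.of fun (i l : Fin r) => a i l).det := by
    rw [hWdef, RingHom.map_det]
    rfl
  have hW : Λ W ≠ 0 := by rw [hΛW]; exact hW0
  -- vanishing
  have hvan0 : (PowerSeries.X : PowerSeries ℤ) ^ (K + 1) ∣ Λ h := by
    rw [PowerSeries.X_pow_dvd_iff]
    intro k hk
    rw [hΛ, hh, Lam_toP]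
    exact hvan k (by omega)
  have hvanD : ∀ i : ℕ, (PowerSeries.X : PowerSeries ℤ) ^ (K + 1 - i) ∣ Λ (D^[i] h) := by
    intro i
    induction i with
    | zero => simpa using hvan0
    | succ i ih =>
      rcases Nat.lt_or_ge i (K + 1) with hi | hi
      · rw [Function.iterate_succ_apply']
        refine order_drop κ hκ0 g (Λ (D^[i] h)) _ (hstep _) (K + 1 - (i + 1)) ?_
        rw [show K + 1 - (i + 1) + 1 = K + 1 - i by omega]
        exact ih
      · rw [show K + 1 - (i + 1) = 0 by omega, pow_zero]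
        exact one_dvd _
  have hdvdW : (PowerSeries.X : PowerSeries ℤ) ^ (K - r0) ∣ Λ W := by
    have h1 : ∀ i : Fin r, ∃ u : PowerSeries ℤ, Λ (c0 • D^[(i : ℕ)] h) =
        (PowerSeries.X : PowerSeries ℤ) ^ (K - r0) * u := by
      intro i
      have h2 : (PowerSeries.X : PowerSeries ℤ) ^ (K - r0) ∣ Λ (D^[(i : ℕ)] h) := by
        refine dvd_trans (pow_dvd_pow _ ?_) (hvanD i)
        have := i.2
        omega
      obtain ⟨u, hu⟩ := h2
      refine ⟨c0 • u, ?_⟩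
      rw [map_zsmul, hu, mul_smul_comm]
    choose u hu using h1
    have h3 : c l0 • W = (M.updateCol l0 (fun (i : Fin r) => c0 • D^[(i : ℕ)] h)).det := by
      have h4 := Matrix.det_updateCol_sum M l0 (fun l => ((c l : ℤ) : ℤ[X][X]))
      have h5 : (fun k => ∑ l, ((c l : ℤ) : ℤ[X][X]) • M k l) =
          (fun (i : Fin r) => c0 • D^[(i : ℕ)] h) := by
        funext i
        rw [← iter_Dop_smul, hrel, iter_Dop_sum]
        refine sum_congr rfl fun l _ => ?_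
        rw [hM, Matrix.of_apply, smul_eq_mul, zsmul_eq_mul]
      rw [h5] at h4
      rw [h4, smul_eq_mul, zsmul_eq_mul]
    have h6 : Λ (c l0 • W) = (PowerSeries.X : PowerSeries ℤ) ^ (K - r0) *
        ((M.map Λ).updateCol l0 u).det := by
      rw [h3, RingHom.map_det, ← Matrix.det_updateCol_smul]
      congr 1
      ext i l
      rw [RingHom.mapMatrix_apply, Matrix.map_apply, Matrix.updateCol_apply,
        Matrix.updateCol_apply]
      split_ifs with hl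
      · rw [hu i]; rfl
      · rfl
    rw [PowerSeries.X_pow_dvd_iff]
    intro k hk
    have h7 : (PowerSeries.X : PowerSeries ℤ) ^ (K - r0) ∣ Λ (c l0 • W) := by
      rw [h6]; exact dvd_mul_right _ _
    rw [PowerSeries.X_pow_dvd_iff] at h7
    have h8 := h7 k hk
    rw [map_zsmul, map_zsmul, smul_eq_mul] at h8
    rcases mul_eq_zero.mp h8 with h9 | h9
    · exact absurd h9 hcl0
    · exact h9
  -- sizes
  set E : ℝ := (d : ℝ) + 3 * r0 * n with hE
  set B : ℝ := ((Q : ℝ) ^ 4 * E) ^ r0 * Z with hB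
  have hr1 : (1 : ℝ) ≤ r0 := by exact_mod_cast hr01
  have hrn : (4 : ℝ) ≤ r0 * n := by nlinarith
  have hE1 : (1 : ℝ) ≤ E := by rw [hE]; nlinarith
  have hQE : (1 : ℝ) ≤ (Q : ℝ) ^ 4 * E := by
    have h5 : (1 : ℝ) ≤ (Q : ℝ) ^ 4 := one_le_pow₀ hQ1
    calc (1 : ℝ) = 1 * 1 := by norm_num
      _ ≤ _ := by gcongr
  have hB1 : 1 ≤ B := by
    rw [hB]
    have h1 : (1 : ℝ) ≤ ((Q : ℝ) ^ 4 * E) ^ r0 := one_le_pow₀ hQE
    calc (1 : ℝ) = 1 * 1 := by norm_num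
      _ ≤ _ := by gcongr
  have hsize : ∀ i l : Fin r, L2 (M i l) ≤ B ∧ (M i l).natDegree ≤ r0 * n := by
    intro i l
    have hi : (i : ℕ) < r0 := by have := i.2; omega
    obtain ⟨h1, -, h3⟩ := MultGAux.size_iter hF d (toP d (A (s l))) (hp_deg _)
      (toP_coeff_natDegree_le d _) Z (hp_L2 _) hZ1 r0 hr01 i hi
    refine ⟨h3.trans ?_, h1.trans ?_⟩
    · have hQ4 : (Q : ℝ) ≤ (Q : ℝ) ^ 4 := by
        calc (Q : ℝ) = (Q : ℝ) ^ 1 := (pow_one _).symm
          _ ≤ (Q : ℝ) ^ 4 := pow_le_pow_right₀ hQ1 (by norm_num)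
      obtain ⟨t, ht⟩ : ∃ t, r0 = t + 1 := ⟨r0 - 1, by omega⟩
      calc ((Q : ℝ) ^ 4 * E) ^ (i : ℕ) * (Q * E * Z)
          ≤ ((Q : ℝ) ^ 4 * E) ^ t * ((Q : ℝ) ^ 4 * E * Z) := by
            have := pow_le_pow_right₀ hQE (show (i : ℕ) ≤ t by omega)
            gcongr
        _ = B := by rw [hB, ht, pow_succ]; ring
    · exact Nat.mul_le_mul_right n (by omega)
  obtain ⟨hWL, hWd⟩ := MultGAux.det_size hr M B hB1 (fun i l => (hsize i l).1) (r0 * n)
    (fun i l => (hsize i l).2)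
  obtain ⟨N, hN0, hNL, hNd⟩ := norm_polyI hF x1 κ Y hFΛ (hinj x1 κ Y hκ0 hFΛ) W hW (r0 ^ 2 * n)
    (by
      rw [← hWdef] at hWd
      refine hWd.trans (le_of_eq ?_)
      ring)
  have hlow := low N hN0 x1 κ hx1 hκ0 (K - r0) (hdvdW.trans hNd)
  refine hlow.trans (hNL.trans ?_)
  rw [← hWdef] at hWL
  have hfac : (n.factorial : ℝ) ≤ (n : ℝ) ^ n := by exact_mod_cast Nat.factorial_le_pow n
  have hWn : 0 ≤ L2 W := L2_nonneg _
  calc (n.factorial : ℝ) * (L2 W * ((Q : ℝ) ^ 3) ^ (r0 ^ 2 * n)) ^ n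
      ≤ (n : ℝ) ^ n * (((r0 : ℝ) ^ r0 * B ^ r0) * ((Q : ℝ) ^ 3) ^ (r0 ^ 2 * n)) ^ n := by gcongr
    _ = (n * (((r0 : ℝ) ^ r0 * B ^ r0) * ((Q : ℝ) ^ 3) ^ (r0 ^ 2 * n))) ^ n :=
        (mul_pow _ _ _).symm

end Pool.Agent.H52.AC
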