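import Pool.Agent.H52.AC.Defs

/-! # [AC-NUM] Numbers: the final inequalities

Throughout `X ≥ B1^C`, `B2^C ≤ X^(la+1)`, `C = 10^6 n^5 E`, `B1 ≥ 3000 n^4 E²`, `B2 ≥ 1`, `4 ≤ n ≤ E`,
`Z = B1^(129 n E la) * B2^(126 n E)`. To compare, raise to integer powers and use
`le_of_sq_le_sq`-type lemmas (`pow_le_pow_left₀`, `lt_of_pow_lt_pow_left₀`).
`num_low`: `(2 κ²/X)^k ≤ X^(2 n k)` (`κ² ≤ X^(2n)`, `2 ≤ X`), so
`h X^ea ≤ Z' X^(2nk)`, `Z' = B1^(173 n E la) B2^(168 n E)`. Eighth powers: `X^(16 n k) ≤ X^la`,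
`B1^(1384 n E la) ≤ X^la` (`1384 n E ≤ C`), `B2^(1344 n E) ≤ X^la` (its square is
`B2^(2688 n E) ≤ B2^C ≤ X^(la+1) ≤ X^(2 la)`), so `(Z' X^(2nk))^8 ≤ X^(3 la) < X^(4 la) ≤ X^(8 ea)`
(`8 (la/2 + 1) ≥ 4 la`, `X > 1`, `la ≥ 1`), so `h < 1`.
`num_zero`: let `r0 ≤ 19 n²`, `K = la / (16 n)`; `32 n (K - r0) ≥ la`, because
`16 n (K + 1) > la`, i.e. `16 n K > la - 16 n`, and `la / 2 ≥ 320 n^3 ≥ 16 n (19 n² + 1)`. The
right side is at most `B1^(3000 n^4 E la) * B2^(3000 n^4 E)`: the base `d1 (r0^r0 ..)` is at least `1`, so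
the exponent `d1` may be replaced by `n`; `d1 ≤ n ≤ B1`; `r0^r0 ≤ B1^(19 n²)` (`r0 ≤ 19 n² ≤ B1`);
`20 n la + 3 r0 d1 ≤ 21 n la ≤ B1 * 2^la ≤ B1^(1+la)` (`57 n^3 ≤ la`), `Q^4 ≤ B1`, so
`(Q^4 (20 n la + 3 r0 d1))^(r0²) ≤ B1^((2+la) 361 n^4)`; `Z^r0 ≤ B1^(2451 n^3 E la) B2^(2394 n^3 E)`;
`(Q^3)^(r0² d1) ≤ B1^(361 n^5)`. Sum of the exponents of `B1`, times `n`:
`n (1 + 19 n² + 722 n^4 + 361 n^5) + 361 n^5 la + 2451 n^4 E la ≤ 3000 n^4 E la`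
(`n (1 + 19n² + 722 n^4 + 361 n^5) ≤ 600 n^6 ≤ n^3 la`, `n ≤ E`). So
`X^la ≤ (X^(K-r0))^(32 n) ≤ B1^(96000 n^5 E la) B2^(96000 n^5 E)`; the square of the right side is
`B1^(192000 n^5 E la) B2^(192000 n^5 E)`, and `B1^(C la) ≤ X^la`, `(B2^(500000 n^5 E))^2 = B2^C ≤
X^(2 la)`, i.e. `B2^(500000 n^5 E) ≤ X^la`; so the square is `< X^(2 la)` (strict since
`B1 > 1` and `192000 < 10^6`), contradiction.
`num_nz`: `20 n + 1 ≤ B2`? It is enough that `20 n + 1 ≤ B1` and `Q2^20 ≤ B2`: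
`((20n+1) Q2^(3 d2 + 2) Z)^d2 ≤ (B1 B2^n Z)^n ≤ B1^(130 n² E la) B2^(127 n² E)`, whose square is
less than `X^la * B2^C ≤ |x2| * |x2|`. -/

namespace Pool.Agent.H52.AC

open Finset

private theorem b1_big_NUM {n E : ℕ} (hn : 4 ≤ n) (hnE : n ≤ E) {B1 : ℝ}
    (hB1 : 3000 * (n : ℝ) ^ 4 * (E : ℝ) ^ 2 ≤ B1) :
    (2 : ℝ) ≤ B1 ∧ 21 * (n : ℝ) ≤ B1 ∧ 19 * (n : ℝ) ^ 2 ≤ B1 := by
  have hnR : (4 : ℝ) ≤ n := by exact_mod_cast hn
  have hER : (4 : ℝ) ≤ E := by exact_mod_cast hn.trans hnE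
  have hE2 : (1 : ℝ) ≤ (E : ℝ) ^ 2 := one_le_pow₀ (by linarith)
  have hn1 : (1 : ℝ) ≤ (n : ℝ) := by linarith
  have h2 : (n : ℝ) ^ 2 ≤ (n : ℝ) ^ 4 := pow_le_pow_right₀ hn1 (by norm_num)
  have h1 : (n : ℝ) ≤ (n : ℝ) ^ 4 := le_self_pow₀ hn1 (by norm_num)
  have h4 : (n : ℝ) ^ 4 ≤ (n : ℝ) ^ 4 * (E : ℝ) ^ 2 := by
    have : (0 : ℝ) ≤ (n : ℝ) ^ 4 := by positivity
    nlinarith
  refine ⟨?_, ?_, ?_⟩ <;> nlinarith

/-- `B2^(half of C) ≤ X^la` -/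
private theorem b2_half_NUM {la C c : ℕ} (hla : 1 ≤ la) (hc : 2 * c ≤ C) {B2 X : ℝ}
    (hB2 : 1 ≤ B2) (hX : 1 ≤ X) (h : B2 ^ C ≤ X ^ (la + 1)) : B2 ^ c ≤ X ^ la := by
  have h1 : (B2 ^ c) ^ 2 ≤ (X ^ la) ^ 2 := by
    rw [← pow_mul, ← pow_mul]
    calc B2 ^ (c * 2) ≤ B2 ^ C := pow_le_pow_right₀ hB2 (by omega)
      _ ≤ X ^ (la + 1) := h
      _ ≤ X ^ (la * 2) := pow_le_pow_right₀ hX (by omega)
  exact (pow_le_pow_iff_left₀ (by positivity) (by positivity) (by norm_num)).1 h1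

theorem num_low {n la k E : ℕ} (hn : 4 ≤ n) (hnE : n ≤ E) (hla : 60 * n ≤ la)
    (hk : 16 * n * k ≤ la) {B1 B2 X κ h : ℝ} (hB1 : 3000 * (n : ℝ) ^ 4 * (E : ℝ) ^ 2 ≤ B1)
    (hB2 : 1 ≤ B2) (hX1 : B1 ^ (10 ^ 6 * n ^ 5 * E) ≤ X)
    (hX2 : B2 ^ (10 ^ 6 * n ^ 5 * E) ≤ X ^ (la + 1)) (hκ0 : 0 < κ) (hκ : κ ≤ X ^ n)
    (h0 : 0 ≤ h) (hh : h * (X / (2 * κ ^ 2)) ^ k * X ^ ea la ≤
      B1 ^ (173 * n * E * la) * B2 ^ (168 * n * E)) : h < 1 := by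
  obtain ⟨hB2', -, -⟩ := b1_big_NUM hn hnE hB1
  have hB11 : (1 : ℝ) ≤ B1 := by linarith
  have hn5 : n ≤ n ^ 5 := Nat.le_self_pow (by norm_num) n
  have hnE5 : n * E ≤ n ^ 5 * E := Nat.mul_le_mul_right E hn5
  have hCpos : 1 ≤ 10 ^ 6 * n ^ 5 * E := by
    have : 1 ≤ n ^ 5 * E := le_trans (Nat.one_le_iff_ne_zero.2 (by
      apply Nat.mul_ne_zero <;> omega)) hnE5
    nlinarith
  have hXB : B1 ≤ X := (le_self_pow₀ hB11 (by omega)).trans hX1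
  have hX2' : (2 : ℝ) ≤ X := hB2'.trans hXB
  have hX0 : (0 : ℝ) < X := by linarith
  by_contra hcon
  push Not at hcon
  obtain ⟨Z, hZ⟩ : ∃ Z : ℝ, Z = B1 ^ (173 * n * E * la) * B2 ^ (168 * n * E) := ⟨_, rfl⟩
  rw [← hZ] at hh
  have hZ0 : 0 < Z := by rw [hZ]; positivity
  have hκ2 : 0 < 2 * κ ^ 2 := by positivity
  have h1 : (X / (2 * κ ^ 2)) ^ k * X ^ ea la ≤ Z := by
    refine le_trans ?_ hh
    rw [mul_assoc]
    have : 0 ≤ (X / (2 * κ ^ 2)) ^ k * X ^ ea la := by positivity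
    nlinarith
  have h2 : 2 * κ ^ 2 ≤ X * X ^ (2 * n) := by
    have h3 : κ ^ 2 ≤ X ^ (2 * n) := by
      rw [mul_comm 2 n, pow_mul]
      exact pow_le_pow_left₀ hκ0.le hκ 2
    exact mul_le_mul hX2' h3 (by positivity) hX0.le
  have h3 : X ^ ea la ≤ Z * X ^ (2 * n * k) := by
    have h4 : X ^ k * X ^ ea la ≤ Z * (2 * κ ^ 2) ^ k := by
      rw [div_pow, div_mul_eq_mul_div, div_le_iff₀ (by positivity)] at h1
      exact h1
    have h5 : (2 * κ ^ 2) ^ k ≤ X ^ k * X ^ (2 * n * k) := by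
      rw [pow_mul X (2 * n) k, ← mul_pow]
      exact pow_le_pow_left₀ hκ2.le h2 k
    have h6 : X ^ k * X ^ ea la ≤ X ^ k * (Z * X ^ (2 * n * k)) := by
      refine h4.trans ((mul_le_mul_of_nonneg_left h5 hZ0.le).trans (le_of_eq ?_))
      ring
    exact le_of_mul_le_mul_left h6 (by positivity)
  have hB1X : B1 ^ (1384 * n * E * la) ≤ X ^ la := by
    rw [pow_mul]
    refine pow_le_pow_left₀ (by positivity) (le_trans (pow_le_pow_right₀ hB11 ?_) hX1) la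
    have e1 : 1384 * n * E = 1384 * (n * E) := by ring
    have e2 : 10 ^ 6 * n ^ 5 * E = 10 ^ 6 * (n ^ 5 * E) := by ring
    rw [e1, e2]
    omega
  have hB2X : B2 ^ (1344 * n * E) ≤ X ^ la := by
    refine b2_half_NUM (by omega) ?_ hB2 (by linarith) hX2
    have e1 : 1344 * n * E = 1344 * (n * E) := by ring
    have e2 : 10 ^ 6 * n ^ 5 * E = 10 ^ 6 * (n ^ 5 * E) := by ring
    rw [e1, e2]
    omega
  have h8 : (X ^ ea la) ^ 8 ≤ (Z * X ^ (2 * n * k)) ^ 8 :=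
    pow_le_pow_left₀ (by positivity) h3 8
  have h9 : (Z * X ^ (2 * n * k)) ^ 8 ≤ X ^ la * X ^ la * X ^ la := by
    rw [mul_pow, hZ, mul_pow, ← pow_mul, ← pow_mul, ← pow_mul]
    have e1 : 173 * n * E * la * 8 = 1384 * n * E * la := by ring
    have e2 : 168 * n * E * 8 = 1344 * n * E := by ring
    rw [e1, e2]
    have e3 : X ^ (2 * n * k * 8) ≤ X ^ la := by
      refine pow_le_pow_right₀ (by linarith) ?_
      have : 2 * n * k * 8 = 16 * n * k := by ring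
      omega
    exact mul_le_mul (mul_le_mul hB1X hB2X (by positivity) (by positivity)) e3 (by positivity)
      (by positivity)
  have h10 := h8.trans h9
  rw [← pow_mul, ← pow_add, ← pow_add] at h10
  have h11 : X ^ (la + la + la) < X ^ (ea la * 8) := by
    refine pow_lt_pow_right₀ (by linarith) ?_
    unfold ea
    omega
  linarith

theorem num_zero {n la d1 r0 E Q : ℕ} (hn : 4 ≤ n) (hd1 : 1 ≤ d1) (hd1n : d1 ≤ n) (hnE : n ≤ E)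
    (hr0 : 1 ≤ r0) (hr : r0 ≤ 19 * n ^ 2) (hla : 640 * n ^ 3 ≤ la) (hQ : 1 ≤ Q) {B1 B2 X : ℝ}
    (hB1 : 3000 * (n : ℝ) ^ 4 * (E : ℝ) ^ 2 ≤ B1) (hQB : (Q : ℝ) ^ 20 ≤ B1) (hB2 : 1 ≤ B2)
    (hX1 : B1 ^ (10 ^ 6 * n ^ 5 * E) ≤ X) (hX2 : B2 ^ (10 ^ 6 * n ^ 5 * E) ≤ X ^ (la + 1))
    (hh : X ^ (la / (16 * n) - r0) ≤ ((d1 : ℝ) * ((r0 : ℝ) ^ r0 *
      (((Q : ℝ) ^ 4 * (((20 * n * la : ℕ) : ℝ) + 3 * r0 * d1)) ^ r0 *
        (B1 ^ (129 * n * E * la) * B2 ^ (126 * n * E))) ^ r0 *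
          ((Q : ℝ) ^ 3) ^ (r0 ^ 2 * d1))) ^ d1) : False := by
  obtain ⟨hB2', hB21, hB19⟩ := b1_big_NUM hn hnE hB1
  have hB11 : (1 : ℝ) ≤ B1 := by linarith
  have hB10 : (0 : ℝ) ≤ B1 := by linarith
  have hQ1 : (1 : ℝ) ≤ (Q : ℝ) := by exact_mod_cast hQ
  have hnR : (4 : ℝ) ≤ n := by exact_mod_cast hn
  have hn3 : n ≤ n ^ 3 := Nat.le_self_pow (by norm_num) n
  have hla1 : 1 ≤ la := by omega
  have hEpos : 1 ≤ E := by omega
  have hnpos : 1 ≤ n := by omega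
  -- the powers of `n`
  have hW0 : 1 ≤ n ^ 5 * E := Nat.one_le_iff_ne_zero.2 (by
      apply Nat.mul_ne_zero
      · exact pow_ne_zero _ (by omega)
      · omega)
  have hXB : B1 ≤ X := by
    refine (le_self_pow₀ hB11 ?_).trans hX1
    intro h0
    have e2 : 10 ^ 6 * n ^ 5 * E = 10 ^ 6 * (n ^ 5 * E) := by ring
    rw [e2] at h0
    omega
  have hX1' : (1 : ℝ) ≤ X := hB11.trans hXB
  have hX0 : (0 : ℝ) < X := by linarith
  have hQ4 : (Q : ℝ) ^ 4 ≤ B1 := (pow_le_pow_right₀ hQ1 (by norm_num)).trans hQB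
  have hQ3 : (Q : ℝ) ^ 3 ≤ B1 := (pow_le_pow_right₀ hQ1 (by norm_num)).trans hQB
  have hr2 : r0 ^ 2 ≤ 361 * n ^ 4 := by
    calc r0 ^ 2 ≤ (19 * n ^ 2) ^ 2 := Nat.pow_le_pow_left hr 2
      _ = 361 * n ^ 4 := by ring
  -- the factors
  have f1 : (d1 : ℝ) ≤ B1 ^ 1 := by
    rw [pow_one]
    have : (d1 : ℝ) ≤ n := by exact_mod_cast hd1n
    linarith
  have f2 : (r0 : ℝ) ^ r0 ≤ B1 ^ (19 * n ^ 2) := by
    have h1 : (r0 : ℝ) ≤ B1 := by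
      have : (r0 : ℝ) ≤ 19 * (n : ℝ) ^ 2 := by exact_mod_cast hr
      linarith
    exact (pow_le_pow_left₀ (by positivity) h1 r0).trans (pow_le_pow_right₀ hB11 hr)
  have f3 : (Q : ℝ) ^ 4 * (((20 * n * la : ℕ) : ℝ) + 3 * r0 * d1) ≤ B1 ^ (2 + la) := by
    have h1 : (((20 * n * la : ℕ) : ℝ) + 3 * r0 * d1) ≤ 21 * n * la := by
      have h2 : 20 * n * la + 3 * r0 * d1 ≤ 21 * n * la := by
        have h3 : r0 * d1 ≤ 19 * n ^ 2 * n := Nat.mul_le_mul hr hd1n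
        have h4 : la ≤ n * la := Nat.le_mul_of_pos_left la (by omega)
        have h5 : 3 * r0 * d1 ≤ 57 * n ^ 3 := by
          calc 3 * r0 * d1 = 3 * (r0 * d1) := by ring
            _ ≤ 3 * (19 * n ^ 2 * n) := Nat.mul_le_mul_left 3 h3
            _ = 57 * n ^ 3 := by ring
        have h6 : 21 * n * la = 20 * n * la + n * la := by ring
        omega
      have h7 : ((20 * n * la + 3 * r0 * d1 : ℕ) : ℝ) ≤ ((21 * n * la : ℕ) : ℝ) := by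
        exact_mod_cast h2
      push_cast at h7 ⊢
      exact h7
    have h2 : (la : ℝ) ≤ B1 ^ la := by
      have h3 : (la : ℝ) ≤ 2 ^ la := by exact_mod_cast (Nat.lt_two_pow_self (n := la)).le
      exact h3.trans (pow_le_pow_left₀ (by norm_num) hB2' _)
    calc (Q : ℝ) ^ 4 * (((20 * n * la : ℕ) : ℝ) + 3 * r0 * d1) ≤ B1 * (21 * n * la) :=
          mul_le_mul hQ4 h1 (by positivity) hB10
      _ ≤ B1 * (B1 * B1 ^ la) := by
          refine mul_le_mul_of_nonneg_left ?_ hB10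
          exact mul_le_mul hB21 h2 (by positivity) hB10
      _ = B1 ^ (2 + la) := by ring
  obtain ⟨T, hT⟩ : ∃ T : ℝ, T = (Q : ℝ) ^ 4 * (((20 * n * la : ℕ) : ℝ) + 3 * r0 * d1) := ⟨_, rfl⟩
  rw [← hT] at hh f3
  have hT0 : 0 ≤ T := by rw [hT]; positivity
  obtain ⟨Z, hZ⟩ : ∃ Z : ℝ, Z = B1 ^ (129 * n * E * la) * B2 ^ (126 * n * E) := ⟨_, rfl⟩
  rw [← hZ] at hh
  have hZ1 : 1 ≤ Z := by
    rw [hZ]
    exact one_le_mul_of_one_le_of_one_le (one_le_pow₀ hB11) (one_le_pow₀ hB2)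
  have f4 : (T ^ r0 * Z) ^ r0 ≤ B1 ^ ((2 + la) * (361 * n ^ 4)) *
      (B1 ^ (2451 * n ^ 3 * E * la) * B2 ^ (2394 * n ^ 3 * E)) := by
    rw [mul_pow, ← pow_mul]
    refine mul_le_mul ?_ ?_ (by positivity) (by positivity)
    · calc T ^ (r0 * r0) ≤ (B1 ^ (2 + la)) ^ (r0 * r0) := pow_le_pow_left₀ hT0 f3 _
        _ = B1 ^ ((2 + la) * (r0 * r0)) := by rw [← pow_mul]
        _ ≤ B1 ^ ((2 + la) * (361 * n ^ 4)) := by
            refine pow_le_pow_right₀ hB11 (Nat.mul_le_mul_left _ ?_)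
            rw [← sq]
            exact hr2
    · calc Z ^ r0 ≤ Z ^ (19 * n ^ 2) := pow_le_pow_right₀ hZ1 hr
        _ = B1 ^ (2451 * n ^ 3 * E * la) * B2 ^ (2394 * n ^ 3 * E) := by
            rw [hZ, mul_pow, ← pow_mul, ← pow_mul]
            congr 2 <;> ring
  have f5 : ((Q : ℝ) ^ 3) ^ (r0 ^ 2 * d1) ≤ B1 ^ (361 * n ^ 5) := by
    refine (pow_le_pow_left₀ (by positivity) hQ3 _).trans (pow_le_pow_right₀ hB11 ?_)
    calc r0 ^ 2 * d1 ≤ (361 * n ^ 4) * n := Nat.mul_le_mul hr2 hd1n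
      _ = 361 * n ^ 5 := by ring
  obtain ⟨Y, hY⟩ : ∃ Y : ℝ, Y = (d1 : ℝ) * ((r0 : ℝ) ^ r0 * (T ^ r0 * Z) ^ r0 *
      ((Q : ℝ) ^ 3) ^ (r0 ^ 2 * d1)) := ⟨_, rfl⟩
  rw [← hY] at hh
  obtain ⟨e1, he1⟩ : ∃ e1 : ℕ, e1 = 1 + 19 * n ^ 2 + (2 + la) * (361 * n ^ 4) +
      2451 * n ^ 3 * E * la + 361 * n ^ 5 := ⟨_, rfl⟩
  have f6 : Y ≤ B1 ^ e1 * B2 ^ (2394 * n ^ 3 * E) := by
    calc Y ≤ B1 ^ 1 * (B1 ^ (19 * n ^ 2) * (B1 ^ ((2 + la) * (361 * n ^ 4)) *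
      (B1 ^ (2451 * n ^ 3 * E * la) * B2 ^ (2394 * n ^ 3 * E))) * B1 ^ (361 * n ^ 5)) := by
          rw [hY]
          refine mul_le_mul f1 (mul_le_mul (mul_le_mul f2 f4 (by positivity) (by positivity)) f5
            (by positivity) (by positivity)) (by positivity) (by positivity)
      _ = B1 ^ e1 * B2 ^ (2394 * n ^ 3 * E) := by
          rw [he1]
          simp only [pow_add B1]
          ring
  have hY0 : 0 ≤ Y := by rw [hY]; positivity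
  have f7 : Y ^ d1 ≤ B1 ^ (3000 * n ^ 4 * E * la) * B2 ^ (3000 * n ^ 4 * E) := by
    have h1 : (1 : ℝ) ≤ B1 ^ e1 * B2 ^ (2394 * n ^ 3 * E) :=
      one_le_mul_of_one_le_of_one_le (one_le_pow₀ hB11) (one_le_pow₀ hB2)
    calc Y ^ d1 ≤ (B1 ^ e1 * B2 ^ (2394 * n ^ 3 * E)) ^ d1 := pow_le_pow_left₀ hY0 f6 _
      _ ≤ (B1 ^ e1 * B2 ^ (2394 * n ^ 3 * E)) ^ n := pow_le_pow_right₀ h1 hd1n
      _ = B1 ^ (e1 * n) * B2 ^ (2394 * n ^ 3 * E * n) := by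
          rw [mul_pow, ← pow_mul, ← pow_mul]
      _ ≤ B1 ^ (3000 * n ^ 4 * E * la) * B2 ^ (3000 * n ^ 4 * E) := by
          refine mul_le_mul (pow_le_pow_right₀ hB11 ?_) (pow_le_pow_right₀ hB2 ?_)
            (by positivity) (by positivity)
          · have g1 : n ^ 5 * la ≤ n ^ 4 * E * la := by
              refine Nat.mul_le_mul_right la ?_
              rw [pow_succ]
              exact Nat.mul_le_mul_left _ hnE
            have g2 : n ^ 3 * la ≤ n ^ 4 * E * la := by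
              refine Nat.mul_le_mul_right la ?_
              calc n ^ 3 ≤ n ^ 4 := Nat.pow_le_pow_right hnpos (by norm_num)
                _ ≤ n ^ 4 * E := Nat.le_mul_of_pos_right _ hEpos
            have g3 : n ^ 3 * (640 * n ^ 3) ≤ n ^ 3 * la := Nat.mul_le_mul_left _ hla
            have g4 : n ^ 3 * (640 * n ^ 3) = 640 * n ^ 6 := by ring
            have g5 : 4 * n ^ 5 ≤ n ^ 6 := by
              rw [pow_succ n 5, mul_comm]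
              exact Nat.mul_le_mul_left _ hn
            have g6 : n ^ 3 ≤ n ^ 5 := Nat.pow_le_pow_right hnpos (by norm_num)
            have g7 : n ≤ n ^ 5 := Nat.le_self_pow (by norm_num) n
            have g8 : e1 * n = n + 19 * n ^ 3 + 722 * n ^ 5 + 361 * (n ^ 5 * la) +
                2451 * (n ^ 4 * E * la) + 361 * n ^ 6 := by
              rw [he1]; ring
            have g9 : 3000 * n ^ 4 * E * la = 3000 * (n ^ 4 * E * la) := by ring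
            rw [g8, g9]
            omega
          · have g1 : 2394 * n ^ 3 * E * n = 2394 * (n ^ 4 * E) := by ring
            have g2 : 3000 * n ^ 4 * E = 3000 * (n ^ 4 * E) := by ring
            rw [g1, g2]
            omega
  have f8 : la ≤ (la / (16 * n) - r0) * (32 * n) := by
    have h1 : la < 16 * n * (la / (16 * n) + 1) := by
      have := Nat.lt_mul_div_succ la (show 0 < 16 * n by omega)
      exact this
    obtain ⟨K, hK⟩ : ∃ K, K = la / (16 * n) := ⟨_, rfl⟩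
    rw [← hK] at h1 ⊢
    have h2 : n * r0 ≤ 19 * n ^ 3 := by
      calc n * r0 ≤ n * (19 * n ^ 2) := Nat.mul_le_mul_left n hr
        _ = 19 * n ^ 3 := by ring
    rw [Nat.sub_mul]
    have h3 : 16 * n * (K + 1) = 16 * (n * K) + 16 * n := by ring
    have h4 : K * (32 * n) = 32 * (n * K) := by ring
    have h5 : r0 * (32 * n) = 32 * (n * r0) := by ring
    rw [h3] at h1
    rw [h4, h5]
    omega
  have f9 : X ^ la ≤ B1 ^ (96000 * (n ^ 5 * E * la)) * B2 ^ (96000 * (n ^ 5 * E)) := by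
    calc X ^ la ≤ X ^ ((la / (16 * n) - r0) * (32 * n)) := pow_le_pow_right₀ hX1' f8
      _ = (X ^ (la / (16 * n) - r0)) ^ (32 * n) := by rw [pow_mul]
      _ ≤ (B1 ^ (3000 * n ^ 4 * E * la) * B2 ^ (3000 * n ^ 4 * E)) ^ (32 * n) :=
          pow_le_pow_left₀ (by positivity) (hh.trans f7) _
      _ = B1 ^ (96000 * (n ^ 5 * E * la)) * B2 ^ (96000 * (n ^ 5 * E)) := by
          rw [mul_pow, ← pow_mul, ← pow_mul]
          congr 2 <;> ring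
  have g1 : B2 ^ (192000 * (n ^ 5 * E)) ≤ X ^ la := by
    refine b2_half_NUM hla1 ?_ hB2 hX1' hX2
    have e2 : 10 ^ 6 * n ^ 5 * E = 10 ^ 6 * (n ^ 5 * E) := by ring
    rw [e2]
    omega
  have g2 : B1 ^ (1000000 * (n ^ 5 * E * la)) ≤ X ^ la := by
    have e2 : 1000000 * (n ^ 5 * E * la) = (10 ^ 6 * n ^ 5 * E) * la := by ring
    rw [e2, pow_mul]
    exact pow_le_pow_left₀ (by positivity) hX1 la
  have g3 : X ^ la * X ^ la ≤ B1 ^ (192000 * (n ^ 5 * E * la)) * X ^ la := by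
    calc X ^ la * X ^ la ≤ (B1 ^ (96000 * (n ^ 5 * E * la)) * B2 ^ (96000 * (n ^ 5 * E))) *
          (B1 ^ (96000 * (n ^ 5 * E * la)) * B2 ^ (96000 * (n ^ 5 * E))) :=
          mul_le_mul f9 f9 (by positivity) (by positivity)
      _ = B1 ^ (192000 * (n ^ 5 * E * la)) * B2 ^ (192000 * (n ^ 5 * E)) := by
          have e3 : 192000 * (n ^ 5 * E * la) = 96000 * (n ^ 5 * E * la) +
            96000 * (n ^ 5 * E * la) := by ring
          have e4 : 192000 * (n ^ 5 * E) = 96000 * (n ^ 5 * E) + 96000 * (n ^ 5 * E) := by ring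
          rw [e3, e4, pow_add B1, pow_add B2]
          ring
      _ ≤ B1 ^ (192000 * (n ^ 5 * E * la)) * X ^ la :=
          mul_le_mul_of_nonneg_left g1 (by positivity)
  have g4 : X ^ la ≤ B1 ^ (192000 * (n ^ 5 * E * la)) :=
    le_of_mul_le_mul_right g3 (by positivity)
  have g5 : B1 ^ (192000 * (n ^ 5 * E * la)) < B1 ^ (1000000 * (n ^ 5 * E * la)) := by
    refine pow_lt_pow_right₀ (by linarith) ?_
    have : 1 ≤ n ^ 5 * E * la := Nat.one_le_iff_ne_zero.2 (Nat.mul_ne_zero (by omega) (by omega))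
    omega
  linarith

theorem num_nz {n la d2 E Q : ℕ} (hn : 4 ≤ n) (hd2 : 4 ≤ d2) (hd2n : d2 ≤ n) (hnE : n ≤ E)
    (hla : 60 * n ≤ la) (hQ : 1 ≤ Q) {B1 B2 X X2 : ℝ}
    (hB1 : 3000 * (n : ℝ) ^ 4 * (E : ℝ) ^ 2 ≤ B1) (hQB : (Q : ℝ) ^ 20 ≤ B2)
    (hX1 : B1 ^ (10 ^ 6 * n ^ 5 * E) ≤ X) (hX2 : B2 ^ (10 ^ 6 * n ^ 5 * E) ≤ X2)
    (hXX : X ^ la ≤ X2) :
    ((((20 * n : ℕ) : ℝ) + 1) * (Q : ℝ) ^ (3 * d2 + 2) *
      (B1 ^ (129 * n * E * la) * B2 ^ (126 * n * E))) ^ d2 < X2 := by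
  obtain ⟨hB2', hB21, hB19⟩ := b1_big_NUM hn hnE hB1
  have hB11 : (1 : ℝ) ≤ B1 := by linarith
  have hB10 : (0 : ℝ) ≤ B1 := by linarith
  have hQ1 : (1 : ℝ) ≤ (Q : ℝ) := by exact_mod_cast hQ
  have hnR : (4 : ℝ) ≤ n := by exact_mod_cast hn
  have hB2 : (1 : ℝ) ≤ B2 := (one_le_pow₀ hQ1).trans hQB
  have hnpos : 1 ≤ n := by omega
  have hEpos : 1 ≤ E := by omega
  have hn5 : n ^ 2 ≤ n ^ 5 := Nat.pow_le_pow_right hnpos (by norm_num)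
  have hnE5 : n ^ 2 * E ≤ n ^ 5 * E := Nat.mul_le_mul_right E hn5
  have hW0 : 1 ≤ n ^ 2 * E := Nat.one_le_iff_ne_zero.2 (by
      apply Nat.mul_ne_zero
      · exact pow_ne_zero _ (by omega)
      · omega)
  have hnn : n ≤ n ^ 2 * E := by
    calc n ≤ n ^ 2 := Nat.le_self_pow (by norm_num) n
      _ ≤ n ^ 2 * E := Nat.le_mul_of_pos_right _ hEpos
  have hnn2 : n ^ 2 ≤ n ^ 2 * E := Nat.le_mul_of_pos_right _ hEpos
  obtain ⟨Z, hZ⟩ : ∃ Z : ℝ, Z = B1 ^ (129 * n * E * la) * B2 ^ (126 * n * E) := ⟨_, rfl⟩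
  have hZ1 : 1 ≤ Z := by
    rw [hZ]
    exact one_le_mul_of_one_le_of_one_le (one_le_pow₀ hB11) (one_le_pow₀ hB2)
  have hB2n : (1 : ℝ) ≤ B2 ^ n := one_le_pow₀ hB2
  rw [← hZ]
  have f1 : ((20 * n : ℕ) : ℝ) + 1 ≤ B1 := by
    push_cast
    linarith
  have f2 : (Q : ℝ) ^ (3 * d2 + 2) ≤ B2 ^ n := by
    calc (Q : ℝ) ^ (3 * d2 + 2) ≤ (Q : ℝ) ^ (20 * n) := pow_le_pow_right₀ hQ1 (by omega)
      _ = ((Q : ℝ) ^ 20) ^ n := by rw [pow_mul]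
      _ ≤ B2 ^ n := pow_le_pow_left₀ (by positivity) hQB n
  obtain ⟨G, hG⟩ : ∃ G : ℝ, G = (((20 * n : ℕ) : ℝ) + 1) * (Q : ℝ) ^ (3 * d2 + 2) * Z := ⟨_, rfl⟩
  rw [← hG]
  have f3 : G ≤ B1 * B2 ^ n * Z := by
    rw [hG]
    exact mul_le_mul_of_nonneg_right (mul_le_mul f1 f2 (by positivity) hB10) (by linarith)
  have hG0 : 0 ≤ G := by rw [hG]; positivity
  have hH1 : 1 ≤ B1 * B2 ^ n * Z := one_le_mul_of_one_le_of_one_le
    (one_le_mul_of_one_le_of_one_le hB11 hB2n) hZ1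
  have f4 : G ^ d2 ≤ B1 ^ (130 * (n ^ 2 * E * la)) * B2 ^ (127 * (n ^ 2 * E)) := by
    calc G ^ d2 ≤ (B1 * B2 ^ n * Z) ^ d2 := pow_le_pow_left₀ hG0 f3 _
      _ ≤ (B1 * B2 ^ n * Z) ^ n := pow_le_pow_right₀ hH1 hd2n
      _ = B1 ^ (n + 129 * (n ^ 2 * E * la)) * B2 ^ (n ^ 2 + 126 * (n ^ 2 * E)) := by
          rw [hZ, mul_pow, mul_pow, mul_pow, ← pow_mul, ← pow_mul, ← pow_mul, pow_add B1,
            pow_add B2]
          have e1 : 129 * n * E * la * n = 129 * (n ^ 2 * E * la) := by ring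
          have e2 : 126 * n * E * n = 126 * (n ^ 2 * E) := by ring
          have e3 : n * n = n ^ 2 := by ring
          rw [e1, e2, e3]
          ring
      _ ≤ B1 ^ (130 * (n ^ 2 * E * la)) * B2 ^ (127 * (n ^ 2 * E)) := by
          refine mul_le_mul (pow_le_pow_right₀ hB11 ?_) (pow_le_pow_right₀ hB2 ?_)
            (by positivity) (by positivity)
          · have : n ^ 2 * E ≤ n ^ 2 * E * la := Nat.le_mul_of_pos_right _ (by omega)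
            omega
          · omega
  have f5 : B1 ^ (260 * (n ^ 2 * E * la)) < X2 := by
    refine lt_of_lt_of_le ?_ hXX
    have h1 : B1 ^ ((10 ^ 6 * n ^ 5 * E) * la) ≤ X ^ la := by
      rw [pow_mul]
      exact pow_le_pow_left₀ (by positivity) hX1 la
    refine lt_of_lt_of_le (pow_lt_pow_right₀ (by linarith) ?_) h1
    have h2 : n ^ 2 * E * la ≤ n ^ 5 * E * la := Nat.mul_le_mul_right la hnE5
    have h3 : (10 ^ 6 * n ^ 5 * E) * la = 10 ^ 6 * (n ^ 5 * E * la) := by ring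
    have h4 : 1 ≤ n ^ 2 * E * la := Nat.one_le_iff_ne_zero.2
      (Nat.mul_ne_zero (by omega) (by omega))
    rw [h3]
    omega
  have f6 : B2 ^ (254 * (n ^ 2 * E)) ≤ X2 := by
    refine (pow_le_pow_right₀ hB2 ?_).trans hX2
    have h3 : 10 ^ 6 * n ^ 5 * E = 10 ^ 6 * (n ^ 5 * E) := by ring
    rw [h3]
    omega
  have hX20 : 0 < X2 := lt_of_lt_of_le (by positivity) f6
  have f7 : (G ^ d2) ^ 2 < X2 ^ 2 := by
    calc (G ^ d2) ^ 2 ≤ (B1 ^ (130 * (n ^ 2 * E * la)) * B2 ^ (127 * (n ^ 2 * E))) ^ 2 :=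
          pow_le_pow_left₀ (by positivity) f4 2
      _ = B1 ^ (260 * (n ^ 2 * E * la)) * B2 ^ (254 * (n ^ 2 * E)) := by
          rw [mul_pow, ← pow_mul, ← pow_mul]
          congr 2 <;> ring
      _ < X2 * X2 := mul_lt_mul f5 f6 (by positivity) hX20.le
      _ = X2 ^ 2 := by ring
  exact lt_of_pow_lt_pow_left₀ 2 hX20.le f7

end Pool.Agent.H52.AC
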