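import Pool.Agent.H52.AC.NPG
import Pool.Agent.H8.KF.NZ

/-! # [AC-NZG] A nonzero polynomial of small height does not vanish at a large point of the curve

`Pool.Agent.H8.KF.nz` with the irreducibility of the leading form replaced by injectivity. -/

namespace Pool.Agent.H52.AC

open Finset Polynomial Pool.Agent.H72.ES Pool.Agent.H8.KF

theorem nzI {n Q : ℕ} {f : ℤ[X]} {F : ℕ → ℕ → ℤ} (hF : Norml n Q f F)
    (hinj : ∀ (x1 κ : ℤ) (Y : PowerSeries ℤ), κ ≠ 0 → Lam (xs x1 κ) Y (toP n F) = 0 →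
      ∀ p : ℤ[X][X], p ≠ 0 → p.natDegree < n → Lam (xs x1 κ) Y p ≠ 0)
    (x y : ℤ) (hx : x ≠ 0) (h0 : ev n F x y = 0) (hκ : evy n F x y ≠ 0) (d : ℕ)
    (B : ℕ → ℕ → ℤ) (hB : ∀ p q, B p q ≠ 0 → p + q ≤ d ∧ q < n) (hB0 : ∃ p q, B p q ≠ 0) (Z : ℝ)
    (hZ : ∀ p q, |((B p q : ℤ) : ℝ)| ≤ Z)
    (hbig : (((d : ℝ) + 1) * (Q : ℝ) ^ (3 * n + 2) * Z) ^ n < |(x : ℝ)|) :
    ev d B x y ≠ 0 := by
  have hn := hF.hn
  have hQ := hF.hQ
  have hQ1 := one_le_QR hn hQ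
  have hZ0 : 0 ≤ Z := (abs_nonneg _).trans (hZ 0 0)
  intro hev
  obtain ⟨Y, hY0, hY⟩ := exists_local n F x y h0
  set κ : ℤ := evy n F x y ^ 2 with hκdef
  have hκ0 : κ ≠ 0 := pow_ne_zero 2 hκ
  change ev n (cst (PowerSeries ℤ) F) (xs x κ) Y = 0 at hY
  have hFΛ : Lam (xs x κ) Y (toP n F) = 0 := by
    rw [Lam_toP]
    exact hY
  obtain ⟨p0, q0, hpq⟩ := hB0
  have hW0 : toP d B ≠ 0 := by
    intro h
    have h1 := toP_coeff d B q0 p0
    rw [h, coeff_zero, coeff_zero, if_pos (hB p0 q0 hpq).1] at h1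
    exact hpq h1.symm
  have hWdeg : (toP d B).natDegree ≤ n - 1 := by
    rw [natDegree_le_iff_coeff_eq_zero]
    intro j hj
    ext i
    rw [toP_coeff, coeff_zero]
    split_ifs with h
    · by_contra hne
      have := (hB i j hne).2
      omega
    · rfl
  have hΛW : Lam (xs x κ) Y (toP d B) ≠ 0 :=
    hinj x κ Y hκ0 hFΛ (toP d B) hW0 (by omega)
  obtain ⟨N, hN, hNL, hdvd⟩ := norm_polyI hF x κ Y hFΛ (hinj x κ Y hκ0 hFΛ) (toP d B) hΛW (n - 1) hWdeg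
  have hX : (PowerSeries.X : PowerSeries ℤ) ∣ Lam (xs x κ) Y (toP d B) := by
    rw [PowerSeries.X_dvd_iff, Lam_toP, ev_map, cst_map, hY0]
    have h1 : PowerSeries.constantCoeff (xs x κ) = x := by simp [xs]
    rw [h1]
    have h2 : (cst ℤ B) = B := by
      funext i j
      simp [cst]
    rw [h2]
    exact hev
  have hlow := low N hN x κ hx hκ0 1 (by
    rw [pow_one]
    exact hX.trans hdvd)
  rw [pow_one] at hlow
  have hL2 : L2 (toP d B) ≤ (d + 1) * n * Z := by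
    have h1 := L2_toP_le d (n - 1) B Z hZ (fun i j hne' => by
      have := hB i j hne'; omega)
    have h2 : (((n - 1 : ℕ) : ℝ) + 1) = n := by
      rw [Nat.cast_sub (by omega)]; push_cast; ring
    rw [h2] at h1
    exact h1
  have hfac : (n.factorial : ℝ) ≤ (n : ℝ) ^ n := by exact_mod_cast Nat.factorial_le_pow n
  have hn2 := n_sq_leR hn hQ
  have hbase : (n : ℝ) * ((d + 1) * n * Z * ((Q : ℝ) ^ 3) ^ (n - 1)) ≤
      ((d : ℝ) + 1) * (Q : ℝ) ^ (3 * n + 2) * Z := by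
    have h1 : (n : ℝ) ^ 2 * ((Q : ℝ) ^ 3) ^ (n - 1) ≤ (Q : ℝ) ^ (3 * n + 2) := by
      calc (n : ℝ) ^ 2 * ((Q : ℝ) ^ 3) ^ (n - 1) ≤ (Q : ℝ) * ((Q : ℝ) ^ 3) ^ (n - 1) :=
            mul_le_mul_of_nonneg_right hn2 (by positivity)
        _ = (Q : ℝ) ^ (3 * (n - 1) + 1) := by rw [← pow_mul]; ring
        _ ≤ (Q : ℝ) ^ (3 * n + 2) := pow_le_pow_right₀ hQ1 (by omega)
    calc (n : ℝ) * ((d + 1) * n * Z * ((Q : ℝ) ^ 3) ^ (n - 1))
        = ((d : ℝ) + 1) * ((n : ℝ) ^ 2 * ((Q : ℝ) ^ 3) ^ (n - 1)) * Z := by ring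
      _ ≤ ((d : ℝ) + 1) * (Q : ℝ) ^ (3 * n + 2) * Z := by
          refine mul_le_mul_of_nonneg_right ?_ hZ0
          exact mul_le_mul_of_nonneg_left h1 (by positivity)
  have hfin : (n.factorial : ℝ) * (L2 (toP d B) * ((Q : ℝ) ^ 3) ^ (n - 1)) ^ n ≤
      (((d : ℝ) + 1) * (Q : ℝ) ^ (3 * n + 2) * Z) ^ n := by
    calc (n.factorial : ℝ) * (L2 (toP d B) * ((Q : ℝ) ^ 3) ^ (n - 1)) ^ n
        ≤ (n : ℝ) ^ n * ((d + 1) * n * Z * ((Q : ℝ) ^ 3) ^ (n - 1)) ^ n := by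
          refine mul_le_mul hfac ?_ (pow_nonneg (mul_nonneg (L2_nonneg _) (by positivity)) _)
            (by positivity)
          refine pow_le_pow_left₀ (mul_nonneg (L2_nonneg _) (by positivity)) ?_ _
          exact mul_le_mul_of_nonneg_right hL2 (by positivity)
      _ = ((n : ℝ) * ((d + 1) * n * Z * ((Q : ℝ) ^ 3) ^ (n - 1))) ^ n := by rw [← mul_pow]
      _ ≤ _ := pow_le_pow_left₀ (by positivity) hbase _
  linarith

end Pool.Agent.H52.AC
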