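import Pool.Agent.H52.AC.Defs

/-! # [AC-KBD] Size of the derivative `F_y` at a point of the curve

Proof. `|F_y(x,y)| ≤ ∑_(i+j ≤ n) |F i j| |x|^i j |y|^(j-1)`; each term with `j ≥ 1` is at most
`b n c^(j-1) |x|^(i+j-1) ≤ b n c^n |x|^(n-1)` (`|y| ≤ c |x|`, `c ≥ 1`, `|x| ≥ 1`), there are at most
`(n+1)^2` terms. -/

namespace Pool.Agent.H52.AC

open Finset Polynomial Pool.Agent.H72.ES

theorem evy_size {n b : ℕ} {F : ℕ → ℕ → ℤ} (hn : 1 ≤ n) (hF : ∀ i j, |F i j| ≤ (b : ℤ)) {x y : ℤ}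
    {c : ℝ} (hc : 1 ≤ c) (hx : x ≠ 0) (hy : |(y : ℝ)| ≤ c * |(x : ℝ)|) :
    |((evy n F x y : ℤ) : ℝ)| ≤ ((n : ℝ) + 1) ^ 2 * n * b * c ^ n * |(x : ℝ)| ^ (n - 1) := by
  have hx1 : (1 : ℝ) ≤ |(x : ℝ)| := by
    have : (1 : ℤ) ≤ |x| := Int.one_le_abs hx
    have h2 : ((1 : ℤ) : ℝ) ≤ ((|x| : ℤ) : ℝ) := by exact_mod_cast this
    push_cast at h2
    exact h2
  set K : ℝ := (n : ℝ) * b * c ^ n * |(x : ℝ)| ^ (n - 1) with hK
  have hK0 : 0 ≤ K := by positivity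
  have hterm : ∀ i ∈ range (n + 1), ∀ j ∈ range (n + 1 - i),
      |(F i j : ℝ) * (x : ℝ) ^ i * ((j : ℝ) * (y : ℝ) ^ (j - 1))| ≤ K := by
    intro i hi j hj
    rw [mem_range] at hi hj
    rcases Nat.eq_zero_or_pos j with h0 | h0
    · subst h0
      simpa using hK0
    · have hFb : |(F i j : ℝ)| ≤ b := by
        have := hF i j
        have h2 : ((|F i j| : ℤ) : ℝ) ≤ ((b : ℤ) : ℝ) := by exact_mod_cast this
        push_cast at h2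
        exact h2
      have hj1 : (j : ℝ) ≤ n := by exact_mod_cast (by omega : j ≤ n)
      rw [abs_mul, abs_mul, abs_mul, abs_pow, abs_pow, Nat.abs_cast]
      calc |(F i j : ℝ)| * |(x : ℝ)| ^ i * ((j : ℝ) * |(y : ℝ)| ^ (j - 1))
          ≤ b * |(x : ℝ)| ^ i * ((n : ℝ) * (c * |(x : ℝ)|) ^ (j - 1)) := by gcongr
        _ = (n : ℝ) * b * c ^ (j - 1) * |(x : ℝ)| ^ (i + (j - 1)) := by
            rw [mul_pow, pow_add]
            ring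
        _ ≤ (n : ℝ) * b * c ^ n * |(x : ℝ)| ^ (n - 1) := by
            have h3 : c ^ (j - 1) ≤ c ^ n := pow_le_pow_right₀ hc (by omega)
            have h4 : |(x : ℝ)| ^ (i + (j - 1)) ≤ |(x : ℝ)| ^ (n - 1) :=
              pow_le_pow_right₀ hx1 (by omega)
            gcongr
  have hcast : ((evy n F x y : ℤ) : ℝ) = ∑ i ∈ range (n + 1), ∑ j ∈ range (n + 1 - i),
      (F i j : ℝ) * (x : ℝ) ^ i * ((j : ℝ) * (y : ℝ) ^ (j - 1)) := by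
    unfold evy
    push_cast
    rfl
  rw [hcast]
  calc |∑ i ∈ range (n + 1), ∑ j ∈ range (n + 1 - i),
      (F i j : ℝ) * (x : ℝ) ^ i * ((j : ℝ) * (y : ℝ) ^ (j - 1))|
      ≤ ∑ i ∈ range (n + 1), |∑ j ∈ range (n + 1 - i),
      (F i j : ℝ) * (x : ℝ) ^ i * ((j : ℝ) * (y : ℝ) ^ (j - 1))| := abs_sum_le_sum_abs _ _
    _ ≤ ∑ i ∈ range (n + 1), ∑ j ∈ range (n + 1 - i),
      |(F i j : ℝ) * (x : ℝ) ^ i * ((j : ℝ) * (y : ℝ) ^ (j - 1))| :=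
        sum_le_sum fun i _ => abs_sum_le_sum_abs _ _
    _ ≤ ∑ i ∈ range (n + 1), ∑ j ∈ range (n + 1 - i), K :=
        sum_le_sum fun i hi => sum_le_sum fun j hj => hterm i hi j hj
    _ ≤ ∑ i ∈ range (n + 1), ((n : ℝ) + 1) * K := by
        refine sum_le_sum fun i hi => ?_
        rw [sum_const, card_range, nsmul_eq_mul]
        gcongr
        have : n + 1 - i ≤ n + 1 := by omega
        exact_mod_cast this
    _ = ((n : ℝ) + 1) ^ 2 * n * b * c ^ n * |(x : ℝ)| ^ (n - 1) := by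
        rw [sum_const, card_range, nsmul_eq_mul, hK]
        push_cast
        ring

theorem evy_pow {n b : ℕ} {F : ℕ → ℕ → ℤ} (hn : 1 ≤ n) (hF : ∀ i j, |F i j| ≤ (b : ℤ)) {x y : ℤ}
    {c : ℝ} (hc : 1 ≤ c) (hy : |(y : ℝ)| ≤ c * |(x : ℝ)|) (hx : x ≠ 0)
    (hbig : ((n : ℝ) + 1) ^ 2 * n * b * c ^ n ≤ |(x : ℝ)|) :
    |((evy n F x y : ℤ) : ℝ)| ≤ |(x : ℝ)| ^ n := by
  refine (evy_size hn hF hc hx hy).trans ?_
  calc ((n : ℝ) + 1) ^ 2 * n * b * c ^ n * |(x : ℝ)| ^ (n - 1)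
      ≤ |(x : ℝ)| * |(x : ℝ)| ^ (n - 1) := by gcongr
    _ = |(x : ℝ)| ^ n := by
        rw [← pow_succ']
        congr 1
        omega

end Pool.Agent.H52.AC
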