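import Pool.Agent.H52.AC.FI
import Pool.Agent.H52.AC.KBD

/-! # [AC-PTF] The constants of a curve, and the facts about a point above the threshold

`cA n = 20 n² * (10^6 n^5 n!)`, `Bq n b = b^(20 n²)`, `Qq n b = b^n`.
Proof. `Bq_fac`: `3000 n^4 (n!)^2 ≤ 2^(20 n²) ≤ b^(20 n²)`: `n! ≤ n^n ≤ 2^(n²)` (`n ≤ 2^n`),
`n^4 ≤ 2^(4n)`, `3000 ≤ 2^12`, `12 + 4 n + 2 n² ≤ 20 n²`.
`Bq_qR`: `2 q R ≤ 2 b² ≤ b³ ≤ b^(20 n²)`. `Bq_Q`: `(b^n)^20 = b^(20 n) ≤ b^(20 n²)`.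
`norml_of`: the fields: `hn = d4`, `2^d ≤ b^d ≤ b^n`, `lead_eq := rfl`, `top`, `|F i j| ≤ b ≤ b^n`.
`cA_big`: `Bq^(10^6 n^5 n!) = b^(cA n)`.
`pt_facts`: let `X = |x| ≥ b^(cA n)`. (1) `‖T‖^e q^e |x| = 1`, so `‖T‖^e |x| ≤ 1` (`q ≥ 1`); if
`R ‖T‖ > 1/2` then `1 < (2 R ‖T‖)^e ≤ (2b)^e ‖T‖^e`, so `|x| < (2 b)^e ≤ b^(2 e)`, `e ≤ d! ≤ n!`, a
contradiction. (2) `F_y(x,y) ≠ 0`: `evy_ne_zero` with `C.bez`, `b + 2 ≤ |x|`. (3) `‖evz T (x i)‖ ≤ 2 R ≤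
2 b` (`evz_le` with `C = R`), so `|y| ≤ 2 b |x|`, and `evy_pow` with `c = 2 b`:
`(d+1)^2 d b (2b)^d ≤ b^(cA n)` (`(d+1)² d ≤ 2^(3 d + 2)`). So `|F_y| ≤ |x|^d ≤ |x|^n`.
(4) `4 (2R)^e ≤ |x|`, `x ≠ 0`. -/

namespace Pool.Agent.H52.AC

open Finset Polynomial Pool.Agent.H72.ES Pool.Agent.H87.SA2 Pool.Agent.H8.AW

/-- the threshold exponent -/
def cA (n : ℕ) : ℕ := 20 * n ^ 2 * (10 ^ 6 * n ^ 5 * n.factorial)

/-- the window exponent -/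
def wA (n : ℕ) : ℕ := 640 * n ^ 3

/-- the basic constant of a curve -/
noncomputable def Bq (n b : ℕ) : ℝ := (b : ℝ) ^ (20 * n ^ 2)

theorem Bq_fac {n b : ℕ} (hn : 4 ≤ n) (hb : 2 ≤ b) :
    3000 * (n : ℝ) ^ 4 * ((n.factorial : ℕ) : ℝ) ^ 2 ≤ Bq n b := by
  have h1 : n ≤ 2 ^ n := Nat.lt_two_pow_self.le
  have h2 : n.factorial ≤ n ^ n := Nat.factorial_le_pow n
  have h3 : n.factorial ≤ 2 ^ (n * n) := h2.trans (by
    rw [pow_mul]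
    exact Nat.pow_le_pow_left h1 n)
  have h4 : 3000 * n ^ 4 * n.factorial ^ 2 ≤ b ^ (20 * n ^ 2) := by
    calc 3000 * n ^ 4 * n.factorial ^ 2 ≤ 2 ^ 12 * (2 ^ n) ^ 4 * (2 ^ (n * n)) ^ 2 := by
          gcongr
          norm_num
      _ = 2 ^ (12 + n * 4 + n * n * 2) := by
          rw [← pow_mul, ← pow_mul, ← pow_add, ← pow_add]
      _ ≤ 2 ^ (20 * n ^ 2) := by
          apply Nat.pow_le_pow_right (by norm_num)
          nlinarith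
      _ ≤ b ^ (20 * n ^ 2) := Nat.pow_le_pow_left hb _
  unfold Bq
  exact_mod_cast h4

theorem Bq_qR {n b q : ℕ} {R : ℝ} (hn : 4 ≤ n) (hb : 2 ≤ b) (hq : q ≤ b) (hR0 : 0 ≤ R)
    (hR : R ≤ b) : 2 * (q : ℝ) * R ≤ Bq n b := by
  have hb' : (2 : ℝ) ≤ b := by exact_mod_cast hb
  have hq' : (q : ℝ) ≤ b := by exact_mod_cast hq
  unfold Bq
  calc 2 * (q : ℝ) * R ≤ b * b * b := by gcongr
    _ = (b : ℝ) ^ 3 := by ring
    _ ≤ (b : ℝ) ^ (20 * n ^ 2) := by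
        apply pow_le_pow_right₀ (by linarith)
        nlinarith

theorem Bq_Q {n b : ℕ} (hn : 4 ≤ n) (hb : 2 ≤ b) : (((b ^ n : ℕ) : ℝ)) ^ 20 ≤ Bq n b := by
  have hb' : (2 : ℝ) ≤ b := by exact_mod_cast hb
  unfold Bq
  rw [Nat.cast_pow, ← pow_mul]
  apply pow_le_pow_right₀ (by linarith)
  nlinarith

theorem Bq_one {n b : ℕ} (hb : 2 ≤ b) : 1 ≤ Bq n b := by
  have hb' : (2 : ℝ) ≤ b := by exact_mod_cast hb
  exact one_le_pow₀ (by linarith)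

theorem cA_big (n b : ℕ) : Bq n b ^ (10 ^ 6 * n ^ 5 * n.factorial) = (b : ℝ) ^ cA n := by
  unfold Bq cA
  rw [← pow_mul]

private theorem ptf_cA {n : ℕ} (hn : 4 ≤ n) : 10 ^ 6 * n ≤ cA n ∧ 10 ^ 6 * n.factorial ≤ cA n := by
  have hf : 1 ≤ n.factorial := Nat.factorial_pos n
  have h1 : 1 ≤ n ^ 5 := Nat.one_le_pow _ _ (by omega)
  have h2 : 1 ≤ 20 * n ^ 2 := by nlinarith
  have h3 : n ≤ n ^ 5 := Nat.le_self_pow (by norm_num) n
  unfold cA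
  constructor
  · calc 10 ^ 6 * n = 1 * (10 ^ 6 * n * 1) := by ring
      _ ≤ 20 * n ^ 2 * (10 ^ 6 * n ^ 5 * n.factorial) := by gcongr
  · calc 10 ^ 6 * n.factorial = 1 * (10 ^ 6 * 1 * n.factorial) := by ring
      _ ≤ 20 * n ^ 2 * (10 ^ 6 * n ^ 5 * n.factorial) := by gcongr

theorem norml_of {k : Type} [Field k] {n d b : ℕ} {F : ℕ → ℕ → ℤ} (C : CrvA k n d b F) :
    Norml d (b ^ n) (lead d F) F := by
  have hb := C.b2
  have hdn := C.dn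
  have h4 := C.d4
  exact
    { hn := C.d4
      hQ := (Nat.pow_le_pow_left hb d).trans (Nat.pow_le_pow_right (by omega) hdn)
      lead_eq := rfl
      top := C.lead
      bound := fun i j _ => (C.le i j).trans (by
        have h1 : b ≤ b ^ n := Nat.le_self_pow (by omega) b
        exact_mod_cast h1) }

theorem pt_facts {k : Type} [Field k] {n d b : ℕ} {F : ℕ → ℕ → ℤ} (C : CrvA k n d b F)
    {x y : ℤ} {T : ℂ} {i : Fin d} (h : ev d F x y = 0)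
    (hT : ((C.pd.q : ℂ) * T) ^ C.pd.e * (x : ℂ) = 1)
    (hi : evz T (C.pd.x i) = (y : ℂ) / (x : ℂ)) (hb : (b : ℝ) ^ cA n ≤ |(x : ℝ)|) :
    C.pd.R * ‖T‖ ≤ 1 / 2 ∧ evy d F x y ≠ 0 ∧
      |((evy d F x y : ℤ) : ℝ)| ≤ |(x : ℝ)| ^ n ∧ 4 * (2 * C.pd.R) ^ C.pd.e ≤ |(x : ℝ)| ∧
      x ≠ 0 := by
  have hb2 := C.b2
  have hd4 := C.d4
  have hdn := C.dn
  have hn4 : 4 ≤ n := hd4.trans hdn
  have hbR : (2 : ℝ) ≤ b := by exact_mod_cast hb2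
  have hb1 : (1 : ℝ) ≤ b := by linarith
  have hR2 := C.pd.R_ge
  have hRb := C.R_le
  have hR0 : 0 < C.pd.R := by linarith
  have hq1 : (1 : ℝ) ≤ C.pd.q := by exact_mod_cast C.pd.q_pos
  have he1 := C.pd.e_pos
  obtain ⟨hc1, hc2⟩ := ptf_cA hn4
  have hen : C.pd.e ≤ n.factorial := C.e_le.trans (Nat.factorial_le hdn)
  have hfac : 1 ≤ n.factorial := Nat.factorial_pos n
  -- (4)
  have h4 : 4 * (2 * C.pd.R) ^ C.pd.e ≤ |(x : ℝ)| := by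
    refine le_trans ?_ hb
    calc 4 * (2 * C.pd.R) ^ C.pd.e ≤ (b * b) * (b * b) ^ C.pd.e := by
          have h5 : (4 : ℝ) ≤ b * b := by nlinarith
          gcongr
      _ = (b : ℝ) ^ (2 + 2 * C.pd.e) := by
          rw [pow_add, pow_mul, pow_two]
      _ ≤ (b : ℝ) ^ cA n := by
          apply pow_le_pow_right₀ hb1
          omega
  have hxpos : 0 < |(x : ℝ)| := by
    refine lt_of_lt_of_le ?_ h4
    positivity
  have hx0 : x ≠ 0 := by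
    intro h0
    rw [h0, Int.cast_zero, abs_zero] at hxpos
    exact lt_irrefl _ hxpos
  have hx1 : 1 ≤ |(x : ℝ)| := by
    refine le_trans ?_ h4
    have : (1 : ℝ) ≤ (2 * C.pd.R) ^ C.pd.e := one_le_pow₀ (by linarith)
    linarith
  -- (1)
  have hnorm : ((C.pd.q : ℝ) * ‖T‖) ^ C.pd.e * |(x : ℝ)| = 1 := by
    have h5 := congrArg norm hT
    rw [norm_mul, norm_pow, norm_mul, norm_one, Complex.norm_natCast, Complex.norm_intCast] at h5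
    exact h5
  have h1 : C.pd.R * ‖T‖ ≤ 1 / 2 := by
    by_contra hcon
    push Not at hcon
    have h5 : 1 < (2 * C.pd.R * ‖T‖) ^ C.pd.e := one_lt_pow₀ (by linarith) (by omega)
    have h6 : (2 * C.pd.R * ‖T‖) ^ C.pd.e ≤
        (2 * C.pd.R) ^ C.pd.e * ((C.pd.q : ℝ) * ‖T‖) ^ C.pd.e := by
      rw [← mul_pow]
      apply pow_le_pow_left₀ (by positivity)
      have h7 : ‖T‖ ≤ (C.pd.q : ℝ) * ‖T‖ := le_mul_of_one_le_left (norm_nonneg _) hq1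
      exact mul_le_mul_of_nonneg_left h7 (by positivity)
    have h8 : (2 * C.pd.R) ^ C.pd.e * ((C.pd.q : ℝ) * ‖T‖) ^ C.pd.e ≤ 1 := by
      rw [← hnorm, mul_comm]
      apply mul_le_mul_of_nonneg_left _ (by positivity)
      have : 0 ≤ (2 * C.pd.R) ^ C.pd.e := by positivity
      linarith
    linarith
  refine ⟨h1, ?_, ?_, h4, hx0⟩
  · obtain ⟨u, v, c, hc, hbez, _, hle⟩ := C.bez
    refine evy_ne_zero u v hc hbez hle h ?_
    have h5 : (b : ℝ) + 2 ≤ |(x : ℝ)| := by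
      refine le_trans ?_ hb
      calc (b : ℝ) + 2 ≤ (b : ℝ) ^ 2 := by nlinarith
        _ ≤ (b : ℝ) ^ cA n := pow_le_pow_right₀ hb1 (by omega)
    exact_mod_cast h5
  · have h5 : ‖evz T (C.pd.x i)‖ ≤ 2 * C.pd.R := by
      refine evz_le hR0.le hR0.le h1 fun m => ?_
      rw [mul_comm, ← pow_succ]
      exact C.pd.growth i m
    rw [hi, norm_div, Complex.norm_intCast, Complex.norm_intCast, div_le_iff₀ hxpos] at h5
    have h6 : |(y : ℝ)| ≤ (2 * b) * |(x : ℝ)| := h5.trans (by gcongr)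
    have h7 : ((d : ℝ) + 1) ^ 2 * d * b * (2 * b) ^ d ≤ |(x : ℝ)| := by
      refine le_trans ?_ hb
      have h8 : d + 1 ≤ 2 ^ d := Nat.lt_two_pow_self
      have h9 : (d : ℝ) + 1 ≤ (b : ℝ) ^ d := by
        have h10 : ((d : ℝ) + 1) ≤ 2 ^ d := by exact_mod_cast h8
        exact h10.trans (pow_le_pow_left₀ (by norm_num) hbR d)
      have h10 : (d : ℝ) ≤ (b : ℝ) ^ d := by linarith
      calc ((d : ℝ) + 1) ^ 2 * d * b * (2 * b) ^ d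
          ≤ ((b : ℝ) ^ d) ^ 2 * (b : ℝ) ^ d * b * (b * b) ^ d := by gcongr
        _ = (b : ℝ) ^ (5 * d + 1) := by
            rw [← pow_two, ← pow_mul, ← pow_mul, ← pow_add, ← pow_succ, ← pow_add]
            congr 1
            ring
        _ ≤ (b : ℝ) ^ cA n := pow_le_pow_right₀ hb1 (by omega)
    have h8 := evy_pow (n := d) (b := b) (F := F) (by omega) C.le (by linarith) h6 hx0 h7
    exact h8.trans (pow_le_pow_right₀ hx1 hdn)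

end Pool.Agent.H52.AC
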