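import Pool.Agent.H52.AC.Defs

/-! # [AC-CNT] The number of conditions and of unknowns

Proof. `cells_card`: the number of `(K, L)` with `K + la L < TA`, `K < TA`, `L ≤ 40 n`, is
`∑_(L ≤ 40n) (TA - la L)` (for each `L` the `K < TA - la L`), and
`TA - la L ≤ 40 n la + 20 n + ea la - la L`, all terms `≥ 0` as `40 n la ≤ TA`; the sum is
`(40n+1) (TA - 20 n la) = (40 n + 1) (20 n la + 20 n + ea la) ≤ (40 n + 1) (20 n + 1) la`, as
`20 n + ea la ≤ la` (`ea la = la/2 + 1`, `la ≥ 60 n`, `n ≥ 4`). (Induction on the number of `L`, or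
`Finset.sum_range_id_mul_two`.)
`count`: `3 * (4 P cells) ≤ 4 d1 d2 (40n+1)(20n+1) la`, and
`4 (40 n + 1) (20 n + 1) la ≤ 9 (20 n la - n) (19 n)`: the left side is
`(3200 n² + 240 n + 4) la ≤ 3261 n² la` (`240 n + 4 ≤ 61 n²` for `n ≥ 4`), the right side is
`171 n² (20 la - 1) = 3420 n² la - 171 n²`, and `159 la ≥ 171` as `la ≥ 60 n`. -/

namespace Pool.Agent.H52.AC

open Finset

/-- the cells -/
def cells (n la : ℕ) : Finset (ℕ × ℕ) :=
  ((range (TA n la)) ×ˢ (range (40 * n + 1))).filter fun c => c.1 + la * c.2 < TA n la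

theorem TA_le {n la : ℕ} (hn : 4 ≤ n) (hla : 60 * n ≤ la) : TA n la ≤ 41 * n * la := by
  unfold TA ea
  have h1 : 20 * n + (la / 2 + 1) ≤ la := by omega
  have h2 : la ≤ n * la := Nat.le_mul_of_pos_left la (by omega)
  nlinarith

theorem mem_cells {n la K L : ℕ} (hn : 4 ≤ n) (hla : 60 * n ≤ la)
    (h : K + la * L < TA n la) : (K, L) ∈ cells n la := by
  unfold cells
  rw [Finset.mem_filter, Finset.mem_product, Finset.mem_range, Finset.mem_range]
  refine ⟨⟨by dsimp only; omega, ?_⟩, h⟩
  dsimp only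
  by_contra hcon
  push Not at hcon
  have h1 : 20 * n + (la / 2 + 1) < la := by omega
  have h2 : la * (40 * n + 1) ≤ la * L := Nat.mul_le_mul_left la hcon
  have h3 : TA n la < la * (40 * n + 1) := by
    unfold TA ea
    nlinarith
  omega

theorem cells_card {n la : ℕ} (hn : 4 ≤ n) (hla : 60 * n ≤ la) :
    (cells n la).card ≤ (40 * n + 1) * (20 * n + 1) * la := by
  have h1 : (cells n la).card ≤
      ((range (40 * n + 1)).sigma (fun L => range (TA n la - la * L))).card := by
    refine Finset.card_le_card_of_injOn (fun c => (⟨c.2, c.1⟩ : Sigma fun _ : ℕ => ℕ)) ?_ ?_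
    · intro c hc
      have hc' : c ∈ cells n la := hc
      unfold cells at hc'
      rw [Finset.mem_filter, Finset.mem_product, Finset.mem_range, Finset.mem_range] at hc'
      have h2 := hc'.2
      have h3 := hc'.1.2
      simp only [Finset.coe_sigma, Set.mem_sigma_iff, Finset.coe_range, Set.mem_Iio]
      exact ⟨h3, by omega⟩
    · intro c _ c' _ h
      have h2 : c.2 = c'.2 := congrArg Sigma.fst h
      have h3 : c.1 = c'.1 := by
        simp only [Sigma.mk.injEq, h2, heq_eq_eq, true_and] at h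
        exact h
      exact Prod.ext h3 h2
  rw [Finset.card_sigma] at h1
  simp only [Finset.card_range] at h1
  have h2 : ∑ L ∈ range (40 * n + 1), (TA n la - la * L) + la * ∑ L ∈ range (40 * n + 1), L =
      (40 * n + 1) * TA n la := by
    rw [Finset.mul_sum, ← Finset.sum_add_distrib]
    have h3 : ∀ L ∈ range (40 * n + 1), TA n la - la * L + la * L = TA n la := by
      intro L hL
      rw [Finset.mem_range] at hL
      apply Nat.sub_add_cancel
      have h4 : la * L ≤ la * (40 * n) := Nat.mul_le_mul_left la (by omega)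
      have h5 : la * (40 * n) = 40 * n * la := by ring
      unfold TA ea
      omega
    rw [Finset.sum_congr rfl h3, Finset.sum_const, Finset.card_range, smul_eq_mul]
  have h3 : (∑ L ∈ range (40 * n + 1), L) = (40 * n + 1) * (20 * n) := by
    have h4 := Finset.sum_range_id_mul_two (40 * n + 1)
    rw [Nat.add_sub_cancel] at h4
    have h5 : (40 * n + 1) * (40 * n) = ((40 * n + 1) * (20 * n)) * 2 := by ring
    omega
  rw [h3] at h2
  have h4 : 20 * n + ea la ≤ la := by unfold ea; omega
  have h5 : (40 * n + 1) * TA n la = la * ((40 * n + 1) * (20 * n)) +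
      (40 * n + 1) * (20 * n * la + (20 * n + ea la)) := by
    unfold TA
    ring
  have h6 : (40 * n + 1) * (20 * n * la + (20 * n + ea la)) ≤
      (40 * n + 1) * (20 * n + 1) * la := by
    have h7 : 20 * n * la + (20 * n + ea la) ≤ (20 * n + 1) * la := by nlinarith
    calc _ ≤ (40 * n + 1) * ((20 * n + 1) * la) := Nat.mul_le_mul_left _ h7
      _ = _ := by ring
  omega

theorem count {n d1 d2 la P : ℕ} (hn : 4 ≤ n) (hla : 60 * n ≤ la) (hP : 3 * P ≤ d1 * d2) :
    4 * (P * (cells n la).card) ≤ 3 * ((20 * n * la - n) * d1 * ((19 * n) * d2)) := by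
  have h1 := cells_card hn hla
  have h2 : 4 * ((40 * n + 1) * (20 * n + 1) * la) ≤ 9 * ((20 * n * la - n) * (19 * n)) := by
    obtain ⟨Y, hY⟩ : ∃ Y, 20 * n * la = Y + n := by
      have : n ≤ 20 * n * la := by nlinarith
      exact ⟨20 * n * la - n, by omega⟩
    rw [hY, Nat.add_sub_cancel]
    have h3 : 9 * ((Y + n) * (19 * n)) = 171 * n * (20 * n * la) := by rw [hY]; ring
    have h4 : 4 * ((40 * n + 1) * (20 * n + 1) * la) + 171 * n * n ≤ 171 * n * (20 * n * la) := by
      have h5 : 240 * n + 4 ≤ 61 * n * n := by nlinarith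
      have h6 : (240 * n + 4) * la ≤ 61 * n * n * la := Nat.mul_le_mul_right la h5
      have h7 : 171 * (n * n) ≤ (n * n) * (159 * la) := by
        have : 171 ≤ 159 * la := by omega
        nlinarith
      nlinarith
    have h5 : 9 * ((Y + n) * (19 * n)) = 9 * (Y * (19 * n)) + 171 * n * n := by ring
    omega
  calc 4 * (P * (cells n la).card) ≤ 4 * (P * ((40 * n + 1) * (20 * n + 1) * la)) := by gcongr
    _ = P * (4 * ((40 * n + 1) * (20 * n + 1) * la)) := by ring
    _ ≤ P * (9 * ((20 * n * la - n) * (19 * n))) := Nat.mul_le_mul_left _ h2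
    _ = 3 * (3 * P) * ((20 * n * la - n) * (19 * n)) := by ring
    _ ≤ 3 * (d1 * d2) * ((20 * n * la - n) * (19 * n)) := by gcongr
    _ = 3 * ((20 * n * la - n) * d1 * ((19 * n) * d2)) := by ring

end Pool.Agent.H52.AC
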