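import Pool.Agent.H52.AC.EVH

/-! # [AC-SPL] The values of the branches are the roots of `f(t, Z)`

Let `r = ‖T‖`, `R r < 1`. All series are in the subring `cvz r`, and `evH` is a ring homomorphism with
value `evz T` (`Pool/Agent/H52/AC/EVH.lean`).
`split_at`: as `tay_split` in `Pool/Agent/H87/SA2/YR.lean` (with `yr_comp`, `yr_mapsplit`; copy them):
`pd.split` is an identity over `cvz r` (the map to `PowerSeries ℂ` is injective:
`Polynomial.map_injective _ Subtype.val_injective`), apply `evH`: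
`evz T ((C q * X)^e) = (q T)^e`. The series `pd.x i` are in `cvz r` by `gr_of_le` with `C = R`
(`‖coeff m‖ ≤ R^(m+1) = R R^m`).
`evz_uu`: `uu q e w D a b = ((C q * X)^e)^(D-a-b) * w^b` in `cvz r`; apply `evH` (`map_mul`, `map_pow`). -/

namespace Pool.Agent.H52.AC

open Finset Polynomial Pool.Agent.H87.SA2

private theorem spl_comp {A B : Type*} [CommRing A] [CommRing B] (φ : A →+* B) (t : A) :
    φ.comp (eval₂RingHom (Int.castRingHom A) t) = eval₂RingHom (Int.castRingHom B) (φ t) := by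
  refine Polynomial.ringHom_ext' ?_ ?_
  · exact RingHom.ext_int _ _
  · rw [RingHom.comp_apply, coe_eval₂RingHom, coe_eval₂RingHom, eval₂_X, eval₂_X]

private theorem spl_mapsplit {f : ℤ[X][X]} {d : ℕ} {A B : Type*} [CommRing A] [CommRing B]
    (φ : A →+* B) (t : A) (x : Fin d → A)
    (hs : f.map (eval₂RingHom (Int.castRingHom A) t) = ∏ i, (X - C (x i))) :
    f.map (eval₂RingHom (Int.castRingHom B) (φ t)) = ∏ i, (X - C (φ (x i))) := by
  have h1 := congrArg (Polynomial.map φ) hs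
  rw [Polynomial.map_map, spl_comp, Polynomial.map_prod] at h1
  rw [h1]
  refine prod_congr rfl fun i _ => ?_
  rw [Polynomial.map_sub, Polynomial.map_X, Polynomial.map_C]


theorem split_at {f : ℤ[X][X]} {d : ℕ} (pd : PData f d) {T : ℂ} (hT : pd.R * ‖T‖ < 1) :
    f.map (eval₂RingHom (Int.castRingHom ℂ) (((pd.q : ℂ) * T) ^ pd.e)) =
      ∏ i, (X - C (evz T (pd.x i))) := by
  have hr : 0 ≤ ‖T‖ := norm_nonneg T
  have hR : 0 ≤ pd.R := le_trans zero_le_two pd.R_ge
  let S : cvz ‖T‖ hr := ⟨PowerSeries.X, gr_X _⟩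
  let c : cvz ‖T‖ hr := ⟨PowerSeries.C (pd.q : ℂ), gr_C _ _⟩
  let y : Fin d → cvz ‖T‖ hr := fun i => ⟨pd.x i, gr_of_le hR hr hT (C := pd.R) fun m => by
    rw [← pow_succ']
    exact pd.growth i m⟩
  have hinj : Function.Injective (cvz ‖T‖ hr).subtype := Subtype.val_injective
  have h1 : f.map (eval₂RingHom (Int.castRingHom (cvz ‖T‖ hr)) ((c * S) ^ pd.e)) =
      ∏ i, (X - C (y i)) := by
    apply Polynomial.map_injective _ hinj
    rw [Polynomial.map_map, spl_comp, Polynomial.map_prod]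
    refine Eq.trans ?_ (pd.split.trans ?_)
    · unfold tq
      congr 2
    · refine prod_congr rfl fun i _ => ?_
      rw [Polynomial.map_sub, Polynomial.map_X, Polynomial.map_C]
      rfl
  have h2 := spl_mapsplit (evH ‖T‖ hr T le_rfl) _ _ h1
  have hS : evH ‖T‖ hr T le_rfl S = T := evz_X T
  have hc : evH ‖T‖ hr T le_rfl c = (pd.q : ℂ) := evz_C T _
  rw [map_pow, map_mul, hS, hc] at h2
  exact h2

theorem evz_uu (q e : ℕ) {w : PowerSeries ℂ} {R : ℝ} (hR : 0 ≤ R)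
    (hw : ∀ m, ‖PowerSeries.coeff m w‖ ≤ R ^ (m + 1)) {T : ℂ} (hT : R * ‖T‖ < 1)
    (D a b : ℕ) :
    evz T (uu q e w D a b) = (((q : ℂ) * T) ^ e) ^ (D - a - b) * (evz T w) ^ b := by
  have hr : 0 ≤ ‖T‖ := norm_nonneg T
  let S : cvz ‖T‖ hr := ⟨PowerSeries.X, gr_X _⟩
  let c : cvz ‖T‖ hr := ⟨PowerSeries.C (q : ℂ), gr_C _ _⟩
  let y : cvz ‖T‖ hr := ⟨w, gr_of_le hR hr hT (C := R) fun m => by
    rw [← pow_succ']
    exact hw m⟩
  have hS : evH ‖T‖ hr T le_rfl S = T := evz_X T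
  have hc : evH ‖T‖ hr T le_rfl c = (q : ℂ) := evz_C T _
  have hy : evH ‖T‖ hr T le_rfl y = evz T w := rfl
  have h1 : evH ‖T‖ hr T le_rfl (((c * S) ^ e) ^ (D - a - b) * y ^ b) =
      (((q : ℂ) * T) ^ e) ^ (D - a - b) * (evz T w) ^ b := by
    rw [map_mul, map_pow, map_pow, map_pow, map_mul, hS, hc, hy]
  exact h1

end Pool.Agent.H52.AC
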