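import Pool.Agent.H52.AC.TAL
import Pool.Agent.H52.AC.SPL
import Pool.Agent.H52.AC.CNT
import Pool.Agent.H72.ES.SNorm

/-! # [AC-SMV] The auxiliary polynomial, specialised at the second point, is small near the first

Let `D1 = 20 n la`, `D2 = 20 n`, `t = 1/x`, `t2 = 1/x2`, `z = evz T (pd1.x i)`, `z2 = y2/x2`.
(1) `spec_val`: `specA n A x2 y2 a b = ev D2 (A a b) x2 y2 = x2^D2 evt D2 (A a b) (1/x2) (y2/x2)`
(`ev_map`, `ev_eq_evt` over `ℂ`), and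
`evt D1 (fun a b => specA ..) t z = ∑_(a,b) specA a b t^(D1-a-b) z^b`. With
`t^(D1-a-b) z^b = evz T (uu q1 e1 w1 D1 a b)` (`evz_uu`, `(q1 T)^e1 = 1/x`) and
`t2^(D2-p-q) z2^q = evz T2 (uu q2 e2 w2 D2 p q)` we get
`evt D1 (specA ..) t z = x2^D2 gA D1 D2 A q1 e1 q2 e2 w1 w2 T T2` (`gA`: `sm` of the values).
(2) `gA_le`: `tail_bound` with `ι = ℕ × ℕ × ℕ × ℕ` (or a sigma type), `s` the set of all `(a, b, p, q)`
with `a ≤ D1`, `b < n`, `p ≤ D2`, `q < n` (card `≤ (20 n la + 1) n (20 n + 1) n ≤ 441 n^4 la`)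
restricted to `a + b ≤ D1`, `p + q ≤ D2` (the terms of `sm` outside of `s` vanish by `SuppA`), coefficients `A`,
`u = uu q1 e1 w1 D1 a b`, `v = uu q2 e2 w2 D2 p q`, `c1 = B1^n`, `c2 = B2^n` (`uu_le`, `b < d1 ≤ n`,
`2 q1 R1 ≤ B1`), `TT = TA n la`, `G = 41 n` (`TA_le`), `hvan` from the hypothesis (`Bc` is this sum):
`‖gA‖ X^TA ≤ 6 E (441 n^4 la) Z B1^n B2^n B1^E B2^(41 n E) (2 B1^E)^TA`.
(3) `‖x‖ ≤ 2 X` (`‖x - x1‖ ≤ X/2`), `|x2|^D2 ≤ X^((la+1) 20 n)`, so the left side of the statement is at most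
`2^(20 n la) X^(20 n la) X^(20 n (la+1)) X^(ea la) ‖gA‖ = 2^(20 n la) X^(TA) ‖gA‖`
(`TA = 40 n la + 20 n + ea`), at most `Z` times
`2^(20 n la) * 2646 n^4 E la * B1^(n + E) * B2^(n + 41 n E) * (2 B1^E)^(41 n la)`.
Numbers: `B1 ≥ 3000 n^4 E^2 ≥ 2^23` (`n ≥ 4`, `E ≥ 4`), so `2^(61 n la) ≤ B1^(3 n la)`;
`2646 n^4 E la ≤ B1 2^la ≤ B1^(1+la)`; the exponent of `B1` is at most
`3 n la + 1 + la + n + E + 41 n E la ≤ 44 n E la`, that of `B2` at most `42 n E`. -/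

namespace Pool.Agent.H52.AC

open Finset Polynomial Pool.Agent.H72.ES Pool.Agent.H87.SA2 Pool.Agent.H8.KF

theorem spec_val {n la : ℕ} (A : ℕ → ℕ → ℕ → ℕ → ℤ) {f1 f2 : ℤ[X][X]} {d1 d2 : ℕ}
    (pd1 : PData f1 d1) (pd2 : PData f2 d2) (i : Fin d1) (j : Fin d2) {x2 y2 : ℤ} (hx2 : x2 ≠ 0)
    {T T2 x : ℂ} (hT : ((pd1.q : ℂ) * T) ^ pd1.e * x = 1) (hTR : pd1.R * ‖T‖ < 1)
    (hT2 : ((pd2.q : ℂ) * T2) ^ pd2.e * (x2 : ℂ) = 1) (hT2R : pd2.R * ‖T2‖ < 1)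
    (hy2 : evz T2 (pd2.x j) = (y2 : ℂ) / (x2 : ℂ)) :
    evt (20 * n * la) (cst ℂ (specA n A x2 y2)) (1 / x) (evz T (pd1.x i)) =
      (x2 : ℂ) ^ (20 * n) * gA (20 * n * la) (20 * n) A pd1.q pd1.e pd2.q pd2.e (pd1.x i)
        (pd2.x j) T T2 := by
  have hR1 : 0 ≤ pd1.R := by linarith [pd1.R_ge]
  have hR2 : 0 ≤ pd2.R := by linarith [pd2.R_ge]
  have hx2' : (x2 : ℂ) ≠ 0 := by exact_mod_cast hx2
  have ht1 : ((pd1.q : ℂ) * T) ^ pd1.e = 1 / x := eq_one_div_of_mul_eq_one_left hT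
  have ht2 : ((pd2.q : ℂ) * T2) ^ pd2.e = 1 / (x2 : ℂ) := eq_one_div_of_mul_eq_one_left hT2
  have hu : ∀ a b, evz T (uu pd1.q pd1.e (pd1.x i) (20 * n * la) a b) =
      (1 / x) ^ (20 * n * la - a - b) * (evz T (pd1.x i)) ^ b := by
    intro a b
    rw [evz_uu pd1.q pd1.e hR1 (pd1.growth i) hTR, ht1]
  have hv : ∀ p q, evz T2 (uu pd2.q pd2.e (pd2.x j) (20 * n) p q) =
      (1 / (x2 : ℂ)) ^ (20 * n - p - q) * ((1 / (x2 : ℂ)) * (y2 : ℂ)) ^ q := by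
    intro p q
    rw [evz_uu pd2.q pd2.e hR2 (pd2.growth j) hT2R, ht2, hy2, one_div_mul_eq_div]
  have hs : ∀ a b, cst ℂ (specA n A x2 y2) a b = (x2 : ℂ) ^ (20 * n) *
      ∑ p ∈ range (20 * n + 1), ∑ q ∈ range (20 * n + 1 - p), (A a b p q : ℂ) *
        evz T2 (uu pd2.q pd2.e (pd2.x j) (20 * n) p q) := by
    intro a b
    have h1 : cst ℂ (specA n A x2 y2) a b =
        ev (20 * n) (fun p q => ((A a b p q : ℤ) : ℂ)) (x2 : ℂ) (y2 : ℂ) :=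
      ev_map (Int.castRingHom ℂ) (20 * n) (A a b) x2 y2
    rw [h1, ev_eq_evt (20 * n) _ (x2 : ℂ) (y2 : ℂ) (1 / (x2 : ℂ)) (one_div_mul_cancel hx2')]
    unfold evt
    congr 1
    refine sum_congr rfl fun p _ => sum_congr rfl fun q _ => ?_
    rw [hv, mul_assoc]
  unfold evt gA sm
  rw [mul_sum]
  refine sum_congr rfl fun a _ => ?_
  rw [mul_sum]
  refine sum_congr rfl fun b _ => ?_
  rw [hs]
  show _ * (1 / x) ^ (20 * n * la - a - b) * evz T (pd1.x i) ^ b =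
    (x2 : ℂ) ^ (20 * n) * ∑ p ∈ range (20 * n + 1), ∑ q ∈ range (20 * n + 1 - p),
      (A a b p q : ℂ) * (evz T (uu pd1.q pd1.e (pd1.x i) (20 * n * la) a b) *
        evz T2 (uu pd2.q pd2.e (pd2.x j) (20 * n) p q))
  rw [hu, mul_assoc, mul_assoc]
  congr 1
  rw [sum_mul]
  refine sum_congr rfl fun p _ => ?_
  rw [sum_mul]
  refine sum_congr rfl fun q _ => ?_
  ring

theorem smv_tri {M : Type*} [AddCommMonoid M] (D : ℕ) (f : ℕ → ℕ → M) :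
    ∑ a ∈ range (D + 1), ∑ b ∈ range (D + 1 - a), f a b =
      ∑ p ∈ (range (D + 1) ×ˢ range (D + 1)).filter (fun p => p.1 + p.2 ≤ D), f p.1 p.2 := by
  rw [sum_filter, sum_product]
  refine sum_congr rfl fun a ha => ?_
  rw [← sum_filter]
  refine sum_congr ?_ fun _ _ => rfl
  ext b
  rw [mem_filter, mem_range, mem_range]
  omega

/-- the set of exponents -/
def smvS (n la : ℕ) : Finset ((ℕ × ℕ) × (ℕ × ℕ)) :=
  (((range (20 * n * la + 1) ×ˢ range (20 * n * la + 1)).filter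
      (fun p => p.1 + p.2 ≤ 20 * n * la)) ×ˢ
    ((range (20 * n + 1) ×ˢ range (20 * n + 1)).filter (fun p => p.1 + p.2 ≤ 20 * n))).filter
    (fun m => m.1.2 < n ∧ m.2.2 < n)

theorem smv_sm {n d1 d2 la : ℕ} (hd1 : d1 ≤ n) (hd2 : d2 ≤ n)
    (A : ℕ → ℕ → ℕ → ℕ → ℤ) (hA : SuppA n d1 d2 la A) (u v : ℕ → ℕ → ℂ) :
    sm (20 * n * la) (20 * n) A u v =
      ∑ m ∈ smvS n la, (A m.1.1 m.1.2 m.2.1 m.2.2 : ℂ) * (u m.1.1 m.1.2 * v m.2.1 m.2.2) := by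
  unfold sm smvS
  rw [sum_filter_of_ne, sum_product, smv_tri]
  · refine sum_congr rfl fun m _ => ?_
    exact smv_tri (20 * n) (fun p q => (A m.1 m.2 p q : ℂ) * (u m.1 m.2 * v p q))
  · intro m _ hm
    have h1 : A m.1.1 m.1.2 m.2.1 m.2.2 ≠ 0 := by
      intro h0
      apply hm
      rw [h0, Int.cast_zero, zero_mul]
    have h2 := hA _ _ _ _ h1
    exact ⟨h2.1.2.trans_le hd1, h2.2.2.trans_le hd2⟩

theorem smv_card {n la : ℕ} (hn : 4 ≤ n) (hla : 60 * n ≤ la) :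
    (smvS n la).card ≤ 441 * n ^ 4 * la := by
  have h1 : smvS n la ⊆ (range (20 * n * la + 1) ×ˢ range n) ×ˢ (range (20 * n + 1) ×ˢ range n) := by
    intro m hm
    unfold smvS at hm
    rw [mem_filter, mem_product, mem_filter, mem_filter, mem_product, mem_product] at hm
    rw [mem_product, mem_product, mem_product]
    exact ⟨⟨hm.1.1.1.1, mem_range.2 hm.2.1⟩, ⟨hm.1.2.1.1, mem_range.2 hm.2.2⟩⟩
  refine (card_le_card h1).trans ?_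
  rw [card_product, card_product, card_product, card_range, card_range, card_range]
  have h2 : 1 ≤ n * la := Nat.one_le_iff_ne_zero.2 (Nat.mul_ne_zero (by omega) (by omega))
  have h3 : 20 * n * la + 1 ≤ 21 * (n * la) := by nlinarith
  have h4 : 20 * n + 1 ≤ 21 * n := by omega
  calc (20 * n * la + 1) * n * ((20 * n + 1) * n) ≤ (21 * (n * la)) * n * ((21 * n) * n) := by
        gcongr
    _ = 441 * n ^ 4 * la := by ring

theorem smv_B {f : ℤ[X][X]} {d : ℕ} (pd : PData f d) {B : ℝ} (hB : 2 * pd.q * pd.R ≤ B) :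
    1 ≤ (pd.q : ℝ) ∧ 1 ≤ pd.R ∧ 1 ≤ B ∧ pd.R ≤ B := by
  have h1 : (1 : ℝ) ≤ (pd.q : ℝ) := by exact_mod_cast pd.q_pos
  have h2 := pd.R_ge
  have h3 : pd.R ≤ 2 * pd.q * pd.R := by nlinarith
  exact ⟨h1, by linarith, by linarith, by linarith⟩

theorem smv_uu {f : ℤ[X][X]} {d n : ℕ} (pd : PData f d) {B : ℝ} (hB : 2 * pd.q * pd.R ≤ B)
    (i : Fin d) (D a : ℕ) {b : ℕ} (hb : b < n) (k : ℕ) :
    ‖PowerSeries.coeff k (uu pd.q pd.e (pd.x i) D a b)‖ ≤ B ^ n * B ^ k := by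
  obtain ⟨h1, h2, h3, _⟩ := smv_B pd hB
  refine (uu_le pd.q_pos h2 (pd.growth i) D a b k).trans ?_
  rw [← pow_add]
  refine (pow_le_pow_left₀ (by positivity) hB _).trans ?_
  exact pow_le_pow_right₀ h3 (by omega)

theorem gA_le {n d1 d2 la E : ℕ} (hn : 4 ≤ n) (hd1 : d1 ≤ n) (hd2 : d2 ≤ n)
    (hla : 60 * n ≤ la) {f1 f2 : ℤ[X][X]} (pd1 : PData f1 d1) (pd2 : PData f2 d2)
    (he1 : pd1.e ≤ E) (he2 : pd2.e ≤ E) {B1 B2 : ℝ} (hB1 : 2 * pd1.q * pd1.R ≤ B1)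
    (hB2 : 2 * pd2.q * pd2.R ≤ B2) (A : ℕ → ℕ → ℕ → ℕ → ℤ) (hA : SuppA n d1 d2 la A) {Z : ℝ}
    (hZ : ∀ a b p q, |((A a b p q : ℤ) : ℝ)| ≤ Z) (i : Fin d1) (j : Fin d2)
    (hvan : ∀ k l, k / pd1.e + la * (l / pd2.e) < TA n la →
      Bc (20 * n * la) (20 * n) A pd1.q pd1.e pd2.q pd2.e (pd1.x i) (pd2.x j) k l = 0)
    {X X2 : ℝ} (hX : 4 * B1 ^ E ≤ X) {T T2 : ℂ} (hT : ‖T‖ ^ pd1.e * X ≤ 2)
    (hXX : X ^ la ≤ X2) (hT2 : ‖T2‖ ^ pd2.e * X2 ≤ 1) (hX2 : (2 * B2) ^ E ≤ X2) :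
    ‖gA (20 * n * la) (20 * n) A pd1.q pd1.e pd2.q pd2.e (pd1.x i) (pd2.x j) T T2‖ *
      X ^ TA n la ≤ 6 * E * (441 * n ^ 4 * la) * Z * B1 ^ n * B2 ^ n * B1 ^ E *
        B2 ^ (41 * n * E) * (2 * B1 ^ E) ^ TA n la := by
  obtain ⟨_, _, hB11, _⟩ := smv_B pd1 hB1
  obtain ⟨_, _, hB21, _⟩ := smv_B pd2 hB2
  have hZ0 : 0 ≤ Z := (abs_nonneg _).trans (hZ 0 0 0 0)
  have hmem : ∀ m ∈ smvS n la, m.1.2 < n ∧ m.2.2 < n := fun m hm => (mem_filter.1 hm).2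
  have key := tail_bound (smvS n la) (fun m => (A m.1.1 m.1.2 m.2.1 m.2.2 : ℂ))
    (fun m => uu pd1.q pd1.e (pd1.x i) (20 * n * la) m.1.1 m.1.2)
    (fun m => uu pd2.q pd2.e (pd2.x j) (20 * n) m.2.1 m.2.2)
    (Z := Z) (c1 := B1 ^ n) (c2 := B2 ^ n) (B1 := B1) (B2 := B2) (X := X) (X2 := X2)
    (e1 := pd1.e) (e2 := pd2.e) (la := la) (TT := TA n la) (G := 41 * n)
    pd1.e_pos pd2.e_pos (by omega) hZ0 (by positivity) (by positivity) hB11 hB21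
    (fun m _ => by
      show ‖((A m.1.1 m.1.2 m.2.1 m.2.2 : ℤ) : ℂ)‖ ≤ Z
      rw [Complex.norm_intCast]
      exact hZ _ _ _ _)
    (fun m hm k => smv_uu pd1 hB1 i _ _ (hmem m hm).1 k)
    (fun m hm k => smv_uu pd2 hB2 j _ _ (hmem m hm).2 k)
    (fun k l hkl => by
      have h1 := hvan k l hkl
      unfold Bc at h1
      rw [smv_sm hd1 hd2 A hA] at h1
      exact h1)
    (TA_le hn hla)
    ((mul_le_mul_of_nonneg_left (pow_le_pow_right₀ hB11 he1) (by norm_num)).trans hX) hT hXX hT2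
    ((pow_le_pow_right₀ (by linarith) he2).trans hX2)
  have h2 : gA (20 * n * la) (20 * n) A pd1.q pd1.e pd2.q pd2.e (pd1.x i) (pd2.x j) T T2 =
      ∑ m ∈ smvS n la, (A m.1.1 m.1.2 m.2.1 m.2.2 : ℂ) *
        (evz T (uu pd1.q pd1.e (pd1.x i) (20 * n * la) m.1.1 m.1.2) *
          evz T2 (uu pd2.q pd2.e (pd2.x j) (20 * n) m.2.1 m.2.2)) := by
    unfold gA
    rw [smv_sm hd1 hd2 A hA]
  rw [h2]
  refine key.trans ?_
  have hcard : ((smvS n la).card : ℝ) ≤ 441 * (n : ℝ) ^ 4 * la := by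
    have := smv_card hn hla
    exact_mod_cast this
  have he1' : (pd1.e : ℝ) ≤ (E : ℝ) := by exact_mod_cast he1
  have hp1 : B1 ^ pd1.e ≤ B1 ^ E := pow_le_pow_right₀ hB11 he1
  have hp2 : B2 ^ (pd2.e * (41 * n)) ≤ B2 ^ (41 * n * E) := by
    refine pow_le_pow_right₀ hB21 ?_
    rw [mul_comm]
    exact Nat.mul_le_mul_left _ he2
  have hB1p : (0 : ℝ) < B1 := by linarith
  have hB2p : (0 : ℝ) < B2 := by linarith
  gcongr

theorem smv_num {n la E : ℕ} (hn : 4 ≤ n) (hla : 60 * n ≤ la) (hnE : n ≤ E) {B1 : ℝ}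
    (hB1' : 3000 * (n : ℝ) ^ 4 * (E : ℝ) ^ 2 ≤ B1) :
    2 ^ (20 * n * la) * (2646 * (n : ℝ) ^ 4 * E * la) * (B1 ^ n * B1 ^ E) *
      (2 * B1 ^ E) ^ TA n la ≤ B1 ^ (44 * n * E * la) := by
  have hn' : (4 : ℝ) ≤ n := by exact_mod_cast hn
  have hE' : (4 : ℝ) ≤ E := by exact_mod_cast (hn.trans hnE)
  have hn4 : (4 : ℝ) ^ 4 ≤ (n : ℝ) ^ 4 := pow_le_pow_left₀ (by norm_num) hn' 4
  have hE2 : (4 : ℝ) ^ 2 ≤ (E : ℝ) ^ 2 := pow_le_pow_left₀ (by norm_num) hE' 2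
  have hB23 : (2 : ℝ) ^ 23 ≤ B1 := by
    refine le_trans ?_ hB1'
    calc (2 : ℝ) ^ 23 ≤ 3000 * 4 ^ 4 * 4 ^ 2 := by norm_num
      _ ≤ 3000 * (n : ℝ) ^ 4 * (E : ℝ) ^ 2 := by gcongr
  have hB1 : (1 : ℝ) ≤ B1 := le_trans (by norm_num) hB23
  have hB0 : (0 : ℝ) < B1 := by linarith
  have hTA : TA n la ≤ 41 * n * la := TA_le hn hla
  have s1 : (2 : ℝ) ^ (20 * n * la) * 2 ^ TA n la ≤ B1 ^ (3 * n * la) := by
    rw [← pow_add]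
    calc (2 : ℝ) ^ (20 * n * la + TA n la) ≤ 2 ^ (23 * (3 * n * la)) := by
          refine pow_le_pow_right₀ (by norm_num) ?_
          have h1 : 23 * (3 * n * la) = 20 * n * la + 41 * n * la + 8 * n * la := by ring
          rw [h1]
          have := Nat.zero_le (8 * n * la)
          omega
      _ = ((2 : ℝ) ^ 23) ^ (3 * n * la) := by rw [pow_mul]
      _ ≤ B1 ^ (3 * n * la) := pow_le_pow_left₀ (by norm_num) hB23 _
  have s2 : 2646 * (n : ℝ) ^ 4 * E * la ≤ B1 * B1 ^ la := by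
    have h1 : 2646 * (n : ℝ) ^ 4 * E ≤ B1 := by
      refine le_trans ?_ hB1'
      have h2 : (E : ℝ) ≤ (E : ℝ) ^ 2 := by nlinarith
      have h3 : (0 : ℝ) ≤ (n : ℝ) ^ 4 := by positivity
      have h4 : (n : ℝ) ^ 4 * E ≤ (n : ℝ) ^ 4 * (E : ℝ) ^ 2 := mul_le_mul_of_nonneg_left h2 h3
      have h5 : (0 : ℝ) ≤ (n : ℝ) ^ 4 * E := by positivity
      nlinarith
    have h6 : (la : ℝ) ≤ B1 ^ la := by
      have h7 : la < 2 ^ la := Nat.lt_two_pow_self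
      have h8 : (la : ℝ) ≤ 2 ^ la := by exact_mod_cast h7.le
      refine h8.trans (pow_le_pow_left₀ (by norm_num) ?_ _)
      exact le_trans (by norm_num) hB23
    exact mul_le_mul h1 h6 (by positivity) hB0.le
  have s3 : (B1 ^ E) ^ TA n la ≤ B1 ^ (41 * n * E * la) := by
    rw [← pow_mul]
    refine pow_le_pow_right₀ hB1 ?_
    calc E * TA n la ≤ E * (41 * n * la) := Nat.mul_le_mul_left _ hTA
      _ = 41 * n * E * la := by ring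
  calc 2 ^ (20 * n * la) * (2646 * (n : ℝ) ^ 4 * E * la) * (B1 ^ n * B1 ^ E) *
      (2 * B1 ^ E) ^ TA n la
      = ((2 : ℝ) ^ (20 * n * la) * 2 ^ TA n la) * (2646 * (n : ℝ) ^ 4 * E * la) *
        (B1 ^ n * B1 ^ E) * (B1 ^ E) ^ TA n la := by
        rw [mul_pow]
        ring
    _ ≤ B1 ^ (3 * n * la) * (B1 * B1 ^ la) * (B1 ^ n * B1 ^ E) * B1 ^ (41 * n * E * la) := by
        gcongr
    _ = B1 ^ (3 * n * la + (1 + la) + (n + E) + 41 * n * E * la) := by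
        rw [pow_add, pow_add, pow_add, pow_add B1 1 la, pow_add B1 n E, pow_one]
    _ ≤ B1 ^ (44 * n * E * la) := by
        refine pow_le_pow_right₀ hB1 ?_
        obtain ⟨E', rfl⟩ : ∃ E', E = E' + 1 := ⟨E - 1, by omega⟩
        have h1 : 44 * n * (E' + 1) * la = 41 * n * (E' + 1) * la + 3 * n * la +
            3 * (n * (E' * la)) := by ring
        rw [h1]
        have h2 : 4 * (3 * la) ≤ n * (E' * la) :=
          Nat.mul_le_mul hn (Nat.mul_le_mul_right _ (by omega))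
        have h3 : E' * 240 ≤ E' * la := Nat.mul_le_mul_left _ (by omega)
        have h4 : 4 * (E' * la) ≤ n * (E' * la) := Nat.mul_le_mul_right _ hn
        omega

theorem smv_T {e q : ℕ} {q1 : 1 ≤ q} {T x : ℂ} {Y c : ℝ}
    (hT : ((q : ℂ) * T) ^ e * x = 1) (hc : 0 ≤ c) (hx : Y ≤ c * ‖x‖) :
    ‖T‖ ^ e * Y ≤ c := by
  have h1 : ‖((q : ℂ) * T) ^ e * x‖ = 1 := by rw [hT, norm_one]
  rw [norm_mul, norm_pow, norm_mul, Complex.norm_natCast, mul_pow] at h1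
  have h2 : (1 : ℝ) ≤ (q : ℝ) ^ e := one_le_pow₀ (by exact_mod_cast q1)
  have h3 : ‖T‖ ^ e * ‖x‖ ≤ 1 := by
    have h4 : 0 ≤ ‖T‖ ^ e * ‖x‖ := by positivity
    calc ‖T‖ ^ e * ‖x‖ = 1 * (‖T‖ ^ e * ‖x‖) := by ring
      _ ≤ (q : ℝ) ^ e * (‖T‖ ^ e * ‖x‖) := mul_le_mul_of_nonneg_right h2 h4
      _ = 1 := by rw [← h1]; ring
  calc ‖T‖ ^ e * Y ≤ ‖T‖ ^ e * (c * ‖x‖) := mul_le_mul_of_nonneg_left hx (by positivity)
    _ = c * (‖T‖ ^ e * ‖x‖) := by ring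
    _ ≤ c * 1 := mul_le_mul_of_nonneg_left h3 hc
    _ = c := mul_one c

theorem smv_lt {B r Y c : ℝ} {e E : ℕ} (heE : e ≤ E) (hB : 1 ≤ B) (hr : 0 ≤ r)
    (hY : 2 * c * B ^ E ≤ Y) (hc : 0 < c) (h : r ^ e * Y ≤ c) : B * r < 1 := by
  by_contra hcon
  push Not at hcon
  have h1 : 1 ≤ (B * r) ^ e := one_le_pow₀ hcon
  have h2 : B ^ e ≤ B ^ E := pow_le_pow_right₀ hB heE
  have h3 : 0 ≤ r ^ e := by positivity
  have h4 : r ^ e * (2 * c * B ^ e) ≤ c := by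
    refine le_trans (mul_le_mul_of_nonneg_left ?_ h3) h
    refine le_trans ?_ hY
    exact mul_le_mul_of_nonneg_left h2 (by positivity)
  have h5 : r ^ e * (2 * c * B ^ e) = 2 * c * (B * r) ^ e := by rw [mul_pow]; ring
  rw [h5] at h4
  nlinarith

theorem small_val {n d1 d2 la E : ℕ} (hn : 4 ≤ n) (hd1 : d1 ≤ n) (hd2 : d2 ≤ n)
    (hla : 60 * n ≤ la) (hnE : n ≤ E) {f1 f2 : ℤ[X][X]} (pd1 : PData f1 d1) (pd2 : PData f2 d2)
    (he1 : pd1.e ≤ E) (he2 : pd2.e ≤ E) {B1 B2 : ℝ} (hB1 : 2 * pd1.q * pd1.R ≤ B1)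
    (hB1' : 3000 * (n : ℝ) ^ 4 * (E : ℝ) ^ 2 ≤ B1) (hB2 : 2 * pd2.q * pd2.R ≤ B2)
    (A : ℕ → ℕ → ℕ → ℕ → ℤ) (hA : SuppA n d1 d2 la A) {Z : ℝ}
    (hZ : ∀ a b p q, |((A a b p q : ℤ) : ℝ)| ≤ Z) (i : Fin d1) (j : Fin d2)
    (hvan : ∀ k l, k / pd1.e + la * (l / pd2.e) < TA n la →
      Bc (20 * n * la) (20 * n) A pd1.q pd1.e pd2.q pd2.e (pd1.x i) (pd2.x j) k l = 0)
    {x1 x2 y2 : ℤ} {X : ℝ} (hXd : X = |(x1 : ℝ)|) (hX : 4 * B1 ^ E ≤ X)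
    (hla1 : X ^ la ≤ |(x2 : ℝ)|) (hla2 : |(x2 : ℝ)| ≤ X ^ (la + 1))
    (hX2 : (2 * B2) ^ E ≤ |(x2 : ℝ)|) {T2 : ℂ}
    (hT2 : ((pd2.q : ℂ) * T2) ^ pd2.e * (x2 : ℂ) = 1)
    (hy2 : evz T2 (pd2.x j) = (y2 : ℂ) / (x2 : ℂ)) {T x : ℂ}
    (hT : ((pd1.q : ℂ) * T) ^ pd1.e * x = 1) (hx : ‖x - x1‖ ≤ |(x1 : ℝ)| / 2) :
    ‖x ^ (20 * n * la) * evt (20 * n * la) (cst ℂ (specA n A x2 y2)) (1 / x)
      (evz T (pd1.x i))‖ * X ^ ea la ≤ Z * B1 ^ (44 * n * E * la) * B2 ^ (42 * n * E) := by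
  obtain ⟨_, _, hB11, hRB1⟩ := smv_B pd1 hB1
  obtain ⟨_, _, hB21, hRB2⟩ := smv_B pd2 hB2
  have hB1p : (0 : ℝ) < B1 := by linarith
  have hB2p : (0 : ℝ) < B2 := by linarith
  have hZ0 : 0 ≤ Z := (abs_nonneg _).trans (hZ 0 0 0 0)
  have hX4 : 4 ≤ X := by
    have : (1 : ℝ) ≤ B1 ^ E := one_le_pow₀ hB11
    linarith
  have hX0 : 0 < X := by linarith
  rw [← hXd] at hx
  have hxx : ‖(x1 : ℂ)‖ = X := by rw [Complex.norm_intCast, hXd]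
  have hxl : X ≤ 2 * ‖x‖ := by
    have h1 : ‖(x1 : ℂ)‖ ≤ ‖x - x1‖ + ‖x‖ := by
      have h2 := norm_sub_le x (x - x1)
      rw [sub_sub_cancel] at h2
      linarith
    rw [hxx] at h1
    linarith
  have hxu : ‖x‖ ≤ 2 * X := by
    have h1 : ‖x‖ ≤ ‖x - x1‖ + ‖(x1 : ℂ)‖ := norm_le_norm_sub_add x x1
    rw [hxx] at h1
    linarith
  have hx2n : ‖(x2 : ℂ)‖ = |(x2 : ℝ)| := Complex.norm_intCast x2
  have hx2pos : 0 < |(x2 : ℝ)| := lt_of_lt_of_le (by positivity) hX2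
  have hx2 : x2 ≠ 0 := by
    rintro rfl
    rw [Int.cast_zero, abs_zero] at hx2pos
    exact lt_irrefl _ hx2pos
  have hT1' : ‖T‖ ^ pd1.e * X ≤ 2 := smv_T (q1 := pd1.q_pos) hT (by norm_num) hxl
  have hT2' : ‖T2‖ ^ pd2.e * |(x2 : ℝ)| ≤ 1 :=
    smv_T (q1 := pd2.q_pos) hT2 (by norm_num) (by rw [hx2n, one_mul])
  have hTR : pd1.R * ‖T‖ < 1 := by
    refine lt_of_le_of_lt (mul_le_mul_of_nonneg_right hRB1 (norm_nonneg _)) ?_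
    exact smv_lt (c := 2) he1 hB11 (norm_nonneg _) (by linarith) (by norm_num) hT1'
  have hT2R : pd2.R * ‖T2‖ < 1 := by
    refine lt_of_le_of_lt (mul_le_mul_of_nonneg_right hRB2 (norm_nonneg _)) ?_
    refine smv_lt (c := 1) he2 hB21 (norm_nonneg _) ?_ (by norm_num) hT2'
    refine le_trans ?_ hX2
    rw [mul_pow, mul_one]
    refine mul_le_mul_of_nonneg_right ?_ (by positivity)
    calc (2 : ℝ) = 2 ^ 1 := (pow_one _).symm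
      _ ≤ 2 ^ E := pow_le_pow_right₀ (by norm_num) (by omega)
  rw [spec_val A pd1 pd2 i j hx2 hT hTR hT2 hT2R hy2]
  have hg := gA_le hn hd1 hd2 hla pd1 pd2 he1 he2 hB1 hB2 A hA hZ i j hvan hX hT1' hla1 hT2' hX2
  obtain ⟨g, hgd⟩ : ∃ g : ℂ, g = gA (20 * n * la) (20 * n) A pd1.q pd1.e pd2.q pd2.e
    (pd1.x i) (pd2.x j) T T2 := ⟨_, rfl⟩
  rw [← hgd] at hg ⊢
  rw [norm_mul, norm_mul, norm_pow, norm_pow, hx2n]
  have hTAe : TA n la = 20 * n * la + (la + 1) * (20 * n) + ea la := by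
    unfold TA
    ring
  have h1 : ‖x‖ ^ (20 * n * la) * (|(x2 : ℝ)| ^ (20 * n) * ‖g‖) * X ^ ea la ≤
      2 ^ (20 * n * la) * (‖g‖ * X ^ TA n la) := by
    calc ‖x‖ ^ (20 * n * la) * (|(x2 : ℝ)| ^ (20 * n) * ‖g‖) * X ^ ea la ≤
          (2 * X) ^ (20 * n * la) * ((X ^ (la + 1)) ^ (20 * n) * ‖g‖) * X ^ ea la := by gcongr
      _ = 2 ^ (20 * n * la) * (‖g‖ * X ^ TA n la) := by
          rw [hTAe, pow_add X _ (ea la), pow_add X (20 * n * la), mul_pow, ← pow_mul]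
          ring
  refine h1.trans ?_
  have hnum := smv_num hn hla hnE hB1'
  have h2 : B2 ^ n * B2 ^ (41 * n * E) ≤ B2 ^ (42 * n * E) := by
    rw [← pow_add]
    refine pow_le_pow_right₀ hB21 ?_
    have h3 : 42 * n * E = n * E + 41 * n * E := by ring
    have h4 : n * 1 ≤ n * E := Nat.mul_le_mul_left _ (by omega)
    omega
  calc 2 ^ (20 * n * la) * (‖g‖ * X ^ TA n la) ≤
        2 ^ (20 * n * la) * (6 * E * (441 * n ^ 4 * la) * Z * B1 ^ n * B2 ^ n * B1 ^ E *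
        B2 ^ (41 * n * E) * (2 * B1 ^ E) ^ TA n la) := mul_le_mul_of_nonneg_left hg (by positivity)
    _ = Z * (2 ^ (20 * n * la) * (2646 * (n : ℝ) ^ 4 * E * la) * (B1 ^ n * B1 ^ E) *
      (2 * B1 ^ E) ^ TA n la) * (B2 ^ n * B2 ^ (41 * n * E)) := by ring
    _ ≤ Z * B1 ^ (44 * n * E * la) * B2 ^ (42 * n * E) := by gcongr

end Pool.Agent.H52.AC
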