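import Pool.Agent.H52.AC.UB

/-! # [AC-EVH] Evaluation of convergent power series

`Gr r w`: absolute convergence at radius `r`. `evz T w = ∑' m, coeff m w * T^m`.
Proof. `gr_of_le`: comparison with the geometric series. `gr_C`, `gr_X`: finitely many nonzero terms
(`summable_of_ne_finset_zero`, or `hasSum_ite_eq`). `gr_add`, `gr_neg`: comparison. `gr_mul`: the
coefficient of `v * w` is `∑_(i+j=m)`, its norm times `r^m` is at most the Cauchy product of the
two summable families (`summable_norm_sum_mul_antidiagonal_of_summable_norm` or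
`Summable.mul_norm`, `summable_mul_of_summable_norm`).
`evz_hasSum`: `‖coeff m w * T^m‖ ≤ ‖coeff m w‖ r^m`, `Summable.of_norm_bounded`, `Summable.hasSum`.
`evz_mul`: `tsum_mul_tsum_eq_tsum_sum_antidiagonal_of_summable_norm` and `PowerSeries.coeff_mul`
(`T^i T^j = T^m`). `evz_add`: `Summable.tsum_add`. `evz_C`, `evz_X`: `tsum_eq_single`.
`evH`: bundles these. `evz_diff`: `differentiableOn_tsum_of_summable_norm` with
`u m = ‖coeff m w‖ r^m` on the open ball. `evz_le`: `‖evz T w‖ ≤ ∑' C (R ‖T‖)^m = C / (1 - R ‖T‖)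
≤ 2 C`. (Similar lemmas for real `T`: `Pool/Agent/H97/GA/TCA.lean`, `Pool/Agent/H97/AN`.) -/

namespace Pool.Agent.H52.AC

open Finset Polynomial

/-- absolute convergence at radius `r` -/
def Gr (r : ℝ) (w : PowerSeries ℂ) : Prop := Summable fun m => ‖PowerSeries.coeff m w‖ * r ^ m

theorem gr_of_le {R r C : ℝ} (hR : 0 ≤ R) (hr : 0 ≤ r) (h : R * r < 1) {w : PowerSeries ℂ}
    (hw : ∀ m, ‖PowerSeries.coeff m w‖ ≤ C * R ^ m) : Gr r w := by
  unfold Gr
  have h1 : Summable fun m : ℕ => C * (R * r) ^ m :=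
    (summable_geometric_of_lt_one (mul_nonneg hR hr) h).mul_left C
  refine Summable.of_nonneg_of_le (fun m => mul_nonneg (norm_nonneg _) (pow_nonneg hr m))
    (fun m => ?_) h1
  rw [mul_pow, ← mul_assoc]
  exact mul_le_mul_of_nonneg_right (hw m) (pow_nonneg hr m)

theorem gr_C (r : ℝ) (z : ℂ) : Gr r (PowerSeries.C z) := by
  unfold Gr
  apply summable_of_ne_finset_zero (s := {0})
  intro m hm
  rw [Finset.mem_singleton] at hm
  rw [PowerSeries.coeff_C, if_neg hm, norm_zero, zero_mul]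

theorem gr_X (r : ℝ) : Gr r PowerSeries.X := by
  unfold Gr
  apply summable_of_ne_finset_zero (s := {1})
  intro m hm
  rw [Finset.mem_singleton] at hm
  rw [PowerSeries.coeff_X, if_neg hm, norm_zero, zero_mul]

theorem gr_add {r : ℝ} (hr : 0 ≤ r) {v w : PowerSeries ℂ} (hv : Gr r v) (hw : Gr r w) :
    Gr r (v + w) := by
  unfold Gr at *
  refine Summable.of_nonneg_of_le (fun m => mul_nonneg (norm_nonneg _) (pow_nonneg hr m))
    (fun m => ?_) (hv.add hw)
  rw [map_add, ← add_mul]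
  exact mul_le_mul_of_nonneg_right (norm_add_le _ _) (pow_nonneg hr m)

theorem gr_neg {r : ℝ} {v : PowerSeries ℂ} (hv : Gr r v) : Gr r (-v) := by
  unfold Gr at *
  simpa only [map_neg, norm_neg] using hv

theorem gr_mul {r : ℝ} (hr : 0 ≤ r) {v w : PowerSeries ℂ} (hv : Gr r v) (hw : Gr r w) :
    Gr r (v * w) := by
  unfold Gr at *
  have h1 : Summable fun x : ℕ × ℕ => (‖PowerSeries.coeff x.1 v‖ * r ^ x.1) *
      (‖PowerSeries.coeff x.2 w‖ * r ^ x.2) :=
    hv.mul_of_nonneg hw (fun m => mul_nonneg (norm_nonneg _) (pow_nonneg hr m))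
      (fun m => mul_nonneg (norm_nonneg _) (pow_nonneg hr m))
  have h2 := summable_sum_mul_antidiagonal_of_summable_mul (f := fun m => ‖PowerSeries.coeff m v‖ * r ^ m)
    (g := fun m => ‖PowerSeries.coeff m w‖ * r ^ m) h1
  refine Summable.of_nonneg_of_le (fun m => mul_nonneg (norm_nonneg _) (pow_nonneg hr m))
    (fun m => ?_) h2
  rw [PowerSeries.coeff_mul]
  refine (mul_le_mul_of_nonneg_right (norm_sum_le _ _) (pow_nonneg hr m)).trans ?_
  rw [Finset.sum_mul]
  apply Finset.sum_le_sum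
  intro x hx
  rw [Finset.HasAntidiagonal.mem_antidiagonal] at hx
  rw [norm_mul, ← hx, pow_add]
  apply le_of_eq
  ring

theorem evz_hasSum {r : ℝ} {T : ℂ} (hT : ‖T‖ ≤ r) {w : PowerSeries ℂ} (hw : Gr r w) :
    HasSum (fun m => PowerSeries.coeff m w * T ^ m) (evz T w) := by
  have h1 : Summable fun m => PowerSeries.coeff m w * T ^ m := by
    refine Summable.of_norm_bounded (g := fun m => ‖PowerSeries.coeff m w‖ * r ^ m) hw fun m => ?_
    rw [norm_mul, norm_pow]
    exact mul_le_mul_of_nonneg_left (pow_le_pow_left₀ (norm_nonneg _) hT m) (norm_nonneg _)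
  exact h1.hasSum

theorem evz_add {r : ℝ} {T : ℂ} (hT : ‖T‖ ≤ r) {v w : PowerSeries ℂ} (hv : Gr r v)
    (hw : Gr r w) : evz T (v + w) = evz T v + evz T w := by
  have h1 := (evz_hasSum hT hv).add (evz_hasSum hT hw)
  rw [← h1.tsum_eq]
  unfold evz
  congr 1
  funext m
  rw [map_add, add_mul]

theorem evz_mul {r : ℝ} {T : ℂ} (hT : ‖T‖ ≤ r) {v w : PowerSeries ℂ} (hv : Gr r v)
    (hw : Gr r w) : evz T (v * w) = evz T v * evz T w := by
  have h1 : ∀ {w : PowerSeries ℂ}, Gr r w → Summable fun m => ‖PowerSeries.coeff m w * T ^ m‖ := by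
    intro w hw
    refine Summable.of_nonneg_of_le (fun m => norm_nonneg _) (fun m => ?_) hw
    rw [norm_mul, norm_pow]
    exact mul_le_mul_of_nonneg_left (pow_le_pow_left₀ (norm_nonneg _) hT m) (norm_nonneg _)
  unfold evz
  rw [tsum_mul_tsum_eq_tsum_sum_antidiagonal_of_summable_norm (h1 hv) (h1 hw)]
  congr 1
  funext m
  rw [PowerSeries.coeff_mul, Finset.sum_mul]
  apply Finset.sum_congr rfl
  intro x hx
  rw [Finset.HasAntidiagonal.mem_antidiagonal] at hx
  rw [← hx, pow_add]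
  ring

theorem evz_C (T z : ℂ) : evz T (PowerSeries.C z) = z := by
  unfold evz
  rw [tsum_eq_single 0]
  · rw [PowerSeries.coeff_C, if_pos rfl, pow_zero, mul_one]
  · intro m hm
    rw [PowerSeries.coeff_C, if_neg hm, zero_mul]

theorem evz_X (T : ℂ) : evz T PowerSeries.X = T := by
  unfold evz
  rw [tsum_eq_single 1]
  · rw [PowerSeries.coeff_X, if_pos rfl, pow_one, one_mul]
  · intro m hm
    rw [PowerSeries.coeff_X, if_neg hm, zero_mul]

/-- the subring of series converging absolutely at radius `r` -/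
noncomputable def cvz (r : ℝ) (hr : 0 ≤ r) : Subring (PowerSeries ℂ) where
  carrier := {w | Gr r w}
  mul_mem' := fun ha hb => gr_mul hr ha hb
  one_mem' := by
    have h := gr_C r 1
    rwa [map_one] at h
  add_mem' := fun ha hb => gr_add hr ha hb
  zero_mem' := by
    have h := gr_C r 0
    rwa [map_zero] at h
  neg_mem' := fun ha => gr_neg ha

/-- evaluation as a ring homomorphism -/
noncomputable def evH (r : ℝ) (hr : 0 ≤ r) (T : ℂ) (hT : ‖T‖ ≤ r) : cvz r hr →+* ℂ where
  toFun w := evz T w.1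
  map_one' := by
    have h := evz_C T 1
    rwa [map_one] at h
  map_mul' a b := evz_mul hT a.2 b.2
  map_zero' := by
    have h := evz_C T 0
    rwa [map_zero] at h
  map_add' a b := evz_add hT a.2 b.2

theorem evH_apply (r : ℝ) (hr : 0 ≤ r) (T : ℂ) (hT : ‖T‖ ≤ r) (w : cvz r hr) :
    evH r hr T hT w = evz T w.1 := rfl

theorem evz_diff {r : ℝ} {w : PowerSeries ℂ} (hw : Gr r w) :
    DifferentiableOn ℂ (fun T => evz T w) (Metric.ball 0 r) := by
  unfold evz
  refine Complex.differentiableOn_tsum_of_summable_norm (u := fun m => ‖PowerSeries.coeff m w‖ * r ^ m)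
    hw (fun m => ?_) Metric.isOpen_ball (fun m T hT => ?_)
  · exact ((differentiable_id.pow m).const_mul _).differentiableOn
  · rw [mem_ball_zero_iff] at hT
    rw [norm_mul, norm_pow]
    exact mul_le_mul_of_nonneg_left (pow_le_pow_left₀ (norm_nonneg _) hT.le m) (norm_nonneg _)

theorem evz_le {R C : ℝ} (hC : 0 ≤ C) (hR : 0 ≤ R) {T : ℂ} (h : R * ‖T‖ ≤ 1 / 2)
    {w : PowerSeries ℂ} (hw : ∀ m, ‖PowerSeries.coeff m w‖ ≤ C * R ^ m) :
    ‖evz T w‖ ≤ 2 * C := by
  have h0 : 0 ≤ R * ‖T‖ := mul_nonneg hR (norm_nonneg _)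
  have h1 : HasSum (fun m : ℕ => C * (R * ‖T‖) ^ m) (C * (1 - R * ‖T‖)⁻¹) :=
    (hasSum_geometric_of_lt_one h0 (by linarith)).mul_left C
  have h2 : ‖evz T w‖ ≤ C * (1 - R * ‖T‖)⁻¹ := by
    unfold evz
    refine tsum_of_norm_bounded h1 fun m => ?_
    rw [norm_mul, norm_pow, mul_pow, ← mul_assoc]
    exact mul_le_mul_of_nonneg_right (hw m) (pow_nonneg (norm_nonneg _) m)
  refine h2.trans ?_
  rw [mul_comm 2 C]
  apply mul_le_mul_of_nonneg_left _ hC
  rw [inv_le_comm₀ (by linarith) (by norm_num)]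
  linarith

end Pool.Agent.H52.AC
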