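import Pool.Agent.H52.AC.SPL
import Pool.Agent.H72.ES.Inj
import Pool.Agent.H72.ES.SNorm
import Pool.Agent.H97.XC.Near

/-! # [AC-FI] The polynomial `fI n F`, uniqueness of the branch, `F_y` at large points

`fI d F = ∑_j C (∑_(i ≤ d - j) C (F i j) X^(d-i-j)) X^j`, i.e. `f(t,Z) = t^d F(1/t, Z/t)`.
Proof. `fI_eval`: map and evaluate termwise (`Polynomial.eval_finset_sum`, `Polynomial.map_sum`); the
double sum `∑_j ∑_(i < d+1-j)` equals `∑_i ∑_(j < d+1-i)` (`Finset.sum_sigma'` and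
`Finset.sum_nbij'` or `Finset.sum_comm'` with the condition `i + j ≤ d`).
`fI_deriv`: termwise, `derivative (C a * X^j) = C (a * j) * X^(j-1)`; the value at `t, z` with
`t x = 1`, `z = t y` is `∑ F i j t^(d-i-j) j z^(j-1) = t^(d-1) ∑ F i j j x^i y^(j-1)`, because
`t^(d-i-j) t^(j-1) = t^(d-1) x^i` for `j ≥ 1`, `i + j ≤ d` (`t^i x^i = 1`).
`uniq_branch`: with `t = (q T)^e`, `t x = 1`. By `split_at`, `g(Z) = f(t, Z) = ∏_j (Z - z_j)`,
`z_j = evz T (x j)`. If `z_i = z_j` for some `j ≠ i`, then `g'(z_i) = 0` (the product contains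
`(Z - z_i)²`); by `fI_deriv` this is `t^(d-1) F_y(x,y)` with `z_i = y/x = t y`, `≠ 0`.
`evy_ne_zero`: by contradiction, `t = 1/x`, `z = y/x`: `f(t,z) = 0` (`fI_eval`, `evt_eq_ev`), `f'(t,z) = 0`
(`fI_deriv`), so `c(t) = 0` for `c ∈ ℤ[t]`, `c ≠ 0`, coefficients at most `b`. This is impossible for
`0 < |t| ≤ 1/(b+2)`: for `t > 0` it is `Pool.Agent.H97.XC.near_aux` (`Pool/Agent/H97/XC/Near.lean`,
`Hc = b`); for `t < 0` apply it to `c(-X)` (`c.comp (-X)`, `Polynomial.comp_neg_X_coeff`), at `-t`.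
`exists_branch`: for `F(x,y) = 0`, `x ≠ 0` let `T` be a complex number with `(q T)^e = 1/x`
(`IsAlgClosed.exists_pow_nat_eq`); `‖T‖^e q^e = 1/|x|`, so `‖T‖ ≤ 1/(2R)` follows from
`(2 R)^e ≤ |x|` (`q ≥ 1`, `pow_le_pow_left` contrapositive); `split_at` evaluated at `y/x`:
`0 = f(t, y/x) = ∏ (y/x - z_j)`, so `y/x = z_i` for some `i`. -/

namespace Pool.Agent.H52.AC

open Finset Polynomial Pool.Agent.H87.SA2 Pool.Agent.H8.AW Pool.Agent.H72.ES

private lemma FI_coef (d j : ℕ) (F : ℕ → ℕ → ℤ) (t : ℂ) :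
    (eval₂RingHom (Int.castRingHom ℂ) t)
      (∑ i ∈ range (d + 1 - j), C (F i j) * X ^ (d - i - j)) =
      ∑ i ∈ range (d + 1 - j), (F i j : ℂ) * t ^ (d - i - j) := by
  rw [map_sum]
  refine sum_congr rfl fun i _ => ?_
  rw [map_mul, map_pow]
  simp

theorem fI_eval (d : ℕ) (F : ℕ → ℕ → ℤ) (t z : ℂ) :
    ((fI d F).map (eval₂RingHom (Int.castRingHom ℂ) t)).eval z = evt d (cst ℂ F) t z := by
  unfold fI evt cst
  rw [Polynomial.map_sum, eval_finsetSum]
  have h : ∀ j ∈ range (d + 1), eval z (Polynomial.map (eval₂RingHom (Int.castRingHom ℂ) t)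
      (C (∑ i ∈ range (d + 1 - j), C (F i j) * X ^ (d - i - j)) * X ^ j)) =
      ∑ i ∈ range (d + 1 - j), (F i j : ℂ) * t ^ (d - i - j) * z ^ j := by
    intro j _
    rw [Polynomial.map_mul, Polynomial.map_C, Polynomial.map_pow, Polynomial.map_X, eval_mul, eval_C,
      eval_pow, eval_X, FI_coef, sum_mul]
  rw [sum_congr rfl h]
  refine sum_comm' fun j i => ?_
  simp only [mem_range]
  omega

theorem fI_deriv (d : ℕ) (F : ℕ → ℕ → ℤ) {x y t : ℂ} (h : t * x = 1) :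
    ((derivative (fI d F)).map (eval₂RingHom (Int.castRingHom ℂ) t)).eval (t * y) =
      t ^ (d - 1) * evy d (cst ℂ F) x y := by
  unfold fI evy cst
  rw [derivative_sum, Polynomial.map_sum, eval_finsetSum]
  have h1 : ∀ j ∈ range (d + 1), eval (t * y) (Polynomial.map (eval₂RingHom (Int.castRingHom ℂ) t)
      (derivative (C (∑ i ∈ range (d + 1 - j), C (F i j) * X ^ (d - i - j)) * X ^ j))) =
      ∑ i ∈ range (d + 1 - j), t ^ (d - 1) * ((F i j : ℂ) * x ^ i * ((j : ℂ) * y ^ (j - 1))) := by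
    intro j hj
    rw [derivative_C_mul_X_pow, Polynomial.map_mul, Polynomial.map_C, Polynomial.map_pow,
      Polynomial.map_X, eval_mul, eval_C, eval_pow, eval_X, map_mul, FI_coef, map_natCast, mul_assoc,
      sum_mul]
    refine sum_congr rfl fun i hi => ?_
    rw [mem_range] at hi hj
    rcases Nat.eq_zero_or_pos j with h0 | h0
    · subst h0
      simp
    · have e1 : t ^ (d - 1) * x ^ i = t ^ (d - i - j) * t ^ (j - 1) := by
        have e2 : d - 1 = (d - 1 - i) + i := by omega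
        have e3 : (d - i - j) + (j - 1) = d - 1 - i := by omega
        rw [← pow_add, e3]
        conv_lhs => rw [e2]
        rw [pow_add, mul_assoc, ← mul_pow, h, one_pow, mul_one]
      calc (F i j : ℂ) * t ^ (d - i - j) * ((j : ℂ) * (t * y) ^ (j - 1))
          = (F i j : ℂ) * ((j : ℂ) * y ^ (j - 1)) * (t ^ (d - i - j) * t ^ (j - 1)) := by
            rw [mul_pow]
            ring
        _ = t ^ (d - 1) * ((F i j : ℂ) * x ^ i * ((j : ℂ) * y ^ (j - 1))) := by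
            rw [← e1]
            ring
  rw [sum_congr rfl h1, mul_sum]
  have h2 : ∀ i ∈ range (d + 1), t ^ (d - 1) * ∑ j ∈ range (d + 1 - i), (F i j : ℂ) * x ^ i *
      ((j : ℂ) * y ^ (j - 1)) = ∑ j ∈ range (d + 1 - i),
        t ^ (d - 1) * ((F i j : ℂ) * x ^ i * ((j : ℂ) * y ^ (j - 1))) := fun i _ => mul_sum _ _ _
  rw [sum_congr rfl h2]
  refine sum_comm' fun j i => ?_
  simp only [mem_range]
  omega

private lemma FI_evy_cast (d : ℕ) (F : ℕ → ℕ → ℤ) (x y : ℤ) :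
    ((evy d F x y : ℤ) : ℂ) = evy d (cst ℂ F) (x : ℂ) (y : ℂ) := by
  have h := evy_map (Int.castRingHom ℂ) d F x y
  simp only [eq_intCast] at h
  exact h

private lemma FI_ev_cast (d : ℕ) (F : ℕ → ℕ → ℤ) (x y : ℤ) :
    ((ev d F x y : ℤ) : ℂ) = ev d (cst ℂ F) (x : ℂ) (y : ℂ) := by
  have h := ev_map (Int.castRingHom ℂ) d F x y
  simp only [eq_intCast] at h
  exact h

private lemma FI_double {d : ℕ} (z : Fin d → ℂ) {i j : Fin d} (hij : j ≠ i) (h : z j = z i) :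
    (derivative (∏ k, (X - C (z k)))).eval (z i) = 0 := by
  classical
  have h1 : ∏ k, (X - C (z k)) = (X - C (z i)) * ((X - C (z j)) *
      ∏ k ∈ (univ.erase i).erase j, (X - C (z k))) := by
    rw [mul_prod_erase (univ.erase i) (fun k => X - C (z k)) (mem_erase.2 ⟨hij, mem_univ j⟩),
      mul_prod_erase univ (fun k => X - C (z k)) (mem_univ i)]
  rw [h1, derivative_mul, derivative_mul, h]
  simp

theorem uniq_branch {d : ℕ} {F : ℕ → ℕ → ℤ} (pd : PData (fI d F) d) {x y : ℤ}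
    (hκ : evy d F x y ≠ 0) {T : ℂ} (hT : pd.R * ‖T‖ < 1)
    (hTx : ((pd.q : ℂ) * T) ^ pd.e * (x : ℂ) = 1) {i : Fin d}
    (hi : evz T (pd.x i) = (y : ℂ) / (x : ℂ)) :
    ∀ j, evz T (pd.x j) = (y : ℂ) / (x : ℂ) → j = i := by
  intro j hj
  by_contra hne
  set t : ℂ := ((pd.q : ℂ) * T) ^ pd.e with ht
  have hx : (x : ℂ) ≠ 0 := right_ne_zero_of_mul_eq_one hTx
  have hyx : (y : ℂ) / (x : ℂ) = t * y := by
    rw [div_eq_iff hx, mul_right_comm, hTx, one_mul]
  have hsp := split_at pd hT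
  have h1 := fI_deriv d F (x := (x : ℂ)) (y := (y : ℂ)) (t := t) hTx
  rw [← derivative_map, hsp, ← hyx, ← hi, FI_double (fun k => evz T (pd.x k)) hne
    (hj.trans hi.symm), ← FI_evy_cast] at h1
  have ht0 : t ≠ 0 := left_ne_zero_of_mul_eq_one hTx
  have h2 : ((evy d F x y : ℤ) : ℂ) = 0 := by
    rcases mul_eq_zero.1 h1.symm with h | h
    · exact absurd h (pow_ne_zero _ ht0)
    · exact h
  exact hκ (by exact_mod_cast h2)

theorem evy_ne_zero {d b : ℕ} {F : ℕ → ℕ → ℤ} (u v : ℤ[X][X]) {c : ℤ[X]} (hc : c ≠ 0)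
    (hbez : u * fI d F + v * derivative (fI d F) = C c) (hle : ∀ i, |c.coeff i| ≤ (b : ℤ))
    {x y : ℤ} (h : ev d F x y = 0) (hx : (b : ℤ) + 2 ≤ |x|) : evy d F x y ≠ 0 := by
  intro h0
  have hx0 : x ≠ 0 := by
    rintro rfl
    simp at hx
    omega
  have hxC : (x : ℂ) ≠ 0 := by exact_mod_cast hx0
  have hxR : (x : ℝ) ≠ 0 := by exact_mod_cast hx0
  set t : ℂ := ((((x : ℝ))⁻¹ : ℝ) : ℂ) with ht
  have htx : t * (x : ℂ) = 1 := by
    rw [ht]
    push_cast
    exact inv_mul_cancel₀ hxC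
  have h1 : ((fI d F).map (eval₂RingHom (Int.castRingHom ℂ) t)).eval (t * y) = 0 := by
    rw [fI_eval, evt_eq_ev d (cst ℂ F) (x : ℂ) (y : ℂ) t htx, ← FI_ev_cast, h]
    simp
  have h2 : ((derivative (fI d F)).map (eval₂RingHom (Int.castRingHom ℂ) t)).eval (t * y) = 0 := by
    rw [fI_deriv d F htx, ← FI_evy_cast, h0]
    simp
  have h3 : c.eval₂ (Int.castRingHom ℂ) t = 0 := by
    have h4 := congrArg (fun p => (p.map (eval₂RingHom (Int.castRingHom ℂ) t)).eval (t * y)) hbez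
    simp only [Polynomial.map_add, Polynomial.map_mul, eval_add, eval_mul, h1, h2, mul_zero,
      add_zero, Polynomial.map_C, eval_C, coe_eval₂RingHom] at h4
    exact h4.symm
  have hb2 : (b : ℝ) + 2 ≤ |(x : ℝ)| := by
    have : (((b : ℤ) + 2 : ℤ) : ℝ) ≤ ((|x| : ℤ) : ℝ) := by exact_mod_cast hx
    push_cast at this
    exact this
  have hb0 : (0 : ℝ) ≤ b := Nat.cast_nonneg b
  rcases lt_or_gt_of_ne hxR with hneg | hpos
  · have h5 : c.comp (-X) ≠ 0 := by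
      intro h6
      apply hc
      have h7 : (c.comp (-X)).comp (-X) = c := by
        rw [comp_assoc]
        simp
      rw [← h7, h6, zero_comp]
    have h8 := Pool.Agent.H97.XC.near_aux b (-((x : ℝ))⁻¹) (by
        rw [← inv_neg]
        exact inv_pos.2 (by linarith)) (by
        rw [← inv_neg, inv_mul_le_iff₀ (by linarith), mul_one]
        rw [abs_of_neg hneg] at hb2
        exact hb2) _ (c.comp (-X)) le_rfl h5 (fun i => by
          have e1 : (-X : ℤ[X]) = C (-1) * X := by simp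
          rw [e1, comp_C_mul_X_coeff, abs_mul, abs_pow, abs_neg, abs_one, one_pow, mul_one]
          exact hle i)
    apply h8
    rw [eval₂_comp, eval₂_neg, eval₂_X]
    have h9 : -(((-((x : ℝ))⁻¹ : ℝ)) : ℂ) = t := by
      rw [ht]
      push_cast
      ring
    rw [h9]
    exact h3
  · have h8 := Pool.Agent.H97.XC.near_aux b (((x : ℝ))⁻¹) (inv_pos.2 hpos) (by
        rw [inv_mul_le_iff₀ hpos, mul_one]
        rw [abs_of_pos hpos] at hb2
        exact hb2) _ c le_rfl hc hle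
    exact h8 h3

theorem exists_branch {d : ℕ} {F : ℕ → ℕ → ℤ} (pd : PData (fI d F) d) {x y : ℤ}
    (h : ev d F x y = 0) (hx : (2 * pd.R) ^ pd.e ≤ |(x : ℝ)|) :
    ∃ (T : ℂ) (i : Fin d), ((pd.q : ℂ) * T) ^ pd.e * (x : ℂ) = 1 ∧ pd.R * ‖T‖ ≤ 1 / 2 ∧
      evz T (pd.x i) = (y : ℂ) / (x : ℂ) := by
  have hR := pd.R_ge
  have hR0 : 0 < 2 * pd.R := by linarith
  have hxa : 0 < |(x : ℝ)| := lt_of_lt_of_le (by positivity) hx
  have hxR : (x : ℝ) ≠ 0 := abs_pos.1 hxa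
  have hx0 : x ≠ 0 := by exact_mod_cast hxR
  have hxC : (x : ℂ) ≠ 0 := by exact_mod_cast hx0
  obtain ⟨S, hS⟩ := IsAlgClosed.exists_pow_nat_eq ((x : ℂ)⁻¹) (n := pd.e) pd.e_pos
  have hq : (1 : ℝ) ≤ pd.q := by exact_mod_cast pd.q_pos
  have hqC : (pd.q : ℂ) ≠ 0 := by
    have := pd.q_pos
    exact_mod_cast (by omega : pd.q ≠ 0)
  have hTS : (pd.q : ℂ) * (S / pd.q) = S := by field_simp
  have htx : ((pd.q : ℂ) * (S / pd.q)) ^ pd.e * (x : ℂ) = 1 := by
    rw [hTS, hS]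
    exact inv_mul_cancel₀ hxC
  have hSn : ‖S‖ ≤ (2 * pd.R)⁻¹ := by
    have h1 : ‖S‖ ^ pd.e ≤ ((2 * pd.R)⁻¹) ^ pd.e := by
      rw [← norm_pow, hS, norm_inv, inv_pow]
      have h2 : ‖(x : ℂ)‖ = |(x : ℝ)| := by
        rw [Complex.norm_intCast]
      rw [h2]
      exact inv_anti₀ (by positivity) hx
    exact (pow_le_pow_iff_left₀ (norm_nonneg _) (by positivity)
      (by have := pd.e_pos; omega)).1 h1
  have hT2 : pd.R * ‖S / (pd.q : ℂ)‖ ≤ 1 / 2 := by
    rw [norm_div, Complex.norm_natCast]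
    have h3 : ‖S‖ / (pd.q : ℝ) ≤ (2 * pd.R)⁻¹ :=
      (div_le_self (norm_nonneg _) hq).trans hSn
    calc pd.R * (‖S‖ / (pd.q : ℝ)) ≤ pd.R * (2 * pd.R)⁻¹ := by
          apply mul_le_mul_of_nonneg_left h3
          linarith
      _ = 1 / 2 := by
          have : pd.R ≠ 0 := by linarith
          field_simp
  have hsp := split_at pd (T := S / pd.q) (by linarith)
  set t : ℂ := ((pd.q : ℂ) * (S / pd.q)) ^ pd.e with ht
  have hyx : (y : ℂ) / (x : ℂ) = t * y := by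
    rw [div_eq_iff hxC, mul_right_comm, htx, one_mul]
  have h4 : ((fI d F).map (eval₂RingHom (Int.castRingHom ℂ) t)).eval (t * y) = 0 := by
    rw [fI_eval, evt_eq_ev d (cst ℂ F) (x : ℂ) (y : ℂ) t htx, ← FI_ev_cast, h]
    simp
  rw [hsp, eval_prod] at h4
  obtain ⟨i, _, hi⟩ := prod_eq_zero_iff.1 h4
  refine ⟨S / pd.q, i, htx, hT2, ?_⟩
  rw [eval_sub, eval_X, eval_C] at hi
  rw [hyx]
  exact (sub_eq_zero.1 hi).symm

end Pool.Agent.H52.AC
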