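import Pool.Agent.H52.AC.Defs

/-! # [AC-UB] Size of the expansion coefficients

Proof. `coeff_pow_le`: induction on `b`. `b = 0`: the coefficient of `1` is `0` or `1`.
`b + 1`: `w^(b+1) = w^b * w` and `PowerSeries.coeff_mul`:
`∑_(k + l = m) (2R)^(k+b) R^(l+1) = R (2R)^(m+b) ∑_(l ≤ m) 2^(-l) ≤ 2 R (2R)^(m+b)`
(`R^(l+1) (2R)^(k+b) = R (2R)^(m+b) 2^(-l)`; `∑_(l ≤ m) (1/2)^l ≤ 2`; it may be simpler to prove
`∑_(k+l=m) 2^k ≤ 2^(m+1)` and to use `R^(l+1) (2R)^(k+b) = R^(m+b+1) 2^(k+b)`).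
`uu_le`: `((C q * X)^e)^s = C (q^(e s)) * X^(e s)`; the coefficient of index `m` of
`C (q^(e s)) * X^(e s) * w^b` is `0` for `m < e s` and `q^(e s) * coeff (m - e s) (w^b)` otherwise
(`PowerSeries.coeff_C_mul`, `PowerSeries.coeff_X_pow_mul'`), so it is at most
`q^(e s) (2R)^(m - e s + b) ≤ (2 q R)^(m + b)` as `q ≥ 1`, `R ≥ 1`. -/

namespace Pool.Agent.H52.AC

open Finset Polynomial

private theorem ub_geom (b m : ℕ) :
    ∑ k ∈ range (m + 1), (2 : ℝ) ^ (k + b) ≤ 2 ^ (m + 1 + b) := by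
  induction m with
  | zero =>
    rw [sum_range_one, zero_add, zero_add, pow_add]
    have : (0 : ℝ) < 2 ^ b := by positivity
    linarith
  | succ m ih =>
    rw [sum_range_succ]
    have h1 : (2 : ℝ) ^ (m + 1 + 1 + b) = 2 ^ (m + 1 + b) + 2 ^ (m + 1 + b) := by
      rw [← two_mul, ← pow_succ']
      congr 1
      ring
    rw [h1]
    linarith

theorem coeff_pow_le {R : ℝ} (hR : 1 ≤ R) {w : PowerSeries ℂ}
    (hw : ∀ m, ‖PowerSeries.coeff m w‖ ≤ R ^ (m + 1)) (b m : ℕ) :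
    ‖PowerSeries.coeff m (w ^ b)‖ ≤ (2 * R) ^ (m + b) := by
  have hR0 : 0 ≤ R := by linarith
  induction b generalizing m with
  | zero =>
    rw [pow_zero, PowerSeries.coeff_one]
    have h1 : (1 : ℝ) ≤ (2 * R) ^ (m + 0) := one_le_pow₀ (by linarith)
    split_ifs
    · rw [norm_one]
      exact h1
    · rw [norm_zero]
      linarith
  | succ b ih =>
    rw [pow_succ, PowerSeries.coeff_mul]
    refine (norm_sum_le _ _).trans ?_
    have h1 : ∀ x ∈ antidiagonal m, ‖PowerSeries.coeff x.1 (w ^ b) * PowerSeries.coeff x.2 w‖ ≤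
        R ^ (m + b + 1) * (2 : ℝ) ^ (x.1 + b) := by
      intro x hx
      have hx' : x.1 + x.2 = m := mem_antidiagonal.1 hx
      rw [norm_mul]
      refine (mul_le_mul (ih x.1) (hw x.2) (norm_nonneg _) (by positivity)).trans (le_of_eq ?_)
      rw [mul_pow, ← hx']
      have h2 : x.1 + x.2 + b + 1 = (x.1 + b) + (x.2 + 1) := by ring
      rw [h2, pow_add R (x.1 + b)]
      ring
    refine (sum_le_sum h1).trans ?_
    rw [← mul_sum]
    have h2 := Finset.Nat.sum_antidiagonal_eq_sum_range_succ (fun k _ => (2 : ℝ) ^ (k + b)) m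
    rw [h2, mul_pow]
    have h3 : m + (b + 1) = m + b + 1 := by ring
    have h4 := ub_geom b m
    have h5 : m + 1 + b = m + b + 1 := by ring
    rw [h5] at h4
    rw [h3, mul_comm ((2 : ℝ) ^ (m + b + 1))]
    exact mul_le_mul_of_nonneg_left h4 (by positivity)

theorem uu_le {q e : ℕ} (hq : 1 ≤ q) {R : ℝ} (hR : 1 ≤ R) {w : PowerSeries ℂ}
    (hw : ∀ m, ‖PowerSeries.coeff m w‖ ≤ R ^ (m + 1)) (D a b m : ℕ) :
    ‖PowerSeries.coeff m (uu q e w D a b)‖ ≤ (2 * q * R) ^ (m + b) := by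
  have hR0 : 0 ≤ R := by linarith
  have hq1 : (1 : ℝ) ≤ q := by exact_mod_cast hq
  obtain ⟨n, hn⟩ : ∃ n, n = e * (D - a - b) := ⟨_, rfl⟩
  have h1 : uu q e w D a b =
      PowerSeries.C ((q : ℂ) ^ n) * (PowerSeries.X ^ n * w ^ b) := by
    unfold uu
    rw [← pow_mul, ← hn, mul_pow, ← map_pow, mul_assoc]
  rw [h1, PowerSeries.coeff_C_mul, PowerSeries.coeff_X_pow_mul']
  have h2 : (0 : ℝ) ≤ (2 * q * R) ^ (m + b) := by positivity
  split_ifs with h
  · rw [norm_mul, norm_pow, Complex.norm_natCast]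
    have h3 := coeff_pow_le hR hw b (m - n)
    calc (q : ℝ) ^ n * ‖PowerSeries.coeff (m - n) (w ^ b)‖ ≤
          (q : ℝ) ^ (m + b) * (2 * R) ^ (m + b) := by
          refine mul_le_mul ?_ (h3.trans ?_) (norm_nonneg _) (by positivity)
          · exact pow_le_pow_right₀ hq1 (by omega)
          · exact pow_le_pow_right₀ (by linarith) (by omega)
      _ = (2 * q * R) ^ (m + b) := by
          rw [← mul_pow]
          congr 1
          ring
  · rw [mul_zero, norm_zero]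
    exact h2

end Pool.Agent.H52.AC
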