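import Pool.Agent.H52.AC.Defs

/-! # [AC-LIO] Small algebraic integers with small conjugates are zero

Proof. Fix `p`, `α = v p`, an algebraic integer; let `P = minpoly ℤ α` (monic, irreducible,
`minpoly.isIntegrallyClosed_eq_field_fractions'`: its image in `ℚ[X]` is `minpoly ℚ α`). Every root
`β ∈ ℂ` of `P` is `σ a` for `a : AA` with `(a : ℂ) = α` and some ring homomorphism `σ : AA →+* ℂ`
(`IntermediateField.exists_algHom_of_splits_of_aeval`, used in `galA_mem`,
`Pool/Agent/H87/SA2/GALA.lean`; or `IsAlgClosed.lift` from `ℚ(α)`), so `β = v p'` and `‖β‖ < 1`.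
`P` mapped to `ℂ[X]` is the product of `X - C β` over its roots (`IsAlgClosed.splits`,
`Polynomial.prod_multiset_X_sub_C_of_monic_of_roots_card_eq` or
`Polynomial.Splits.eq_prod_roots_of_monic`), so `|P(0)| = ∏ ‖β‖ < 1` if there is at least one
root (degree `≥ 1`), so the integer `P(0)` is `0`, `X ∣ P`, `P` irreducible monic: `P = X`, `α = 0`.
(Alternative: `P(0) = 0` and `minpoly.coeff_zero_eq_zero` : `coeff 0 (minpoly) = 0 ↔ α = 0`.)
Compare `Pool/Agent/H87/SX/XLI.lean` and `Pool/Agent/H97/XC/Liou.lean` for similar proofs. -/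

namespace Pool.Agent.H52.AC

open Finset Polynomial Pool.Agent.H87.SA2

theorem prod_norm_lt_LIO (s : Multiset ℂ) (h : ∀ β ∈ s, ‖β‖ < 1) (hs : s ≠ 0) :
    (s.map (fun β => ‖β‖)).prod < 1 := by
  have h1 : ∀ t : Multiset ℂ, (∀ β ∈ t, ‖β‖ < 1) → (t.map (fun β => ‖β‖)).prod ≤ 1 := by
    intro t
    induction t using Multiset.induction_on with
    | empty => intro _; simp
    | cons a t ih =>
      intro ht
      rw [Multiset.map_cons, Multiset.prod_cons]
      refine mul_le_one₀ (ht a (Multiset.mem_cons_self a t)).le ?_ ?_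
      · refine Multiset.prod_nonneg fun x hx => ?_
        rw [Multiset.mem_map] at hx
        obtain ⟨β, _, rfl⟩ := hx
        exact norm_nonneg _
      · exact ih fun β hβ => ht β (Multiset.mem_cons_of_mem hβ)
  obtain ⟨a, ha⟩ := Multiset.exists_mem_of_ne_zero hs
  obtain ⟨t, rfl⟩ := Multiset.exists_cons_of_mem ha
  rw [Multiset.map_cons, Multiset.prod_cons]
  have h2 := h1 t fun β hβ => h β (Multiset.mem_cons_of_mem hβ)
  have h3 := h a (Multiset.mem_cons_self a t)
  calc ‖a‖ * (t.map (fun β => ‖β‖)).prod ≤ ‖a‖ * 1 :=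
        mul_le_mul_of_nonneg_left h2 (norm_nonneg _)
    _ < 1 := by rwa [mul_one]

theorem root_lt_LIO {ι : Type*} (v : ι → ℂ) (hint : ∀ p, IsIntegral ℤ (v p))
    (hperm : ∀ σ : AA →+* ℂ, ∀ p, ∃ p', ∀ a : AA, (a : ℂ) = v p → σ a = v p')
    (hlt : ∀ p, ‖v p‖ < 1) (p : ι) (β : ℂ)
    (hβ : Polynomial.aeval β (minpoly ℚ (v p)) = 0) : ‖β‖ < 1 := by
  have halg : IsAlgebraic ℚ (v p) := (hint p).tower_top.isAlgebraic
  have hmem : v p ∈ AA := mem_algebraicClosure_iff.mpr halg
  set a : AA := ⟨v p, hmem⟩ with ha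
  have hint' : IsIntegral ℚ a := by
    rw [← isIntegral_algebraMap_iff (algebraMap AA ℂ).injective]
    exact (hint p).tower_top
  have hmin : minpoly ℚ a = minpoly ℚ (v p) :=
    (minpoly.algebraMap_eq (algebraMap AA ℂ).injective a).symm
  have hAA : Algebra.IsAlgebraic ℚ AA := algebraicClosure.isAlgebraic ℚ ℂ
  have hset := Algebra.IsAlgebraic.range_eval_eq_rootSet_minpoly (F := ℚ) (K := AA) ℂ a
  have hroot : β ∈ (minpoly ℚ a).rootSet ℂ := by
    rw [Polynomial.mem_rootSet]
    exact ⟨minpoly.ne_zero hint', by rw [hmin]; exact hβ⟩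
  rw [← hset] at hroot
  obtain ⟨ψ, hψ⟩ := hroot
  obtain ⟨p', hp'⟩ := hperm ψ.toRingHom p
  have h1 := hp' a rfl
  have h2 : β = v p' := by
    rw [← hψ]
    exact h1
  rw [h2]
  exact hlt p'

theorem liou_zero {ι : Type*} (v : ι → ℂ) (hint : ∀ p, IsIntegral ℤ (v p))
    (hperm : ∀ σ : AA →+* ℂ, ∀ p, ∃ p', ∀ a : AA, (a : ℂ) = v p → σ a = v p')
    (hlt : ∀ p, ‖v p‖ < 1) (p : ι) : v p = 0 := by
  have hi := hint p
  set P : ℤ[X] := minpoly ℤ (v p) with hP
  have hmonic : P.Monic := minpoly.monic hi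
  have hfrac : minpoly ℚ (v p) = P.map (algebraMap ℤ ℚ) :=
    minpoly.isIntegrallyClosed_eq_field_fractions' ℚ hi
  have hiQ : IsIntegral ℚ (v p) := hi.tower_top
  set Q : ℂ[X] := (minpoly ℚ (v p)).map (algebraMap ℚ ℂ) with hQ
  have hQm : Q.Monic := (minpoly.monic hiQ).map _
  have hQdeg : Q.natDegree ≠ 0 := by
    rw [hQ, natDegree_map]
    exact (minpoly.natDegree_pos hiQ).ne'
  have hsplit : Q.Splits := IsAlgClosed.splits Q
  have hroots : Q.roots ≠ 0 := by
    intro h
    have := hsplit.natDegree_eq_card_roots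
    rw [h, Multiset.card_zero] at this
    exact hQdeg this
  have heval : Q.eval 0 = (Q.roots.map fun β => 0 - β).prod := by
    rw [hsplit.eval_eq_prod_roots_of_monic hQm]
  have hnorm : ‖Q.eval 0‖ < 1 := by
    rw [heval]
    have h1 : ‖(Q.roots.map fun β => 0 - β).prod‖ = (Q.roots.map fun β => ‖β‖).prod := by
      induction Q.roots using Multiset.induction_on with
      | empty => simp
      | cons a t ih =>
        rw [Multiset.map_cons, Multiset.prod_cons, Multiset.map_cons, Multiset.prod_cons, norm_mul,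
          ih, zero_sub, norm_neg]
    rw [h1]
    refine prod_norm_lt_LIO _ (fun β hβ => ?_) hroots
    refine root_lt_LIO v hint hperm hlt p β ?_
    have h2 := (mem_roots'.mp hβ).2
    rw [IsRoot.def, hQ, eval_map_algebraMap] at h2
    exact h2
  have hc : Q.eval 0 = ((P.coeff 0 : ℤ) : ℂ) := by
    rw [← coeff_zero_eq_eval_zero, hQ, coeff_map, hfrac, coeff_map]
    simp
  rw [hc, Complex.norm_intCast] at hnorm
  have hz : P.coeff 0 = 0 := by
    have h3 : |P.coeff 0| < 1 := by exact_mod_cast hnorm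
    rwa [Int.abs_lt_one_iff] at h3
  have hz2 : (minpoly ℚ (v p)).coeff 0 = 0 := by
    rw [hfrac, coeff_map, hz, map_zero]
  exact (minpoly.coeff_zero_eq_zero hiQ).mp hz2

end Pool.Agent.H52.AC
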