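import Pool.Agent.H52.AC.Defs

/-! # [AC-PRM] Automorphisms permute the branches

Proof. `perm_gal`: as `Pool.Agent.H87.SX.xcj_perm` (`Pool/Agent/H87/SX/XCJ.lean`, the proof is
complete there for `q = 1`; here `(C q * X)^e` with `q = pd.q`, `map_natCast`; algebraicity of the
coefficients from `pd.integral`), by `Pool.Agent.H87.SA2.perm_aux`.
`perm_rot`: `Pool.Agent.H87.SA2.perm_aux` with `Z = ℤ[X]`, `A = B = PowerSeries ℂ`, `φ = tq e q`,
`τ = PowerSeries.rescale ζ` (injective as `ζ ≠ 0`: compare coefficients, `PowerSeries.coeff_rescale`),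
`ι = RingHom.id`; `τ.comp φ = φ`: `Polynomial.ringHom_ext`, `rescale ζ (C q * X) = C q * (C ζ * X)`
and `ζ^e = 1`.
`exists_conj`: `perm_gal` with `σ = (starRingEnd ℂ).comp (algebraMap AA ℂ)` gives `π` with
`coeff m (x (π i)) = conj (coeff m (x i))` (every coefficient is in `AA`); `π (π i) = i` by
`pd.x_inj`; `kp.gal` with this `σ` gives the last statement: `kp.kap i z` is algebraic (`k` is a
number field, so `z` is algebraic over `ℚ`), so it is `(a : ℂ)` for an `a : AA`. -/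

namespace Pool.Agent.H52.AC

open Finset Polynomial Pool.Agent.H87.SA2 Pool.Agent.H8.AW

theorem coeff_mem {f : ℤ[X][X]} {d : ℕ} (pd : PData f d) (i : Fin d) (m : ℕ) :
    PowerSeries.coeff m (pd.x i) ∈ AA := by
  rw [mem_algebraicClosure_iff]
  exact (pd.integral i m).isAlgebraic.extendScalars Int.cast_injective

theorem perm_gal {f : ℤ[X][X]} {d : ℕ} (pd : PData f d) (σ : AA →+* ℂ) :
    ∃ π : Equiv.Perm (Fin d), ∀ (i : Fin d) (m : ℕ) (a : AA),
      (a : ℂ) = PowerSeries.coeff m (pd.x i) → σ a = PowerSeries.coeff m (pd.x (π i)) := by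
  have hA : ∀ i k, PowerSeries.coeff k (pd.x i) ∈ AA := fun i k => coeff_mem pd i k
  obtain ⟨ι, hι⟩ : ∃ ι : AA →+* ℂ, ι = algebraMap AA ℂ := ⟨_, rfl⟩
  have hιa : ∀ a : AA, ι a = (a : ℂ) := by
    intro a
    rw [hι]
    rfl
  obtain ⟨ξ, hξ⟩ : ∃ ξ : Fin d → PowerSeries AA,
    ξ = fun i => PowerSeries.mk fun k => (⟨PowerSeries.coeff k (pd.x i), hA i k⟩ : AA) := ⟨_, rfl⟩
  have hξc : ∀ i k, PowerSeries.coeff k (ξ i) =
      (⟨PowerSeries.coeff k (pd.x i), hA i k⟩ : AA) := by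
    intro i k
    rw [hξ, PowerSeries.coeff_mk]
  have hξi : ∀ i, PowerSeries.map ι (ξ i) = pd.x i := by
    intro i
    ext k
    rw [PowerSeries.coeff_map, hξc, hιa]
  have hξinj : Function.Injective ξ := by
    intro i j hij
    apply pd.x_inj
    rw [← hξi i, ← hξi j, hij]
  have hιinj : Function.Injective (PowerSeries.map ι) := PowerSeries.map_injective ι ι.injective
  have hσinj : Function.Injective (PowerSeries.map σ) := PowerSeries.map_injective σ σ.injective
  obtain ⟨φ, hφ⟩ : ∃ φ : ℤ[X] →+* PowerSeries AA, φ = eval₂RingHom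
    (Int.castRingHom (PowerSeries AA))
      ((PowerSeries.C ((pd.q : ℕ) : AA) * PowerSeries.X) ^ pd.e) := ⟨_, rfl⟩
  have hcomp : ∀ τ : AA →+* ℂ, (PowerSeries.map τ).comp φ = tq pd.e pd.q := by
    intro τ
    apply Polynomial.ringHom_ext
    · intro a
      simp [tq]
    · rw [hφ, RingHom.comp_apply, coe_eval₂RingHom, tq, coe_eval₂RingHom, eval₂_X, eval₂_X,
        map_pow, map_mul, PowerSeries.map_X, PowerSeries.map_C, map_natCast]
  have hsplit : f.map φ = ∏ i, (X - C (ξ i)) := by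
    apply Polynomial.map_injective (PowerSeries.map ι) hιinj
    rw [Polynomial.map_map, hcomp, pd.split, Polynomial.map_prod]
    refine Finset.prod_congr rfl fun i _ => ?_
    rw [Polynomial.map_sub, Polynomial.map_X, Polynomial.map_C, hξi]
  obtain ⟨π, hπ⟩ := perm_aux φ (PowerSeries.map σ) (PowerSeries.map ι)
    (by rw [hcomp, hcomp]) hσinj ξ hξinj f hsplit
  refine ⟨π, fun i k a ha => ?_⟩
  have h1 := congrArg (PowerSeries.coeff k) (hπ i)
  rw [PowerSeries.coeff_map, PowerSeries.coeff_map, hξc, hξc, hιa] at h1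
  have h2 : a = (⟨PowerSeries.coeff k (pd.x i), hA i k⟩ : AA) := Subtype.ext ha
  rw [h2]
  exact h1

theorem perm_rot {f : ℤ[X][X]} {d : ℕ} (pd : PData f d) {ζ : ℂ} (hζ : ζ ^ pd.e = 1) :
    ∃ ρ : Equiv.Perm (Fin d), ∀ i, PowerSeries.rescale ζ (pd.x i) = pd.x (ρ i) := by
  have hζ0 : ζ ≠ 0 := by
    rintro rfl
    rw [zero_pow (Nat.one_le_iff_ne_zero.1 pd.e_pos)] at hζ
    exact zero_ne_one hζ
  have hinj : Function.Injective (PowerSeries.rescale ζ) := by
    intro a b hab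
    ext m
    have h1 := congrArg (PowerSeries.coeff m) hab
    rw [PowerSeries.coeff_rescale, PowerSeries.coeff_rescale] at h1
    exact mul_left_cancel₀ (pow_ne_zero m hζ0) h1
  have hcomp : (PowerSeries.rescale ζ).comp (tq pd.e pd.q) =
      (RingHom.id (PowerSeries ℂ)).comp (tq pd.e pd.q) := by
    apply Polynomial.ringHom_ext
    · intro a
      simp [tq]
    · rw [RingHom.comp_apply, RingHom.comp_apply, RingHom.id_apply, tq, coe_eval₂RingHom,
        eval₂_X, map_pow, map_mul, PowerSeries.rescale_X]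
      have h1 : PowerSeries.rescale ζ (PowerSeries.C ((pd.q : ℕ) : ℂ)) =
          PowerSeries.C ((pd.q : ℕ) : ℂ) := by
        rw [map_natCast, map_natCast]
      rw [h1, mul_pow, mul_pow, mul_pow, ← map_pow PowerSeries.C ζ, hζ, map_one, one_mul]
  obtain ⟨ρ, hρ⟩ := perm_aux (tq pd.e pd.q) (PowerSeries.rescale ζ)
    (RingHom.id (PowerSeries ℂ)) hcomp hinj pd.x pd.x_inj f pd.split
  exact ⟨ρ, fun i => by rw [hρ i, RingHom.id_apply]⟩

theorem kap_mem {k : Type} [Field k] [NumberField k] (φ : k →+* ℂ) (z : k) : φ z ∈ AA := by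
  rw [mem_algebraicClosure_iff]
  have h1 : IsAlgebraic ℚ z := Algebra.IsAlgebraic.isAlgebraic z
  exact h1.algHom φ.toRatAlgHom

theorem exists_conj {k : Type} [Field k] [NumberField k] {f : ℤ[X][X]} {d : ℕ} {pd : PData f d}
    (kp : Kap k pd) : ∃ c : Fin d → Fin d, (∀ i, c (c i) = i) ∧
      (∀ i m, PowerSeries.coeff m (pd.x (c i)) =
        (starRingEnd ℂ) (PowerSeries.coeff m (pd.x i))) ∧
      ∀ i z, kp.kap (c i) z = (starRingEnd ℂ) (kp.kap i z) := by
  obtain ⟨σ, hσ⟩ : ∃ σ : AA →+* ℂ, ∀ a : AA, σ a = (starRingEnd ℂ) (a : ℂ) :=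
    ⟨(starRingEnd ℂ).comp (algebraMap AA ℂ), fun a => rfl⟩
  obtain ⟨π, hπ⟩ := perm_gal pd σ
  have h1 : ∀ i m, PowerSeries.coeff m (pd.x (π i)) =
      (starRingEnd ℂ) (PowerSeries.coeff m (pd.x i)) := by
    intro i m
    have h2 := hπ i m ⟨PowerSeries.coeff m (pd.x i), coeff_mem pd i m⟩ rfl
    rw [hσ] at h2
    exact h2.symm
  refine ⟨π, fun i => ?_, h1, fun i z => ?_⟩
  · apply pd.x_inj
    ext m
    rw [h1, h1, Complex.conj_conj]
  · have h2 := kp.gal σ i (π i) (hπ i) z ⟨kp.kap i z, kap_mem (kp.kap i) z⟩ rfl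
    rw [hσ] at h2
    exact h2.symm

end Pool.Agent.H52.AC
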