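import Pool.Agent.H52.AC.Defs

/-! # [AC-UR] The substitutions `T ↦ ζ T`, complex conjugation, and the Fourier argument

Proof. `uu_rot`: `PowerSeries.rescale ζ` is a ring homomorphism with
`rescale ζ (C c) = C c`, `rescale ζ X = C ζ * X`, so `(C q * C ζ * X)^e = (C q * X)^e` as
`ζ^e = 1`, hence `uu q e (rescale ζ w) D a b = rescale ζ (uu q e w D a b)`, and
`PowerSeries.coeff_rescale`.
`Vc_rot`: unfold `Vc`, `Bc`, `sm`; every product of coefficients gets the factor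
`ζ^(e1 K + r) ξ^(e2 L + s) = ζ^r ξ^s`.
`Vc_conj`: if the coefficients of `w'` are the complex conjugates of those of `w`, then
`w' = PowerSeries.map (starRingEnd ℂ) w`, and the same for `uu` (ring homomorphism, fixes `C q` and
`X`); sums.
`fourier_zero`: for fixed `ξ` the polynomial `∑_r (∑_s ξ^s B r s) X^r` has degree `< e1` and
vanishes at the `e1` different `e1`-th roots of unity (`Complex.card_rootsOfUnity`,
`Polynomial.card_nthRoots`, `IsPrimitiveRoot` `Complex.isPrimitiveRoot_exp`), so it is `0`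
(`Polynomial.eq_zero_of_natDegree_lt_card_of_eval_eq_zero'` or
`Polynomial.card_le_degree_of_subset_roots`); so `∑_s ξ^s B r s = 0` for all `r < e1` and all
`ξ` with `ξ^e2 = 1`; the same argument gives `B r s = 0`. -/

namespace Pool.Agent.H52.AC

open Finset Polynomial

theorem uu_rescale_UR {ζ : ℂ} {q e : ℕ} (hζ : ζ ^ e = 1) (w : PowerSeries ℂ) (D a b : ℕ) :
    uu q e (PowerSeries.rescale ζ w) D a b = PowerSeries.rescale ζ (uu q e w D a b) := by
  have h1 : PowerSeries.rescale ζ (PowerSeries.C (q : ℂ)) = PowerSeries.C (q : ℂ) := by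
    rw [map_natCast, map_natCast]
  have h2 : (PowerSeries.C (q : ℂ) * (PowerSeries.C ζ * PowerSeries.X)) ^ e =
      (PowerSeries.C (q : ℂ) * PowerSeries.X) ^ e := by
    have h3 : (PowerSeries.C ζ : PowerSeries ℂ) ^ e = 1 := by
      rw [← map_pow, hζ, map_one]
    rw [mul_pow, mul_pow, h3, one_mul, mul_pow]
  rw [uu, uu, map_mul, map_pow, map_pow, map_pow, map_mul, h1, PowerSeries.rescale_X, h2]

theorem uu_rot {ζ : ℂ} {q e : ℕ} (hζ : ζ ^ e = 1) (w : PowerSeries ℂ) (D a b m : ℕ) :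
    PowerSeries.coeff m (uu q e (PowerSeries.rescale ζ w) D a b) =
      ζ ^ m * PowerSeries.coeff m (uu q e w D a b) := by
  rw [uu_rescale_UR hζ, PowerSeries.coeff_rescale]

theorem sm_smul_UR (d1 d2 : ℕ) (A : ℕ → ℕ → ℕ → ℕ → ℤ) (u v : ℕ → ℕ → ℂ) (c c' : ℂ) :
    Pool.Agent.H8.KF.sm d1 d2 A (fun a b => c * u a b) (fun p q => c' * v p q) =
      c * c' * Pool.Agent.H8.KF.sm d1 d2 A u v := by
  simp only [Pool.Agent.H8.KF.sm, mul_sum]
  refine sum_congr rfl fun i _ => sum_congr rfl fun j _ => sum_congr rfl fun p _ =>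
    sum_congr rfl fun q _ => ?_
  ring

theorem Vc_rot {ζ ξ : ℂ} {q1 e1 q2 e2 : ℕ} (hζ : ζ ^ e1 = 1) (hξ : ξ ^ e2 = 1)
    (w1 w2 : PowerSeries ℂ) (D1 D2 : ℕ) (A : ℕ → ℕ → ℕ → ℕ → ℤ) (K L : ℕ) :
    Vc D1 D2 A q1 e1 q2 e2 (PowerSeries.rescale ζ w1) (PowerSeries.rescale ξ w2) K L =
      ∑ r ∈ range e1, ∑ s ∈ range e2,
        ζ ^ r * ξ ^ s * Bc D1 D2 A q1 e1 q2 e2 w1 w2 (e1 * K + r) (e2 * L + s) := by
  rw [Vc]
  refine sum_congr rfl fun r _ => sum_congr rfl fun s _ => ?_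
  have h1 : ζ ^ (e1 * K + r) = ζ ^ r := by
    rw [pow_add, pow_mul, hζ, one_pow, one_mul]
  have h2 : ξ ^ (e2 * L + s) = ξ ^ s := by
    rw [pow_add, pow_mul, hξ, one_pow, one_mul]
  rw [Bc, Bc]
  simp only [uu_rot hζ, uu_rot hξ, h1, h2]
  exact sm_smul_UR _ _ _ _ _ _ _

theorem uu_conj_UR {q e : ℕ} (w : PowerSeries ℂ) (D a b : ℕ) :
    uu q e (PowerSeries.map (starRingEnd ℂ) w) D a b =
      PowerSeries.map (starRingEnd ℂ) (uu q e w D a b) := by
  simp only [uu, map_mul, map_pow, PowerSeries.map_X, map_natCast]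

theorem sm_conj_UR (d1 d2 : ℕ) (A : ℕ → ℕ → ℕ → ℕ → ℤ) (u v : ℕ → ℕ → ℂ) :
    (starRingEnd ℂ) (Pool.Agent.H8.KF.sm d1 d2 A u v) =
      Pool.Agent.H8.KF.sm d1 d2 A (fun i j => (starRingEnd ℂ) (u i j))
        (fun p q => (starRingEnd ℂ) (v p q)) := by
  simp [Pool.Agent.H8.KF.sm, map_sum, map_mul]

theorem Vc_conj {q1 e1 q2 e2 : ℕ} {w1 w1' w2 w2' : PowerSeries ℂ}
    (h1 : ∀ m, PowerSeries.coeff m w1' = (starRingEnd ℂ) (PowerSeries.coeff m w1))
    (h2 : ∀ m, PowerSeries.coeff m w2' = (starRingEnd ℂ) (PowerSeries.coeff m w2))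
    (D1 D2 : ℕ) (A : ℕ → ℕ → ℕ → ℕ → ℤ) (K L : ℕ) :
    Vc D1 D2 A q1 e1 q2 e2 w1' w2' K L =
      (starRingEnd ℂ) (Vc D1 D2 A q1 e1 q2 e2 w1 w2 K L) := by
  have e1' : w1' = PowerSeries.map (starRingEnd ℂ) w1 := by
    ext m
    rw [PowerSeries.coeff_map, h1]
  have e2' : w2' = PowerSeries.map (starRingEnd ℂ) w2 := by
    ext m
    rw [PowerSeries.coeff_map, h2]
  rw [e1', e2', Vc, Vc, map_sum]
  refine sum_congr rfl fun r _ => ?_
  rw [map_sum]
  refine sum_congr rfl fun s _ => ?_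
  rw [Bc, Bc, sm_conj_UR]
  simp only [uu_conj_UR, PowerSeries.coeff_map]

theorem fourier_one_UR {e : ℕ} (he : 1 ≤ e) (c : ℕ → ℂ)
    (h : ∀ ζ : ℂ, ζ ^ e = 1 → ∑ r ∈ range e, ζ ^ r * c r = 0) : ∀ r < e, c r = 0 := by
  set p : ℂ[X] := ∑ r ∈ range e, C (c r) * X ^ r with hp
  have hprim : IsPrimitiveRoot (Complex.exp (2 * Real.pi * Complex.I / e)) e :=
    Complex.isPrimitiveRoot_exp e (by omega)
  have hcard : (nthRootsFinset e (1 : ℂ)).card = e := hprim.card_nthRootsFinset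
  have hcoeff : ∀ r, p.coeff r = if r < e then c r else 0 := by
    intro r
    rw [hp, finsetSum_coeff]
    simp only [coeff_C_mul, coeff_X_pow, mul_ite, mul_one, mul_zero, sum_ite_eq, mem_range]
  have hp0 : p = 0 := by
    refine eq_zero_of_natDegree_lt_card_of_eval_eq_zero' p (nthRootsFinset e (1 : ℂ)) ?_ ?_
    · intro ζ hζ
      rw [mem_nthRootsFinset (by omega)] at hζ
      rw [hp, eval_finsetSum, ← h ζ hζ]
      refine sum_congr rfl fun r _ => ?_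
      rw [eval_mul, eval_C, eval_pow, eval_X, mul_comm]
    · rw [hcard]
      by_contra hlt
      have hlead : p.coeff p.natDegree = 0 := by rw [hcoeff, if_neg hlt]
      have hp00 : p = 0 := leadingCoeff_eq_zero.mp hlead
      rw [hp00, natDegree_zero] at hlt
      omega
  intro r hr
  have := hcoeff r
  rw [hp0, coeff_zero, if_pos hr] at this
  exact this.symm

theorem fourier_zero {e1 e2 : ℕ} (h1 : 1 ≤ e1) (h2 : 1 ≤ e2) (B : ℕ → ℕ → ℂ)
    (h : ∀ ζ ξ : ℂ, ζ ^ e1 = 1 → ξ ^ e2 = 1 →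
      ∑ r ∈ range e1, ∑ s ∈ range e2, ζ ^ r * ξ ^ s * B r s = 0) :
    ∀ r < e1, ∀ s < e2, B r s = 0 := by
  intro r hr
  refine fourier_one_UR h2 (B r) ?_
  intro ξ hξ
  refine fourier_one_UR h1 (fun r => ∑ s ∈ range e2, ξ ^ s * B r s) ?_ r hr
  intro ζ hζ
  rw [← h ζ ξ hζ hξ]
  refine sum_congr rfl fun r _ => ?_
  rw [mul_sum]
  refine sum_congr rfl fun s _ => ?_
  ring

end Pool.Agent.H52.AC
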