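import Pool.Agent.H52.AC.PRM

/-! # [AC-FIB] The number of pairs of branches with the same embedding of `k`

Proof. `fib_eq`. `φ` has values in `AA` (`kap_mem`): `φ = ι ∘ φ0`, `φ0 : k →+* AA`, `ι` the
inclusion. There is `σ : AA →+* ℂ` with `σ ∘ φ0 = ψ`: `AA` is an algebraic extension of `k` via `φ0`
(`AA` is algebraic over `ℚ`), `ℂ` is algebraically closed and a `k`-algebra via `ψ`: `IsAlgClosed.lift`.
Let `π` be the permutation of `perm_gal pd σ`. By `kp.gal`: `kap (π i) z = σ a` where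
`(a : ℂ) = kap i z` (`kap_mem`). So `kap i = φ` implies `kap (π i) = ψ` (take `a = φ0 z`).
Conversely `kap (π i) = ψ`: `σ a = ψ z = σ (φ0 z)`, so `a = φ0 z` (`σ` is injective), `kap i = φ`.
So `π` is a bijection of the two fibres (`Finset.card_bij` or `Finset.card_equiv`).
`card_PP`: let `N_j(φ)` be the number of `i` with `kap_j i = φ`. By `fib_eq` it does not depend on `φ`,
say `N_j`; `d_j = ∑_φ N_j(φ) = r N_j`, `r = card (k →+* ℂ) = finrank ℚ k`
(`NumberField.Embeddings.card k ℂ`; `Finset.card_eq_sum_card_fiberwise`), and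
`card PP = ∑_φ N_1(φ) N_2(φ) = r N_1 N_2` (sum over `i` of the number of `j` with
`kap2 j = kap1 i`: `card PP = ∑_i N_2(kap1 i) = d1 N_2`). There is at least one `φ`, so
`card PP * r = d1 N_2 r = d1 d2`. -/

namespace Pool.Agent.H52.AC

open Finset Polynomial Pool.Agent.H87.SA2 Pool.Agent.H8.AW

private lemma fib_lift {k : Type} [Field k] [NumberField k] (φ ψ : k →+* ℂ) :
    ∃ (φ0 : k →+* AA) (σ : AA →+* ℂ), (∀ z, ((φ0 z : AA) : ℂ) = φ z) ∧ ∀ z, σ (φ0 z) = ψ z := by
  let φ0 : k →+* AA := φ.codRestrict AA.toSubring (fun z => kap_mem φ z)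
  let _i : Algebra k AA := φ0.toAlgebra
  let _i : Algebra k ℂ := ψ.toAlgebra
  have : IsScalarTower ℚ k AA := IsScalarTower.of_algebraMap_eq' (Subsingleton.elim _ _)
  have : Algebra.IsAlgebraic ℚ AA := algebraicClosure.isAlgebraic ℚ ℂ
  have : Algebra.IsAlgebraic k AA := Algebra.IsAlgebraic.tower_top (K := ℚ) k
  let σ : AA →ₐ[k] ℂ := IsAlgClosed.lift
  refine ⟨φ0, σ.toRingHom, fun z => rfl, fun z => ?_⟩
  exact σ.commutes z

open Classical in
theorem fib_eq {k : Type} [Field k] [NumberField k] {f : ℤ[X][X]} {d : ℕ} {pd : PData f d}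
    (kp : Kap k pd) (φ ψ : k →+* ℂ) :
    (univ.filter fun i => kp.kap i = φ).card = (univ.filter fun i => kp.kap i = ψ).card := by
  obtain ⟨φ0, σ, h0, h1⟩ := fib_lift φ ψ
  obtain ⟨π, hπ⟩ := perm_gal pd σ
  refine Finset.card_equiv π (fun i => ?_)
  simp only [mem_filter, mem_univ, true_and]
  constructor
  · intro h
    apply RingHom.ext
    intro z
    have h2 := kp.gal σ i (π i) (hπ i) z (φ0 z) (by rw [h0, h])
    rw [← h2, h1]
  · intro h
    apply RingHom.ext
    intro z
    have h2 := kp.gal σ i (π i) (hπ i) z ⟨kp.kap i z, kap_mem (kp.kap i) z⟩ rfl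
    rw [h, ← h1 z] at h2
    have h3 := σ.injective h2
    rw [← h0 z, ← h3]

theorem card_PP {k : Type} [Field k] [NumberField k] {f1 f2 : ℤ[X][X]} {d1 d2 : ℕ}
    {pd1 : PData f1 d1} {pd2 : PData f2 d2} (kp1 : Kap k pd1) (kp2 : Kap k pd2) :
    (PP kp1 kp2).card * Module.finrank ℚ k = d1 * d2 := by
  classical
  obtain ⟨φ₀⟩ : Nonempty (k →+* ℂ) := inferInstance
  obtain ⟨N2, hN2⟩ : ∃ N2, N2 = (univ.filter fun j => kp2.kap j = φ₀).card := ⟨_, rfl⟩
  have h1 : ∀ φ : k →+* ℂ, (univ.filter fun j => kp2.kap j = φ).card = N2 := by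
    intro φ
    rw [hN2]
    have := fib_eq kp2 φ φ₀
    exact this
  have h2 : d2 = Module.finrank ℚ k * N2 := by
    have h3 := Finset.card_eq_sum_card_fiberwise (f := kp2.kap) (s := univ)
      (t := (univ : Finset (k →+* ℂ))) (fun _ _ => mem_univ _)
    rw [Finset.card_univ, Fintype.card_fin] at h3
    rw [h3, Finset.sum_congr rfl (fun φ _ => h1 φ), sum_const, card_univ,
      NumberField.Embeddings.card k ℂ, smul_eq_mul]
  have h4 : (PP kp1 kp2).card = d1 * N2 := by
    have h5 : (PP kp1 kp2).card = ∑ i : Fin d1, (univ.filter fun j => kp2.kap j = kp1.kap i).card := by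
      unfold PP
      rw [Finset.card_filter, Fintype.sum_prod_type]
      apply Finset.sum_congr rfl
      intro i _
      rw [Finset.card_filter]
      apply Finset.sum_congr rfl
      intro j _
      by_cases hij : kp1.kap i = kp2.kap j
      · rw [if_pos hij, if_pos hij.symm]
      · rw [if_neg hij, if_neg (fun h => hij h.symm)]
    rw [h5, Finset.sum_congr rfl (fun i _ => h1 (kp1.kap i)), sum_const, card_univ,
      Fintype.card_fin, smul_eq_mul]
  rw [h4, mul_assoc, mul_comm N2, ← h2]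

end Pool.Agent.H52.AC
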