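import Pool.Agent.H8.AW.Defs
import Pool.Agent.H8.KF.Defs
import Pool.Agent.H72.ES.Biv

/-!
# MP_821da1_nt, AllCurves: the two-point theorem for curves with `k` at infinity -- definitions

`evz T w`: the value at `T` of the power series `w`.
`uu q e w D a b`: the expansion of `t^(D-a-b) z^b` along the branch `z = w(T)`, `t = (q T)^e`.
`Bc`: the coefficient of `T1^k T2^l` of the function
`∑ A a b p q t1^(D1-a-b) z1^b t2^(D2-p-q) z2^q` at a pair of branches `w1, w2`.
`Vc`: the sum of these coefficients over the cell `(K, L)`: `k ∈ [e1 K, e1 K + e1)`,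
`l ∈ [e2 L, e2 L + e2)`.
`PP`: the pairs of branches carrying the same embedding of `k`.
`TA`: the order of vanishing, `TA = 40 n la + 20 n + ea`, `ea = la / 2 + 1`.
`SuppA`: the support conditions of the auxiliary polynomial.
`specA`: the specialisation of the second pair of variables at an integer point.
-/

namespace Pool.Agent.H52.AC

open Finset Polynomial Pool.Agent.H72.ES Pool.Agent.H87.SA2 Pool.Agent.H8.KF Pool.Agent.H8.AW

/-- the value of a convergent power series -/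
noncomputable def evz (T : ℂ) (w : PowerSeries ℂ) : ℂ := ∑' m, PowerSeries.coeff m w * T ^ m

/-- the expansion of `t^(D-a-b) z^b` along the branch `w` -/
noncomputable def uu (q e : ℕ) (w : PowerSeries ℂ) (D a b : ℕ) : PowerSeries ℂ :=
  ((PowerSeries.C (q : ℂ) * PowerSeries.X) ^ e) ^ (D - a - b) * w ^ b

/-- the coefficient of `T1^k T2^l` of the function `A` at the pair of branches `w1, w2` -/
noncomputable def Bc (D1 D2 : ℕ) (A : ℕ → ℕ → ℕ → ℕ → ℤ) (q1 e1 q2 e2 : ℕ)
    (w1 w2 : PowerSeries ℂ) (k l : ℕ) : ℂ :=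
  sm D1 D2 A (fun a b => PowerSeries.coeff k (uu q1 e1 w1 D1 a b))
    (fun p q => PowerSeries.coeff l (uu q2 e2 w2 D2 p q))

/-- the sum of the coefficients over the cell `(K, L)` -/
noncomputable def Vc (D1 D2 : ℕ) (A : ℕ → ℕ → ℕ → ℕ → ℤ) (q1 e1 q2 e2 : ℕ)
    (w1 w2 : PowerSeries ℂ) (K L : ℕ) : ℂ :=
  ∑ r ∈ range e1, ∑ s ∈ range e2, Bc D1 D2 A q1 e1 q2 e2 w1 w2 (e1 * K + r) (e2 * L + s)

open Classical in
/-- the pairs of branches carrying the same embedding of `k` -/
noncomputable def PP {k : Type} [Field k] {f1 f2 : ℤ[X][X]} {d1 d2 : ℕ} {pd1 : PData f1 d1}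
    {pd2 : PData f2 d2} (kp1 : Kap k pd1) (kp2 : Kap k pd2) : Finset (Fin d1 × Fin d2) :=
  univ.filter fun p => kp1.kap p.1 = kp2.kap p.2

/-- the excess order -/
def ea (la : ℕ) : ℕ := la / 2 + 1

/-- the order of vanishing -/
def TA (n la : ℕ) : ℕ := 40 * n * la + 20 * n + ea la

/-- the support conditions of the auxiliary polynomial -/
def SuppA (n d1 d2 la : ℕ) (A : ℕ → ℕ → ℕ → ℕ → ℤ) : Prop :=
  ∀ a b p q, A a b p q ≠ 0 → (a + b ≤ 20 * n * la ∧ b < d1) ∧ (p < 19 * n ∧ q < d2)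

/-- the specialisation of the second pair of variables at an integer point -/
def specA (n : ℕ) (A : ℕ → ℕ → ℕ → ℕ → ℤ) (x2 y2 : ℤ) : ℕ → ℕ → ℤ := fun a b =>
  ev (20 * n) (A a b) x2 y2

/-- the value of the function `A` at a pair of convergent branches -/
noncomputable def gA (D1 D2 : ℕ) (A : ℕ → ℕ → ℕ → ℕ → ℤ) (q1 e1 q2 e2 : ℕ)
    (w1 w2 : PowerSeries ℂ) (T1 T2 : ℂ) : ℂ :=
  sm D1 D2 A (fun a b => evz T1 (uu q1 e1 w1 D1 a b)) (fun p q => evz T2 (uu q2 e2 w2 D2 p q))

end Pool.Agent.H52.AC
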