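import Pool.Agent.H52.AC.Defs
import Pool.Agent.H72.ES.NormPoly

/-! # [AC-NPG] The norm to `ℤ[x]` of a function on the curve

`Pool.Agent.H72.ES.norm_poly` with the irreducibility of the leading form replaced by the injectivity
hypothesis used in its proof. -/

namespace Pool.Agent.H52.AC

open Finset Polynomial Pool.Agent.H72.ES

theorem norm_polyI {n Q : ℕ} {f : ℤ[X]} {F : ℕ → ℕ → ℤ} (hF : Norml n Q f F)
    (x1 κ : ℤ) (Y : PowerSeries ℤ)
    (hY : Lam (xs x1 κ) Y (toP n F) = 0)
    (hinj : ∀ p : ℤ[X][X], p ≠ 0 → p.natDegree < n → Lam (xs x1 κ) Y p ≠ 0) (W : ℤ[X][X]) (hW : Lam (xs x1 κ) Y W ≠ 0) (D : ℕ)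
    (hWd : W.natDegree ≤ D) :
    ∃ N : ℤ[X], N ≠ 0 ∧ L1 N ≤ (n.factorial : ℝ) * (L2 W * ((Q : ℝ) ^ 3) ^ D) ^ n ∧
      Lam (xs x1 κ) Y W ∣ N.eval₂ (Int.castRingHom (PowerSeries ℤ)) (xs x1 κ) := by
  have hn := hF.hn
  have hQ := hF.hQ
  have hQ1 := one_le_QR hn hQ
  set ψ : ℤ[X] →+* PowerSeries ℤ := eval₂RingHom (Int.castRingHom (PowerSeries ℤ)) (xs x1 κ)
    with hψ
  set Γ := Pool.Agent.H72.ES.comp n F with hΓ
  set M : Matrix (Fin n) (Fin n) ℤ[X] := ∑ k ∈ range (D + 1), W.coeff k • Γ ^ k with hM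
  set v : Fin n → PowerSeries ℤ := fun i => Y ^ (i : ℕ) with hv
  -- column bound
  have hMb : ColB M (L2 W * ((Q : ℝ) ^ 3) ^ D) := by
    have h1 : ColB M (∑ k ∈ range (D + 1), L1 (W.coeff k) * ((Q : ℝ) ^ 3) ^ k) := by
      refine ColB.sum _ _ _ fun k _ => ?_
      exact ((comp_colB hF).pow (by positivity) k).smul _
    have h2 : ∑ k ∈ range (D + 1), L1 (W.coeff k) * ((Q : ℝ) ^ 3) ^ k ≤
        L2 W * ((Q : ℝ) ^ 3) ^ D := by
      calc ∑ k ∈ range (D + 1), L1 (W.coeff k) * ((Q : ℝ) ^ 3) ^ k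
          ≤ ∑ k ∈ range (D + 1), L1 (W.coeff k) * ((Q : ℝ) ^ 3) ^ D := by
            refine sum_le_sum fun k hk => mul_le_mul_of_nonneg_left ?_ (L1_nonneg _)
            refine pow_le_pow_right₀ (one_le_pow₀ hQ1) ?_
            simp only [mem_range] at hk
            omega
        _ = (∑ k ∈ range (D + 1), L1 (W.coeff k)) * ((Q : ℝ) ^ 3) ^ D := by rw [sum_mul]
        _ ≤ L2 W * ((Q : ℝ) ^ 3) ^ D := by
            refine mul_le_mul_of_nonneg_right ?_ (by positivity)
            unfold L2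
            refine le_of_eq (Eq.symm (sum_subset ?_ ?_))
            · intro k hk
              simp only [mem_range]
              have := le_natDegree_of_mem_supp k hk
              omega
            · intro k _ hk
              rw [notMem_support_iff.1 hk, L1_zero]
    intro j
    exact (h1 j).trans h2
  -- action on v
  have hYn : Y ^ n = - ∑ i ∈ range n, ψ ((toP n F).coeff i) * Y ^ i := by
    have hdeg : (toP n F).natDegree < n + 1 := by
      rw [Nat.lt_succ_iff]
      exact natDegree_le_iff_coeff_eq_zero.2 fun j hj => toP_coeff_gt n F hj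
    rw [Lam_eq_sum _ _ _ hdeg, sum_range_succ, toP_coeff_top hF, eval₂_one, one_mul] at hY
    exact eq_neg_of_add_eq_zero_right hY
  have hact : Matrix.vecMul v (ψ.mapMatrix Γ) = Y • v := by
    funext j
    simp only [Matrix.vecMul, dotProduct, hv, RingHom.mapMatrix_apply, Matrix.map_apply,
      Pi.smul_apply, smul_eq_mul]
    by_cases hj : (j : ℕ) + 1 = n
    · have h1 : ∀ i : Fin n, Y ^ (i : ℕ) * ψ (Γ i j) =
          -(ψ ((toP n F).coeff i) * Y ^ (i : ℕ)) := by
        intro i
        simp only [hΓ, Pool.Agent.H72.ES.comp, if_pos hj, map_neg]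
        ring
      rw [sum_congr rfl fun i _ => h1 i, sum_neg_distrib,
        Fin.sum_univ_eq_sum_range (fun i => ψ ((toP n F).coeff i) * Y ^ i) n, ← hYn]
      rw [← pow_succ', hj]
    · have hj' : (j : ℕ) + 1 < n := by
        have := j.2
        omega
      rw [sum_eq_single (⟨(j : ℕ) + 1, hj'⟩ : Fin n)]
      · simp only [hΓ, Pool.Agent.H72.ES.comp, if_neg hj, if_true, map_one, mul_one]
        rw [pow_succ']
      · intro i _ hi
        have : ¬ (i : ℕ) = (j : ℕ) + 1 := fun h => hi (Fin.ext h)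
        simp only [hΓ, Pool.Agent.H72.ES.comp, if_neg hj, if_neg this, map_zero, mul_zero]
      · simp
  have hactk : ∀ k : ℕ, Matrix.vecMul v (ψ.mapMatrix (Γ ^ k)) = Y ^ k • v := by
    intro k
    induction k with
    | zero => simp
    | succ k ih =>
      rw [pow_succ, map_mul, ← Matrix.vecMul_vecMul, ih, Matrix.smul_vecMul, hact, smul_smul,
        pow_succ]
  have hW' : Lam (xs x1 κ) Y W = ∑ k ∈ range (D + 1), ψ (W.coeff k) * Y ^ k := by
    rw [Lam_eq_sum _ _ _ (Nat.lt_succ_of_le hWd)]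
    rfl
  have hactM : Matrix.vecMul v (ψ.mapMatrix M) = Lam (xs x1 κ) Y W • v := by
    rw [hM, map_sum, Matrix.vecMul_sum, hW', sum_smul]
    refine sum_congr rfl fun k _ => ?_
    have h1 : ψ.mapMatrix (W.coeff k • Γ ^ k) = ψ (W.coeff k) • ψ.mapMatrix (Γ ^ k) := by
      ext i j
      simp [Matrix.map_apply]
    rw [h1, Matrix.vecMul_smul, hactk, smul_smul]
  refine ⟨M.det, ?_, hMb.det, ?_⟩
  · intro hdet
    obtain ⟨p, hp, hMp⟩ := Matrix.exists_mulVec_eq_zero_iff.2 hdet
    have h1 : dotProduct v (Matrix.mulVec (ψ.mapMatrix M) (fun i => ψ (p i))) = 0 := by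
      have h2 : Matrix.mulVec (ψ.mapMatrix M) (fun i => ψ (p i)) = 0 := by
        funext i
        have := congrArg ψ (congrFun hMp i)
        simpa [Matrix.mulVec, dotProduct, map_sum] using this
      rw [h2]
      simp
    rw [Matrix.dotProduct_mulVec, hactM, smul_dotProduct, smul_eq_mul] at h1
    have h3 : dotProduct v (fun i => ψ (p i)) = 0 := by
      rcases mul_eq_zero.1 h1 with h | h
      · exact absurd h hW
      · exact h
    set P : ℤ[X][X] := ∑ i : Fin n, C (p i) * X ^ (i : ℕ) with hP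
    have hcoef : ∀ i : Fin n, P.coeff i = p i := by
      intro i
      rw [hP, finsetSum_coeff, sum_eq_single i]
      · simp
      · intro j _ hj
        rw [coeff_C_mul, coeff_X_pow, if_neg (fun h => hj (Fin.ext h.symm)), mul_zero]
      · simp
    have hPdeg : P.natDegree < n := by
      have h4 : P.natDegree ≤ n - 1 := by
        refine natDegree_sum_le_of_forall_le _ _ fun i _ => ?_
        refine (natDegree_C_mul_X_pow_le _ _).trans ?_
        have := i.2
        omega
      omega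
    have hPne : P ≠ 0 := by
      intro h
      apply hp
      funext i
      rw [← hcoef i, h]
      simp
    have hLP : Lam (xs x1 κ) Y P = dotProduct v (fun i => ψ (p i)) := by
      rw [Lam_eq_sum _ _ _ hPdeg, ← Fin.sum_univ_eq_sum_range
        (fun j => (P.coeff j).eval₂ (Int.castRingHom (PowerSeries ℤ)) (xs x1 κ) * Y ^ j) n]
      refine sum_congr rfl fun i _ => ?_
      rw [hcoef i, mul_comm]
      rfl
    exact hinj P hPne hPdeg (hLP.trans h3)
  · have h1 : Matrix.vecMul v (ψ.mapMatrix M * (ψ.mapMatrix M).adjugate) =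
        (ψ M.det) • v := by
      rw [Matrix.mul_adjugate, ← RingHom.map_det, Matrix.vecMul_smul, Matrix.vecMul_one]
    rw [← Matrix.vecMul_vecMul, hactM, Matrix.smul_vecMul] at h1
    have h2 := congrFun h1 (⟨0, by omega⟩ : Fin n)
    simp only [Pi.smul_apply, smul_eq_mul, hv, pow_zero, mul_one] at h2
    exact ⟨_, h2.symm⟩

end Pool.Agent.H52.AC
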