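import Mathlib

/-! # [AC-PIG] The pigeonhole principle

Proof of `pigeon`. Let `U = card ι`, `R = card κ`, `Z = ⌈(3 M)^3⌉₊` (a natural number),
`(3M)^3 ≤ Z ≤ (3M)^3 + 1 ≤ (4 M)^3` as `M ≥ 1`. For `B : ι → Fin (Z + 1)` and `j : κ` let
`L_j(B) = ∑ i, c j i * B i`. With `m_j = ∑_i min(c j i, 0) Z` we have
`m_j ≤ L_j(B) ≤ m_j + M Z` (as `∑_i |c j i| Z ≤ M Z`), so `⌊2 (L_j(B) - m_j)⌋ ∈ [0, 2 M Z]`, at most
`2 M Z + 1` values (`⌊2 M Z⌋₊ + 1`). There are `(Z+1)^U` vectors `B` and at most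
`(⌊2MZ⌋₊ + 1)^R` values of the family `j ↦ ⌊2 (L_j(B) - m_j)⌋₊ : κ → Fin (⌊2MZ⌋₊ + 1)`. Now
`2 M Z + 1 ≤ 3 M Z`, `3 M ≤ Z^(1/3)`, i.e. `(3 M)^3 ≤ Z`, so `(3 M Z)^3 ≤ Z^4`, so
`((2MZ+1)^R)^3 ≤ Z^(4R) ≤ Z^(3U)`, so `(2MZ+1)^R ≤ Z^U < (Z+1)^U` (`U > 0`). By
`Fintype.exists_ne_map_eq_of_card_lt` there are `B ≠ B'` with the same family of values; `A = B - B'`:
`|A i| ≤ Z ≤ (4M)^3`, and `|2 L_j(B) - 2 L_j(B')| < 1` (`Int.abs_sub_lt_one_of_floor_eq_floor` or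
the analogue for `Nat.floor`).
`real_coord`: let `lt` be a linear order on `P` (e.g. via an injection `P → ℕ`,
`Fintype.equivFin`, or `Classical` well order; write `g : P → ℕ` injective). Let
`cc p = Re` if `g p ≤ g (cj p)`, `Im` otherwise (`Complex.reAddGroupHom`, `Complex.imAddGroupHom`).
`|Re z|, |Im z| ≤ ‖z‖`. Let `p ∈ S`, `p' = cj p ∈ S`, `v p' = conj (v p)`. If `p' = p`:
`Im (v p) = 0`, `|Re (v p)| < 1/2`. If `g p < g p'`: `cc p = Re`, `cc p' = Im`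
(`cj p' = p`, `g p' > g p`), so `|Re (v p)| < 1/2` and `|Im (v p)| = |Im (v p')| < 1/2`. If
`g p > g p'`: `cc p = Im`, `cc p' = Re`, the same. So `‖v p‖² < 1/2`. -/

namespace Pool.Agent.H52.AC

open Finset

theorem pigeon {ι κ : Type} [Fintype ι] [Fintype κ] (c : κ → ι → ℝ) {M : ℝ} (hM : 1 ≤ M)
    (hc : ∀ j, ∑ i, |c j i| ≤ M) (h43 : 4 * Fintype.card κ ≤ 3 * Fintype.card ι)
    (hι : 0 < Fintype.card ι) : ∃ A : ι → ℤ, A ≠ 0 ∧ (∀ i, |(A i : ℝ)| ≤ (4 * M) ^ 3) ∧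
      ∀ j, |∑ i, c j i * (A i : ℝ)| < 1 / 2 := by
  classical
  obtain ⟨Z, hZ1, hZ2⟩ : ∃ Z : ℕ, (3 * M) ^ 3 ≤ (Z : ℝ) ∧ (Z : ℝ) ≤ (4 * M) ^ 3 := by
    refine ⟨⌈(3 * M) ^ 3⌉₊, Nat.le_ceil _, ?_⟩
    have h1 : (⌈(3 * M) ^ 3⌉₊ : ℝ) < (3 * M) ^ 3 + 1 := Nat.ceil_lt_add_one (by positivity)
    have h2 : (1 : ℝ) ≤ M ^ 3 := one_le_pow₀ hM
    nlinarith
  have hZ27 : (27 : ℝ) ≤ Z := by
    have h2 : (1 : ℝ) ≤ M ^ 3 := one_le_pow₀ hM
    nlinarith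
  have hZpos : 0 < Z := by
    have : (0 : ℝ) < Z := by linarith
    exact_mod_cast this
  set m : κ → ℝ := fun j => ∑ i, min (c j i) 0 * (Z : ℝ) with hm
  have hterm : ∀ j i (b : ℕ), b ≤ Z → 0 ≤ c j i * (b : ℝ) - min (c j i) 0 * Z ∧
      c j i * (b : ℝ) - min (c j i) 0 * Z ≤ |c j i| * Z := by
    intro j i b hb
    have hb' : (b : ℝ) ≤ Z := by exact_mod_cast hb
    have hb0 : (0 : ℝ) ≤ b := Nat.cast_nonneg b
    rcases le_total 0 (c j i) with h | h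
    · rw [min_eq_right h, abs_of_nonneg h]
      constructor
      · nlinarith
      · nlinarith
    · rw [min_eq_left h, abs_of_nonpos h]
      constructor
      · nlinarith
      · nlinarith
  have hLm : ∀ j (B : ι → Fin (Z + 1)), 0 ≤ ∑ i, c j i * ((B i : ℕ) : ℝ) - m j ∧
      ∑ i, c j i * ((B i : ℕ) : ℝ) - m j ≤ M * Z := by
    intro j B
    have hs : ∑ i, c j i * ((B i : ℕ) : ℝ) - m j =
        ∑ i, (c j i * ((B i : ℕ) : ℝ) - min (c j i) 0 * Z) := by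
      rw [hm, ← Finset.sum_sub_distrib]
    rw [hs]
    constructor
    · exact Finset.sum_nonneg fun i _ => (hterm j i _ (Nat.lt_succ_iff.1 (B i).2)).1
    · refine (Finset.sum_le_sum fun i _ => (hterm j i _ (Nat.lt_succ_iff.1 (B i).2)).2).trans ?_
      rw [← Finset.sum_mul]
      exact mul_le_mul_of_nonneg_right (hc j) (Nat.cast_nonneg _)
  set W : ℕ := ⌊2 * M * Z⌋₊ + 1 with hW
  have hfl : ∀ j (B : ι → Fin (Z + 1)), ⌊2 * (∑ i, c j i * ((B i : ℕ) : ℝ) - m j)⌋₊ < W := by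
    intro j B
    rw [hW, Nat.lt_succ_iff]
    apply Nat.floor_le_floor
    linarith [(hLm j B).2]
  let Φ : (ι → Fin (Z + 1)) → (κ → Fin W) := fun B j =>
    ⟨⌊2 * (∑ i, c j i * ((B i : ℕ) : ℝ) - m j)⌋₊, hfl j B⟩
  have hWZ : W ^ 3 ≤ Z ^ 4 := by
    have h1 : (W : ℝ) ≤ 3 * M * Z := by
      rw [hW]
      push_cast
      have h2 : (⌊2 * M * Z⌋₊ : ℝ) ≤ 2 * M * Z := Nat.floor_le (by positivity)
      have h3 : (1 : ℝ) ≤ M * Z := by nlinarith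
      nlinarith
    have h2 : (W : ℝ) ^ 3 ≤ (3 * M * Z) ^ 3 := pow_le_pow_left₀ (Nat.cast_nonneg _) h1 3
    have h3 : (3 * M * (Z : ℝ)) ^ 3 = (3 * M) ^ 3 * (Z : ℝ) ^ 3 := by ring
    have h4 : (3 * M) ^ 3 * (Z : ℝ) ^ 3 ≤ (Z : ℝ) * (Z : ℝ) ^ 3 :=
      mul_le_mul_of_nonneg_right hZ1 (by positivity)
    have h5 : (W : ℝ) ^ 3 ≤ (Z : ℝ) ^ 4 := by
      calc (W : ℝ) ^ 3 ≤ (3 * M * Z) ^ 3 := h2
        _ = (3 * M) ^ 3 * (Z : ℝ) ^ 3 := h3
        _ ≤ (Z : ℝ) * (Z : ℝ) ^ 3 := h4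
        _ = (Z : ℝ) ^ 4 := by ring
    exact_mod_cast h5
  have hcard : W ^ Fintype.card κ < (Z + 1) ^ Fintype.card ι := by
    have h1 : (W ^ Fintype.card κ) ^ 3 ≤ (Z ^ Fintype.card ι) ^ 3 := by
      calc (W ^ Fintype.card κ) ^ 3 = (W ^ 3) ^ Fintype.card κ := by
            rw [← pow_mul, ← pow_mul, mul_comm]
        _ ≤ (Z ^ 4) ^ Fintype.card κ := Nat.pow_le_pow_left hWZ _
        _ = Z ^ (4 * Fintype.card κ) := by rw [← pow_mul]
        _ ≤ Z ^ (3 * Fintype.card ι) := Nat.pow_le_pow_right hZpos h43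
        _ = (Z ^ Fintype.card ι) ^ 3 := by rw [← pow_mul, mul_comm]
    have h2 : W ^ Fintype.card κ ≤ Z ^ Fintype.card ι :=
      (Nat.pow_le_pow_iff_left (by norm_num)).1 h1
    exact h2.trans_lt (Nat.pow_lt_pow_left (Nat.lt_succ_self Z) hι.ne')
  obtain ⟨B, B', hne, heq⟩ : ∃ B B' : ι → Fin (Z + 1), B ≠ B' ∧ Φ B = Φ B' := by
    apply Fintype.exists_ne_map_eq_of_card_lt
    rw [Fintype.card_fun, Fintype.card_fun, Fintype.card_fin, Fintype.card_fin]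
    exact hcard
  refine ⟨fun i => ((B i : ℕ) : ℤ) - ((B' i : ℕ) : ℤ), ?_, ?_, ?_⟩
  · intro h0
    apply hne
    funext i
    have h1 : ((B i : ℕ) : ℤ) - ((B' i : ℕ) : ℤ) = 0 := congrFun h0 i
    apply Fin.ext
    omega
  · intro i
    have h1 : ((B i : ℕ) : ℝ) ≤ Z := by
      have := Nat.lt_succ_iff.1 (B i).2
      exact_mod_cast this
    have h2 : ((B' i : ℕ) : ℝ) ≤ Z := by
      have := Nat.lt_succ_iff.1 (B' i).2
      exact_mod_cast this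
    have h3 : (0 : ℝ) ≤ ((B i : ℕ) : ℝ) := Nat.cast_nonneg _
    have h4 : (0 : ℝ) ≤ ((B' i : ℕ) : ℝ) := Nat.cast_nonneg _
    push_cast
    rw [abs_le]
    constructor <;> linarith
  · intro j
    have h1 : ⌊2 * (∑ i, c j i * ((B i : ℕ) : ℝ) - m j)⌋₊ =
        ⌊2 * (∑ i, c j i * ((B' i : ℕ) : ℝ) - m j)⌋₊ := by
      have := congrFun heq j
      exact congrArg Fin.val this
    have h2 : ∑ i, c j i * ((((B i : ℕ) : ℤ) - ((B' i : ℕ) : ℤ) : ℤ) : ℝ) =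
        ∑ i, c j i * ((B i : ℕ) : ℝ) - ∑ i, c j i * ((B' i : ℕ) : ℝ) := by
      rw [← Finset.sum_sub_distrib]
      refine Finset.sum_congr rfl fun i _ => ?_
      push_cast
      ring
    rw [h2]
    have a1 := (hLm j B).1
    have a2 := (hLm j B').1
    generalize ∑ i, c j i * ((B i : ℕ) : ℝ) = x at *
    generalize ∑ i, c j i * ((B' i : ℕ) : ℝ) = y at *
    have b1 := Nat.floor_le (mul_nonneg (by norm_num : (0 : ℝ) ≤ 2) a1)
    have b2 := Nat.lt_floor_add_one (2 * (x - m j))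
    have b3 := Nat.floor_le (mul_nonneg (by norm_num : (0 : ℝ) ≤ 2) a2)
    have b4 := Nat.lt_floor_add_one (2 * (y - m j))
    rw [h1] at b1 b2
    rw [abs_lt]
    constructor <;> linarith

theorem real_coord {P : Type} [Fintype P] (S : Finset P) (cj : P → P)
    (hcj : ∀ p, cj (cj p) = p) (hS : ∀ p ∈ S, cj p ∈ S) :
    ∃ cc : P → (ℂ →+ ℝ), (∀ p z, |cc p z| ≤ ‖z‖) ∧ ∀ v : P → ℂ,
      (∀ p ∈ S, v (cj p) = (starRingEnd ℂ) (v p)) → (∀ p ∈ S, |cc p (v p)| < 1 / 2) →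
        ∀ p ∈ S, ‖v p‖ < 1 := by
  classical
  let g : P → ℕ := fun p => (Fintype.equivFin P p : ℕ)
  have hg : Function.Injective g := fun p q h =>
    (Fintype.equivFin P).injective (Fin.ext h)
  refine ⟨fun p => if g p ≤ g (cj p) then Complex.reAddGroupHom else Complex.imAddGroupHom,
    ?_, ?_⟩
  · intro p z
    by_cases h : g p ≤ g (cj p)
    · simp only [h, if_true]
      exact Complex.abs_re_le_norm z
    · simp only [h, if_false]
      exact Complex.abs_im_le_norm z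
  · intro v hv hsm p hp
    have hp' := hS p hp
    have hvp := hv p hp
    have e1 : (v (cj p)).re = (v p).re := by rw [hvp, Complex.conj_re]
    have e2 : (v (cj p)).im = -(v p).im := by rw [hvp, Complex.conj_im]
    have h1 := hsm p hp
    have h2 := hsm (cj p) hp'
    beta_reduce at h1 h2
    rw [hcj p] at h2
    have key : |(v p).re| < 1 / 2 ∧ |(v p).im| < 1 / 2 := by
      rcases lt_trichotomy (g p) (g (cj p)) with h | h | h
      · rw [if_pos h.le] at h1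
        rw [if_neg (not_le.2 h)] at h2
        refine ⟨h1, ?_⟩
        have h3 : |(v (cj p)).im| < 1 / 2 := h2
        rwa [e2, abs_neg] at h3
      · have hpp : cj p = p := (hg h).symm
        rw [if_pos h.le] at h1
        refine ⟨h1, ?_⟩
        have h3 : (v p).im = 0 := by
          rw [hpp] at e2
          linarith
        rw [h3, abs_zero]
        norm_num
      · rw [if_neg (not_le.2 h)] at h1
        rw [if_pos h.le] at h2
        refine ⟨?_, h1⟩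
        have h3 : |(v (cj p)).re| < 1 / 2 := h2
        rwa [e1] at h3
    have h3 := Complex.norm_le_abs_re_add_abs_im (v p)
    linarith [key.1, key.2]

end Pool.Agent.H52.AC
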