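import Pool.Agent.H52.AC.PIG

/-! # [AC-SGA] Siegel's lemma for a family of complex functionals closed under conjugation

Index set `P` with an involution `cj` such that the functional at `cj p` is the complex conjugate of
the functional at `p`: exactly `card P` real conditions for each cell `c`.
Proof. `real_coord` (`PIG.lean`) with `S = univ` gives `cc : P → (ℂ →+ ℝ)`, `|cc p z| ≤ ‖z‖`. Apply
`pigeon` with `κ = 𝒞 × P` and the real coefficients `c (c, p) m = cc p (V c p m)`; the sum over `m` of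
the absolute values is at most `M`; `card (𝒞 × P) = card 𝒞 * card P`. For the `A` obtained,
`∑_m cc p (V c p m) * A m = cc p (∑_m A m * V c p m)` (`map_sum`, `map_zsmul`:
`(A m : ℂ) * z = A m • z`), so `|cc p (v p)| < 1/2` for `v p = ∑_m A m * V c p m` (fixed `c`), and
`v (cj p) = conj (v p)`; the conclusion of `real_coord`. -/

namespace Pool.Agent.H52.AC

open Finset

theorem siegel_small {ι C P : Type} [Fintype ι] [Fintype C] [Fintype P] (V : C → P → ι → ℂ)
    (cj : P → P) (hcj : ∀ p, cj (cj p) = p)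
    (hconj : ∀ c p m, V c (cj p) m = (starRingEnd ℂ) (V c p m)) {M : ℝ} (hM : 1 ≤ M)
    (hV : ∀ c p, ∑ m, ‖V c p m‖ ≤ M)
    (h43 : 4 * (Fintype.card P * Fintype.card C) ≤ 3 * Fintype.card ι)
    (hι : 0 < Fintype.card ι) :
    ∃ A : ι → ℤ, A ≠ 0 ∧ (∀ m, |(A m : ℝ)| ≤ (4 * M) ^ 3) ∧
      ∀ c p, ‖∑ m, (A m : ℂ) * V c p m‖ < 1 := by
  obtain ⟨cc, hcc, hmain⟩ := real_coord (Finset.univ : Finset P) cj hcj
    (fun p _ => Finset.mem_univ _)
  obtain ⟨A, hA0, hA1, hA2⟩ := pigeon (κ := C × P) (fun x m => cc x.2 (V x.1 x.2 m)) hM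
    (fun x => (Finset.sum_le_sum fun m _ => hcc x.2 (V x.1 x.2 m)).trans (hV x.1 x.2))
    (by
      rw [Fintype.card_prod, mul_comm (Fintype.card C)]
      exact h43) hι
  refine ⟨A, hA0, hA1, fun c p => ?_⟩
  refine hmain (fun p => ∑ m, (A m : ℂ) * V c p m) (fun p _ => ?_) (fun p _ => ?_) p
    (Finset.mem_univ p)
  · show ∑ m, (A m : ℂ) * V c (cj p) m = (starRingEnd ℂ) (∑ m, (A m : ℂ) * V c p m)
    rw [map_sum]
    refine Finset.sum_congr rfl fun m _ => ?_
    rw [map_mul, hconj, map_intCast]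
  · have h1 := hA2 (c, p)
    have h2 : cc p (∑ m, (A m : ℂ) * V c p m) = ∑ m, cc p (V c p m) * (A m : ℝ) := by
      rw [map_sum]
      refine Finset.sum_congr rfl fun m _ => ?_
      rw [← zsmul_eq_mul, map_zsmul, zsmul_eq_mul, mul_comm]
    show |cc p (∑ m, (A m : ℂ) * V c p m)| < 1 / 2
    rw [h2]
    exact h1

end Pool.Agent.H52.AC
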