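import Pool.Agent.H52.AC.Defs

/-! # [AC-UI] Integrality and conjugates of the expansion coefficients

Let `w, w'` have coefficients in the field `AA` of algebraic numbers (`AA = algebraicClosure ℚ ℂ`,
an intermediate field, `Pool/Agent/H87/SA2/PERM.lean`), let `σ : AA →+* ℂ` map the coefficients
of `w` to those of `w'` (hypothesis `h`). Let `ι : AA →+* ℂ` be the inclusion
(`algebraMap AA ℂ`), `η : PowerSeries AA` with `coeff m η = ⟨coeff m w, _⟩`. Then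
`PowerSeries.map ι η = w`, `PowerSeries.map σ η = w'`. Let `ηu : PowerSeries AA` be
`((C q * X)^e)^(D-a-b) * η^b`; `PowerSeries.map ι ηu = uu q e w D a b`,
`PowerSeries.map σ ηu = uu q e w' D a b` (`map_mul`, `map_pow`, `PowerSeries.map_C`,
`PowerSeries.map_X`, `map_natCast`). Comparing coefficients (`PowerSeries.coeff_map`):
`uu_gal`. (The coefficient `z` with `(z : ℂ) = coeff m (uu ..)` is `coeff m ηu` by
`Subtype.ext`.) `Bc_gal`: `sm` is a finite sum of integer multiples of products; choose `z' : AA`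
with the sum of the products of the coefficients in `AA` (use `sm` over `AA`: `sm` is defined for every
commutative ring, `ι (sm D1 D2 A u v) = sm D1 D2 A (ι ∘ u) (ι ∘ v)`, see `sm_map` in
`Pool/Agent/H8/KF/Two.lean`, copy its one line proof). `Vc_gal`: the same with finite sums.
Integrality: `IsIntegral ℤ` is closed under sums, products, powers; coefficients of products of
series (`PowerSeries.coeff_mul`). The subring of power series with integral coefficients, or: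
`integralClosure ℤ ℂ` as `Subalgebra`, and series over it, as above. -/

namespace Pool.Agent.H52.AC

open Finset Polynomial Pool.Agent.H87.SA2

/-- the expansion over a ring -/
noncomputable def uuS_UI {S : Type*} [CommRing S] (q e : ℕ) (η : PowerSeries S) (D a b : ℕ) :
    PowerSeries S :=
  ((PowerSeries.C (q : S) * PowerSeries.X) ^ e) ^ (D - a - b) * η ^ b

theorem uuS_map_UI {S S' : Type*} [CommRing S] [CommRing S'] (φ : S →+* S') (q e : ℕ)
    (η : PowerSeries S) (D a b : ℕ) :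
    PowerSeries.map φ (uuS_UI q e η D a b) = uuS_UI q e (PowerSeries.map φ η) D a b := by
  simp only [uuS_UI, map_mul, map_pow, PowerSeries.map_X, map_natCast]

theorem sm_map_UI {S S' : Type*} [CommRing S] [CommRing S'] (ψ : S →+* S') (d1 d2 : ℕ)
    (A : ℕ → ℕ → ℕ → ℕ → ℤ) (u v : ℕ → ℕ → S) :
    ψ (Pool.Agent.H8.KF.sm d1 d2 A u v) =
      Pool.Agent.H8.KF.sm d1 d2 A (fun i j => ψ (u i j)) (fun p q => ψ (v p q)) := by
  simp [Pool.Agent.H8.KF.sm, map_sum, map_mul]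

/-- the cell sum over a ring -/
noncomputable def VcS_UI {S : Type*} [CommRing S] (D1 D2 : ℕ) (A : ℕ → ℕ → ℕ → ℕ → ℤ)
    (q1 e1 q2 e2 : ℕ) (η1 η2 : PowerSeries S) (K L : ℕ) : S :=
  ∑ r ∈ range e1, ∑ s ∈ range e2, Pool.Agent.H8.KF.sm D1 D2 A
    (fun a b => PowerSeries.coeff (e1 * K + r) (uuS_UI q1 e1 η1 D1 a b))
    (fun p q => PowerSeries.coeff (e2 * L + s) (uuS_UI q2 e2 η2 D2 p q))

theorem VcS_map_UI {S S' : Type*} [CommRing S] [CommRing S'] (φ : S →+* S') (D1 D2 : ℕ)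
    (A : ℕ → ℕ → ℕ → ℕ → ℤ) (q1 e1 q2 e2 : ℕ) (η1 η2 : PowerSeries S) (K L : ℕ) :
    φ (VcS_UI D1 D2 A q1 e1 q2 e2 η1 η2 K L) =
      VcS_UI D1 D2 A q1 e1 q2 e2 (PowerSeries.map φ η1) (PowerSeries.map φ η2) K L := by
  rw [VcS_UI, map_sum, VcS_UI]
  refine sum_congr rfl fun r _ => ?_
  rw [map_sum]
  refine sum_congr rfl fun s _ => ?_
  rw [sm_map_UI]
  simp only [← PowerSeries.coeff_map, uuS_map_UI]

theorem uu_eq_UI (q e : ℕ) (w : PowerSeries ℂ) (D a b : ℕ) :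
    uu q e w D a b = uuS_UI q e w D a b := rfl

theorem Vc_eq_UI (D1 D2 : ℕ) (A : ℕ → ℕ → ℕ → ℕ → ℤ) (q1 e1 q2 e2 : ℕ)
    (w1 w2 : PowerSeries ℂ) (K L : ℕ) :
    Vc D1 D2 A q1 e1 q2 e2 w1 w2 K L = VcS_UI D1 D2 A q1 e1 q2 e2 w1 w2 K L := rfl

/-- the series with integral coefficients -/
noncomputable def intS_UI {w : PowerSeries ℂ} (hw : ∀ m, IsIntegral ℤ (PowerSeries.coeff m w)) :
    PowerSeries (integralClosure ℤ ℂ) :=
  PowerSeries.mk fun m => ⟨PowerSeries.coeff m w, hw m⟩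

theorem intS_map_UI {w : PowerSeries ℂ} (hw : ∀ m, IsIntegral ℤ (PowerSeries.coeff m w)) :
    PowerSeries.map (algebraMap (integralClosure ℤ ℂ) ℂ) (intS_UI hw) = w := by
  ext m
  rw [PowerSeries.coeff_map, intS_UI, PowerSeries.coeff_mk]
  rfl

theorem uu_int {q e : ℕ} {w : PowerSeries ℂ} (hw : ∀ m, IsIntegral ℤ (PowerSeries.coeff m w))
    (D a b m : ℕ) : IsIntegral ℤ (PowerSeries.coeff m (uu q e w D a b)) := by
  have h : PowerSeries.coeff m (uu q e w D a b) = algebraMap (integralClosure ℤ ℂ) ℂ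
      (PowerSeries.coeff m (uuS_UI q e (intS_UI hw) D a b)) := by
    rw [← PowerSeries.coeff_map, uuS_map_UI, intS_map_UI, uu_eq_UI]
  rw [h]
  exact (PowerSeries.coeff m (uuS_UI q e (intS_UI hw) D a b)).2

theorem Vc_int {q1 e1 q2 e2 : ℕ} {w1 w2 : PowerSeries ℂ}
    (h1 : ∀ m, IsIntegral ℤ (PowerSeries.coeff m w1))
    (h2 : ∀ m, IsIntegral ℤ (PowerSeries.coeff m w2)) (D1 D2 : ℕ) (A : ℕ → ℕ → ℕ → ℕ → ℤ)
    (K L : ℕ) : IsIntegral ℤ (Vc D1 D2 A q1 e1 q2 e2 w1 w2 K L) := by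
  have h : Vc D1 D2 A q1 e1 q2 e2 w1 w2 K L = algebraMap (integralClosure ℤ ℂ) ℂ
      (VcS_UI D1 D2 A q1 e1 q2 e2 (intS_UI h1) (intS_UI h2) K L) := by
    rw [VcS_map_UI, intS_map_UI, intS_map_UI, Vc_eq_UI]
  rw [h]
  exact (VcS_UI D1 D2 A q1 e1 q2 e2 (intS_UI h1) (intS_UI h2) K L).2

/-- the series with algebraic coefficients -/
noncomputable def algS_UI {w : PowerSeries ℂ} (hw : ∀ m, PowerSeries.coeff m w ∈ AA) :
    PowerSeries AA :=
  PowerSeries.mk fun m => ⟨PowerSeries.coeff m w, hw m⟩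

theorem algS_map_UI {w : PowerSeries ℂ} (hw : ∀ m, PowerSeries.coeff m w ∈ AA) :
    PowerSeries.map (algebraMap AA ℂ) (algS_UI hw) = w := by
  ext m
  rw [PowerSeries.coeff_map, algS_UI, PowerSeries.coeff_mk]
  rfl

theorem algS_gal_UI (σ : AA →+* ℂ) {w w' : PowerSeries ℂ}
    (hw : ∀ m, PowerSeries.coeff m w ∈ AA)
    (h : ∀ (m : ℕ) (a : AA), (a : ℂ) = PowerSeries.coeff m w → σ a = PowerSeries.coeff m w') :
    PowerSeries.map σ (algS_UI hw) = w' := by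
  ext m
  rw [PowerSeries.coeff_map, algS_UI, PowerSeries.coeff_mk]
  exact h m _ rfl

theorem uu_gal (σ : AA →+* ℂ) (q e : ℕ) {w w' : PowerSeries ℂ}
    (hw : ∀ m, PowerSeries.coeff m w ∈ AA)
    (h : ∀ (m : ℕ) (a : AA), (a : ℂ) = PowerSeries.coeff m w → σ a = PowerSeries.coeff m w')
    (D a b m : ℕ) : PowerSeries.coeff m (uu q e w D a b) ∈ AA ∧
      ∀ z : AA, (z : ℂ) = PowerSeries.coeff m (uu q e w D a b) →
        σ z = PowerSeries.coeff m (uu q e w' D a b) := by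
  have h1 : PowerSeries.coeff m (uu q e w D a b) = algebraMap AA ℂ
      (PowerSeries.coeff m (uuS_UI q e (algS_UI hw) D a b)) := by
    rw [← PowerSeries.coeff_map, uuS_map_UI, algS_map_UI, uu_eq_UI]
  refine ⟨?_, ?_⟩
  · rw [h1]
    exact (PowerSeries.coeff m (uuS_UI q e (algS_UI hw) D a b)).2
  · intro z hz
    have h2 : z = PowerSeries.coeff m (uuS_UI q e (algS_UI hw) D a b) :=
      Subtype.ext (hz.trans h1)
    rw [h2, ← PowerSeries.coeff_map, uuS_map_UI, algS_gal_UI σ hw h, uu_eq_UI]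

theorem Vc_gal (σ : AA →+* ℂ) (q1 e1 q2 e2 : ℕ) {w1 w1' w2 w2' : PowerSeries ℂ}
    (hw1 : ∀ m, PowerSeries.coeff m w1 ∈ AA) (hw2 : ∀ m, PowerSeries.coeff m w2 ∈ AA)
    (h1 : ∀ (m : ℕ) (a : AA), (a : ℂ) = PowerSeries.coeff m w1 → σ a = PowerSeries.coeff m w1')
    (h2 : ∀ (m : ℕ) (a : AA), (a : ℂ) = PowerSeries.coeff m w2 → σ a = PowerSeries.coeff m w2')
    (D1 D2 : ℕ) (A : ℕ → ℕ → ℕ → ℕ → ℤ) (K L : ℕ) :
    ∀ z : AA, (z : ℂ) = Vc D1 D2 A q1 e1 q2 e2 w1 w2 K L →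
      σ z = Vc D1 D2 A q1 e1 q2 e2 w1' w2' K L := by
  intro z hz
  have h3 : Vc D1 D2 A q1 e1 q2 e2 w1 w2 K L = algebraMap AA ℂ
      (VcS_UI D1 D2 A q1 e1 q2 e2 (algS_UI hw1) (algS_UI hw2) K L) := by
    rw [VcS_map_UI, algS_map_UI, algS_map_UI, Vc_eq_UI]
  have h4 : z = VcS_UI D1 D2 A q1 e1 q2 e2 (algS_UI hw1) (algS_UI hw2) K L :=
    Subtype.ext (hz.trans h3)
  rw [h4, VcS_map_UI, algS_gal_UI σ hw1 h1, algS_gal_UI σ hw2 h2, Vc_eq_UI]

end Pool.Agent.H52.AC
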