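import Pool.Agent.H52.AC.UB
import Pool.Agent.H52.AC.UI
import Pool.Agent.H52.AC.CNT

/-! # [AC-SGV] The coefficient functionals of the auxiliary polynomial

Unknowns: `m = (a, b, p, q) ∈ Fin N1 × Fin d1 × Fin N2 × Fin d2`; `extA A` is the extension by zero.
`Vc_ext`: unfold `Vc`, `Bc`, `sm`. The sum over `a ∈ range (D1+1)`, `b ∈ range (D1+1-a)`,
`p ∈ range (D2+1)`, `q ∈ range (D2+1-p)` has nonzero terms only for `a < N1`, `b < d1`, `p < N2`,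
`q < d2`, and these `(a,b,p,q)` are in the range (`a + b ≤ D1`, `p + q ≤ D2` by `h1`, `h2`). So it is the sum
over the box (`Finset.sum_subset` in each variable, `Finset.sum_range`, `Fintype.sum_prod_type`);
interchange the sums over `r, s` and over the box.
`VV_le`: `uu_le` (`2 q1 R1 ≤ B1`): the `(r, s)` term is at most
`B1^(e1 K + r + b) B2^(e2 L + s + q) ≤ B1^(e1 (K+1) + n) B2^(e2 (L+1) + n)` (`B1, B2 ≥ 1`).
`VV_conj`: if the coefficients of `w'` are the conjugates of those of `w`, then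
`w' = PowerSeries.map (starRingEnd ℂ) w`, the same for `uu` (ring homomorphism fixing `C q`, `X`).
`sge_num`: `4 M ≤ 1520 n^4 E² la B1^(41 n E la + n) B2^((40n+1)E + n)
≤ B1^(43 n E la) B2^(42 n E)`, because `3000 n^4 E² ≤ B1`, `la ≤ 2^la ≤ B1^la`,
`1 + la + n + 41 n E la ≤ 43 n E la`, `(40n+1)E + n ≤ 42 n E` (`4 ≤ n ≤ E`, `la ≥ 60 n`). -/

namespace Pool.Agent.H52.AC

open Finset Polynomial Pool.Agent.H87.SA2 Pool.Agent.H8.KF

/-- the coefficient functionals -/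
noncomputable def VV (D1 D2 q1 e1 q2 e2 : ℕ) (w1 w2 : PowerSeries ℂ) (K L a b p q : ℕ) : ℂ :=
  ∑ r ∈ range e1, ∑ s ∈ range e2, PowerSeries.coeff (e1 * K + r) (uu q1 e1 w1 D1 a b) *
    PowerSeries.coeff (e2 * L + s) (uu q2 e2 w2 D2 p q)

/-- extension by zero -/
def extA {N1 d1 N2 d2 : ℕ} (A : Fin N1 × Fin d1 × Fin N2 × Fin d2 → ℤ) :
    ℕ → ℕ → ℕ → ℕ → ℤ := fun a b p q =>
  if h : (a < N1 ∧ b < d1) ∧ (p < N2 ∧ q < d2) then
    A (⟨a, h.1.1⟩, ⟨b, h.1.2⟩, ⟨p, h.2.1⟩, ⟨q, h.2.2⟩) else 0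

private theorem tri_sum_SGV {N d D : ℕ} (h : N + d ≤ D + 1) (g : ℕ → ℕ → ℂ)
    (hg : ∀ i j, ¬ (i < N ∧ j < d) → g i j = 0) :
    ∑ i ∈ range (D + 1), ∑ j ∈ range (D + 1 - i), g i j = ∑ i : Fin N, ∑ j : Fin d, g i j := by
  have h1 : ∑ i ∈ range (D + 1), ∑ j ∈ range (D + 1 - i), g i j =
      ∑ i ∈ range N, ∑ j ∈ range (D + 1 - i), g i j := by
    refine (Finset.sum_subset (Finset.range_mono (by omega)) fun i _ hi => ?_).symm
    refine Finset.sum_eq_zero fun j _ => hg i j fun hc => hi (Finset.mem_range.2 hc.1)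
  have h2 : ∑ i ∈ range N, ∑ j ∈ range (D + 1 - i), g i j =
      ∑ i ∈ range N, ∑ j ∈ range d, g i j := by
    refine Finset.sum_congr rfl fun i hi => ?_
    have hi' := Finset.mem_range.1 hi
    refine (Finset.sum_subset (Finset.range_mono (by omega)) fun j _ hj => ?_).symm
    exact hg i j fun hc => hj (Finset.mem_range.2 hc.2)
  rw [h1, h2, Finset.sum_range]
  refine Finset.sum_congr rfl fun i _ => ?_
  rw [Finset.sum_range]

private theorem ext_sum_SGV {D1 D2 N1 d1 N2 d2 : ℕ} (h1 : N1 + d1 ≤ D1 + 1)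
    (h2 : N2 + d2 ≤ D2 + 1) (A : Fin N1 × Fin d1 × Fin N2 × Fin d2 → ℤ)
    (f : ℕ → ℕ → ℕ → ℕ → ℂ) :
    ∑ i ∈ range (D1 + 1), ∑ j ∈ range (D1 + 1 - i), ∑ p ∈ range (D2 + 1),
      ∑ q ∈ range (D2 + 1 - p), ((extA A i j p q : ℤ) : ℂ) * f i j p q =
      ∑ m, (A m : ℂ) * f m.1 m.2.1 m.2.2.1 m.2.2.2 := by
  rw [tri_sum_SGV h1 (fun i j => ∑ p ∈ range (D2 + 1),
      ∑ q ∈ range (D2 + 1 - p), ((extA A i j p q : ℤ) : ℂ) * f i j p q)]
  · rw [Fintype.sum_prod_type]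
    refine Finset.sum_congr rfl fun i _ => ?_
    rw [Fintype.sum_prod_type]
    refine Finset.sum_congr rfl fun j _ => ?_
    rw [tri_sum_SGV h2 (fun p q => ((extA A i j p q : ℤ) : ℂ) * f i j p q),
      Fintype.sum_prod_type]
    · refine Finset.sum_congr rfl fun p _ => Finset.sum_congr rfl fun q _ => ?_
      have h3 : extA A i j p q = A (i, j, p, q) := by
        unfold extA
        rw [dif_pos ⟨⟨i.2, j.2⟩, p.2, q.2⟩]
      rw [h3]
    · intro p q hpq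
      have h3 : extA A i j p q = 0 := by
        unfold extA
        rw [dif_neg fun hc => hpq hc.2]
      simp only [h3, Int.cast_zero, zero_mul]
  · intro i j hij
    refine Finset.sum_eq_zero fun p _ => Finset.sum_eq_zero fun q _ => ?_
    have h3 : extA A i j p q = 0 := by
      unfold extA
      rw [dif_neg fun hc => hij hc.1]
    rw [h3, Int.cast_zero, zero_mul]

theorem Vc_ext {D1 D2 N1 d1 N2 d2 : ℕ} (h1 : N1 + d1 ≤ D1 + 1) (h2 : N2 + d2 ≤ D2 + 1)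
    (A : Fin N1 × Fin d1 × Fin N2 × Fin d2 → ℤ) (q1 e1 q2 e2 : ℕ) (w1 w2 : PowerSeries ℂ)
    (K L : ℕ) : Vc D1 D2 (extA A) q1 e1 q2 e2 w1 w2 K L =
      ∑ m, (A m : ℂ) * VV D1 D2 q1 e1 q2 e2 w1 w2 K L m.1 m.2.1 m.2.2.1 m.2.2.2 := by
  have h3 : ∀ r s : ℕ, Bc D1 D2 (extA A) q1 e1 q2 e2 w1 w2 (e1 * K + r) (e2 * L + s) =
      ∑ m, (A m : ℂ) * (PowerSeries.coeff (e1 * K + r) (uu q1 e1 w1 D1 m.1 m.2.1) *
        PowerSeries.coeff (e2 * L + s) (uu q2 e2 w2 D2 m.2.2.1 m.2.2.2)) := by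
    intro r s
    exact ext_sum_SGV h1 h2 A (fun a b p q => PowerSeries.coeff (e1 * K + r) (uu q1 e1 w1 D1 a b) *
        PowerSeries.coeff (e2 * L + s) (uu q2 e2 w2 D2 p q))
  unfold Vc
  simp only [h3]
  have h4 : ∀ r : ℕ, ∑ s ∈ range e2, ∑ m, (A m : ℂ) *
      (PowerSeries.coeff (e1 * K + r) (uu q1 e1 w1 D1 m.1 m.2.1) *
        PowerSeries.coeff (e2 * L + s) (uu q2 e2 w2 D2 m.2.2.1 m.2.2.2)) =
      ∑ m, (A m : ℂ) * ∑ s ∈ range e2,
      (PowerSeries.coeff (e1 * K + r) (uu q1 e1 w1 D1 m.1 m.2.1) *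
        PowerSeries.coeff (e2 * L + s) (uu q2 e2 w2 D2 m.2.2.1 m.2.2.2)) := by
    intro r
    rw [Finset.sum_comm]
    refine Finset.sum_congr rfl fun m _ => ?_
    rw [Finset.mul_sum]
  simp only [h4]
  rw [Finset.sum_comm]
  refine Finset.sum_congr rfl fun m _ => ?_
  rw [← Finset.mul_sum]
  rfl

theorem VV_le {q1 e1 q2 e2 : ℕ} (hq1 : 1 ≤ q1) (hq2 : 1 ≤ q2) {R1 R2 B1 B2 : ℝ} (hR1 : 1 ≤ R1)
    (hR2 : 1 ≤ R2) (hB1 : 2 * q1 * R1 ≤ B1) (hB2 : 2 * q2 * R2 ≤ B2) {w1 w2 : PowerSeries ℂ}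
    (hw1 : ∀ m, ‖PowerSeries.coeff m w1‖ ≤ R1 ^ (m + 1))
    (hw2 : ∀ m, ‖PowerSeries.coeff m w2‖ ≤ R2 ^ (m + 1)) {n : ℕ} (D1 D2 K L a b p q : ℕ)
    (hb : b ≤ n) (hq : q ≤ n) :
    ‖VV D1 D2 q1 e1 q2 e2 w1 w2 K L a b p q‖ ≤
      e1 * e2 * (B1 ^ (e1 * (K + 1) + n) * B2 ^ (e2 * (L + 1) + n)) := by
  have hq1' : (1 : ℝ) ≤ q1 := by exact_mod_cast hq1
  have hq2' : (1 : ℝ) ≤ q2 := by exact_mod_cast hq2
  have h1 : (1 : ℝ) ≤ 2 * q1 * R1 := by nlinarith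
  have h2 : (1 : ℝ) ≤ 2 * q2 * R2 := by nlinarith
  have h3 : ∀ r ∈ range e1, ‖PowerSeries.coeff (e1 * K + r) (uu q1 e1 w1 D1 a b)‖ ≤
      B1 ^ (e1 * (K + 1) + n) := by
    intro r hr
    have hr' := Finset.mem_range.1 hr
    refine (uu_le hq1 hR1 hw1 D1 a b (e1 * K + r)).trans ?_
    refine (pow_le_pow_left₀ (by linarith) hB1 _).trans ?_
    refine pow_le_pow_right₀ (h1.trans hB1) ?_
    rw [mul_add, mul_one]
    omega
  have h4 : ∀ s ∈ range e2, ‖PowerSeries.coeff (e2 * L + s) (uu q2 e2 w2 D2 p q)‖ ≤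
      B2 ^ (e2 * (L + 1) + n) := by
    intro r hr
    have hr' := Finset.mem_range.1 hr
    refine (uu_le hq2 hR2 hw2 D2 p q (e2 * L + r)).trans ?_
    refine (pow_le_pow_left₀ (by linarith) hB2 _).trans ?_
    refine pow_le_pow_right₀ (h2.trans hB2) ?_
    rw [mul_add, mul_one]
    omega
  have hB1' : (0 : ℝ) ≤ B1 := by linarith
  unfold VV
  refine (norm_sum_le _ _).trans ?_
  have h5 : ∀ r ∈ range e1, ‖∑ s ∈ range e2, PowerSeries.coeff (e1 * K + r)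
      (uu q1 e1 w1 D1 a b) * PowerSeries.coeff (e2 * L + s) (uu q2 e2 w2 D2 p q)‖ ≤
      e2 * (B1 ^ (e1 * (K + 1) + n) * B2 ^ (e2 * (L + 1) + n)) := by
    intro r hr
    refine (norm_sum_le _ _).trans ?_
    have h6 : ∀ s ∈ range e2, ‖PowerSeries.coeff (e1 * K + r)
        (uu q1 e1 w1 D1 a b) * PowerSeries.coeff (e2 * L + s) (uu q2 e2 w2 D2 p q)‖ ≤
        B1 ^ (e1 * (K + 1) + n) * B2 ^ (e2 * (L + 1) + n) := by
      intro s hs
      rw [norm_mul]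
      exact mul_le_mul (h3 r hr) (h4 s hs) (norm_nonneg _) (by positivity)
    refine (Finset.sum_le_sum h6).trans (le_of_eq ?_)
    rw [Finset.sum_const, Finset.card_range, nsmul_eq_mul]
  refine (Finset.sum_le_sum h5).trans (le_of_eq ?_)
  rw [Finset.sum_const, Finset.card_range, nsmul_eq_mul]
  ring

theorem VV_conj (q1 e1 q2 e2 : ℕ) {w1 w1' w2 w2' : PowerSeries ℂ}
    (h1 : ∀ m, PowerSeries.coeff m w1' = (starRingEnd ℂ) (PowerSeries.coeff m w1))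
    (h2 : ∀ m, PowerSeries.coeff m w2' = (starRingEnd ℂ) (PowerSeries.coeff m w2))
    (D1 D2 K L a b p q : ℕ) : VV D1 D2 q1 e1 q2 e2 w1' w2' K L a b p q =
      (starRingEnd ℂ) (VV D1 D2 q1 e1 q2 e2 w1 w2 K L a b p q) := by
  have h3 : ∀ {w w' : PowerSeries ℂ}, (∀ m, PowerSeries.coeff m w' =
      (starRingEnd ℂ) (PowerSeries.coeff m w)) → ∀ (q e D a b m : ℕ),
      PowerSeries.coeff m (uu q e w' D a b) =
        (starRingEnd ℂ) (PowerSeries.coeff m (uu q e w D a b)) := by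
    intro w w' hw q e D a b m
    have h4 : w' = PowerSeries.map (starRingEnd ℂ) w := by
      ext m
      rw [PowerSeries.coeff_map, hw]
    rw [h4, uu_eq_UI, uu_eq_UI, ← uuS_map_UI, PowerSeries.coeff_map]
  unfold VV
  rw [map_sum]
  refine Finset.sum_congr rfl fun r _ => ?_
  rw [map_sum]
  refine Finset.sum_congr rfl fun s _ => ?_
  rw [map_mul, h3 h1, h3 h2]

theorem sge_num {n la E : ℕ} (hn : 4 ≤ n) (hla : 60 * n ≤ la) (hnE : n ≤ E) {B1 B2 M : ℝ}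
    (hB1 : 3000 * (n : ℝ) ^ 4 * (E : ℝ) ^ 2 ≤ B1) (hB2 : 1 ≤ B2)
    (hM : M ≤ (380 * (n : ℝ) ^ 4 * la) * ((E : ℝ) ^ 2 * (B1 ^ (41 * n * E * la + n) *
      B2 ^ ((40 * n + 1) * E + n)))) (hM0 : 0 ≤ M) :
    (4 * M) ^ 3 ≤ B1 ^ (129 * n * E * la) * B2 ^ (126 * n * E) := by
  have hnR : (4 : ℝ) ≤ n := by exact_mod_cast hn
  have hER : (4 : ℝ) ≤ E := by exact_mod_cast hn.trans hnE
  have hn4 : (1 : ℝ) ≤ (n : ℝ) ^ 4 := one_le_pow₀ (by linarith)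
  have hE2 : (1 : ℝ) ≤ (E : ℝ) ^ 2 := one_le_pow₀ (by linarith)
  have hnE2 : (1 : ℝ) ≤ (n : ℝ) ^ 4 * (E : ℝ) ^ 2 := by nlinarith
  have hB1' : (2 : ℝ) ≤ B1 := by nlinarith
  have h1 : 1520 * ((n : ℝ) ^ 4 * (E : ℝ) ^ 2) ≤ B1 := by nlinarith
  have h2 : (la : ℝ) ≤ B1 ^ la := by
    have h3 : (la : ℝ) ≤ 2 ^ la := by exact_mod_cast (Nat.lt_two_pow_self (n := la)).le
    exact h3.trans (pow_le_pow_left₀ (by norm_num) hB1' _)
  have h16 : 16 ≤ n * E := by nlinarith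
  have hW : 16 * la ≤ n * E * la := Nat.mul_le_mul_right la h16
  have e1 : 1 + la + (41 * n * E * la + n) ≤ 43 * n * E * la := by
    have e2 : 41 * n * E * la = 41 * (n * E * la) := by ring
    have e3 : 43 * n * E * la = 43 * (n * E * la) := by ring
    rw [e2, e3]
    omega
  have e4 : (40 * n + 1) * E + n ≤ 42 * n * E := by
    have e5 : E ≤ n * E := Nat.le_mul_of_pos_left E (by omega)
    have e6 : n ≤ n * E := Nat.le_mul_of_pos_right n (by omega)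
    have e7 : (40 * n + 1) * E = 40 * (n * E) + E := by ring
    have e8 : 42 * n * E = 42 * (n * E) := by ring
    rw [e7, e8]
    omega
  have hX : (0 : ℝ) ≤ B1 ^ (41 * n * E * la + n) * B2 ^ ((40 * n + 1) * E + n) := by positivity
  have h5 : 4 * M ≤ B1 ^ (43 * n * E * la) * B2 ^ (42 * n * E) := by
    calc 4 * M ≤ (1520 * ((n : ℝ) ^ 4 * (E : ℝ) ^ 2)) * (la *
          (B1 ^ (41 * n * E * la + n) * B2 ^ ((40 * n + 1) * E + n))) := by
          nlinarith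
      _ ≤ B1 * (B1 ^ la * (B1 ^ (41 * n * E * la + n) * B2 ^ ((40 * n + 1) * E + n))) := by
          refine mul_le_mul h1 (mul_le_mul_of_nonneg_right h2 hX) (by positivity) (by linarith)
      _ = B1 ^ (1 + la + (41 * n * E * la + n)) * B2 ^ ((40 * n + 1) * E + n) := by
          rw [pow_add B1 (1 + la), pow_add B1 1 la, pow_one]
          ring
      _ ≤ B1 ^ (43 * n * E * la) * B2 ^ (42 * n * E) := by
          refine mul_le_mul (pow_le_pow_right₀ (by linarith) e1) (pow_le_pow_right₀ hB2 e4)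
            (by positivity) (by positivity)
  have h6 := pow_le_pow_left₀ (by linarith : (0 : ℝ) ≤ 4 * M) h5 3
  refine h6.trans (le_of_eq ?_)
  rw [mul_pow, ← pow_mul, ← pow_mul]
  congr 2 <;> ring

end Pool.Agent.H52.AC
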