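import Pool.Agent.H52.AC.EVH

/-! # [AC-TAL] The value of a function vanishing to high order

Proof. Let `τi = ‖Ti‖`, `N = s.card`.
(1) Convergence: `(B1 τ1)^e1 ≤ 2 B1^e1 / X ≤ 1/2` (`4 B1^e1 ≤ X`), so `B1 τ1 < 1`, `τ1 ≤ 1`
(`τ1^e1 ≤ 2/X ≤ 1`); `(2 B2 τ2)^e2 ≤ (2 B2)^e2 / X2 ≤ 1`, so `B2 τ2 ≤ 1/2`.
(2) For fixed `k` let `G_k = ∑_m a m coeff k (u m) evz T2 (v m) = ∑_l B_(k,l) T2^l` (finite sum of
convergent series, `evz_hasSum`, `hasSum_sum`), `B_(k,l) = ∑_m a m coeff k (u m) coeff l (v m)`,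
`‖B_(k,l)‖ ≤ N Z c1 c2 B1^k B2^l`. Let `K = k / e1` and `L` the least number with
`TT ≤ K + la L` (`L = (TT - K + la - 1) / la`), so `L ≤ G` (`TT ≤ G la`). For `l < e2 L` we have
`l / e2 < L`, so `K + la (l / e2) < TT` and `B_(k,l) = 0` (`hvan`). So
`‖G_k‖ ≤ N Z c1 c2 B1^k ∑_(l ≥ e2 L) (B2 τ2)^l ≤ 2 N Z c1 c2 B1^k (B2 τ2)^(e2 L)` (geometric series
with ratio `≤ 1/2`), `(B2 τ2)^(e2 L) ≤ (B2^e2 / X2)^L ≤ B2^(e2 G) / X^(la L) ≤
B2^(e2 G) / X^(TT - K)` (natural subtraction, `la L ≥ TT - K`, `X ≥ 1`). So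
`‖G_k‖ X^(TT-K) ≤ 2 N Z c1 c2 B1^k B2^(e2 G)`.
(3) The sum in question is `∑_k G_k T1^k` (again `evz_hasSum`). With `k = e1 K + r`, `r < e1`:
`B1^k τ1^k ≤ B1^(e1 K + e1) (2/X)^K` (`τ1 ≤ 1`, `τ1^e1 ≤ 2/X`), so the norm of the `k`-th term times
`X^TT` is at most `2 N Z c1 c2 B2^(e2 G) B1^e1 y^K X^(TT - K)' ` where `y = 2 B1^e1`,
`X^(TT) / (X^(TT-K) X^K) = 1` for `K ≤ TT` and `X^(TT-K)` (negative exponent) for `K > TT`: for
`K < TT` the term is `≤ W y^K`, for `K = TT + w`: `≤ W y^TT (y/X)^w`, `y / X ≤ 1/2`,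
`W = 2 N Z c1 c2 B2^(e2 G) B1^e1`. Sum over `r < e1` and `K`: `e1 W (∑_(K<TT) y^K + 2 y^TT) ≤
3 e1 W y^TT` (`∑_(K<TT) y^K ≤ y^TT` as `y ≥ 2`). It may be convenient to bound the `k`-th term by
`W' (y^(k / e1) if k / e1 < TT, y^TT (1/2)^(k/e1 - TT) otherwise)` and to sum over `k` using
`Nat.divModEquiv` or by comparing with partial sums; or to split the sum over `k` at `k < e1 TT`
(finite sum, `sum over range (e1 * TT)`, `Finset.sum_range` by blocks) and the tail
`k ≥ e1 TT`, where `‖G_k‖ ‖T1‖^k ≤ V (B1 τ1)^k`, `V = 2 N Z c1 c2 B2^(e2 G)`, and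
`∑_(k ≥ e1 TT) (B1 τ1)^k = (B1 τ1)^(e1 TT) ∑_j (B1 τ1)^j ≤ (B1 τ1)^(e1 TT) e1 ∑_K ((B1 τ1)^e1)^K
≤ 2 e1 (B1 τ1)^(e1 TT)`. -/

namespace Pool.Agent.H52.AC

open Finset Polynomial

private theorem tal_hs {f : ℕ → ℂ} {S : ℂ} (h : HasSum f S) {b : ℕ → ℝ} {A : ℝ}
    (hb : ∀ k, ‖f k‖ ≤ b k) (hA : ∀ n, ∑ k ∈ Finset.range n, b k ≤ A) : ‖S‖ ≤ A := by
  refine le_of_tendsto h.tendsto_sum_nat.norm (Filter.Eventually.of_forall fun n => ?_)
  exact (norm_sum_le_of_le _ fun k _ => hb k).trans (hA n)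

private theorem tal_blocks (F : ℕ → ℝ) {e : ℕ} (he : 1 ≤ e) (n : ℕ) :
    ∑ k ∈ Finset.range (e * n), F (k / e) = e * ∑ K ∈ Finset.range n, F K := by
  induction n with
  | zero => simp
  | succ n ih =>
    rw [Nat.mul_succ, Finset.sum_range_add, ih, Finset.sum_range_succ, mul_add]
    congr 1
    have h1 : ∀ r ∈ Finset.range e, F ((e * n + r) / e) = F n := by
      intro r hr
      rw [Nat.mul_add_div (by omega), Nat.div_eq_of_lt (Finset.mem_range.1 hr), add_zero]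
    rw [Finset.sum_congr rfl h1, Finset.sum_const, Finset.card_range, nsmul_eq_mul]

private theorem tal_geo {y : ℝ} (hy : 2 ≤ y) (n : ℕ) : ∑ K ∈ Finset.range n, y ^ K ≤ y ^ n := by
  induction n with
  | zero => simp
  | succ n ih =>
    rw [Finset.sum_range_succ, pow_succ]
    have h1 : 0 ≤ y ^ n := pow_nonneg (by linarith) n
    nlinarith

theorem tail_bound {ι : Type} (s : Finset ι) (a : ι → ℂ) (u v : ι → PowerSeries ℂ)
    {Z c1 c2 B1 B2 X X2 : ℝ} {e1 e2 la TT G : ℕ} (he1 : 1 ≤ e1) (he2 : 1 ≤ e2) (hla : 1 ≤ la)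
    (hZ0 : 0 ≤ Z) (hc1 : 0 ≤ c1) (hc2 : 0 ≤ c2) (hB1 : 1 ≤ B1) (hB2 : 1 ≤ B2)
    (hZ : ∀ m ∈ s, ‖a m‖ ≤ Z)
    (hu : ∀ m ∈ s, ∀ k, ‖PowerSeries.coeff k (u m)‖ ≤ c1 * B1 ^ k)
    (hv : ∀ m ∈ s, ∀ l, ‖PowerSeries.coeff l (v m)‖ ≤ c2 * B2 ^ l)
    (hvan : ∀ k l, k / e1 + la * (l / e2) < TT →
      ∑ m ∈ s, a m * (PowerSeries.coeff k (u m) * PowerSeries.coeff l (v m)) = 0)
    (hG : TT ≤ G * la) (hX : 4 * B1 ^ e1 ≤ X) {T1 T2 : ℂ} (hT1 : ‖T1‖ ^ e1 * X ≤ 2)
    (hXX : X ^ la ≤ X2) (hT2 : ‖T2‖ ^ e2 * X2 ≤ 1) (hX2 : (2 * B2) ^ e2 ≤ X2) :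
    ‖∑ m ∈ s, a m * (evz T1 (u m) * evz T2 (v m))‖ * X ^ TT ≤
      6 * e1 * s.card * Z * c1 * c2 * B1 ^ e1 * B2 ^ (e2 * G) * (2 * B1 ^ e1) ^ TT := by
  set τ1 : ℝ := ‖T1‖ with hτ1
  set τ2 : ℝ := ‖T2‖ with hτ2
  have hτ10 : 0 ≤ τ1 := norm_nonneg _
  have hτ20 : 0 ≤ τ2 := norm_nonneg _
  have hB1e : 1 ≤ B1 ^ e1 := one_le_pow₀ hB1
  have hX1 : 1 ≤ X := by linarith
  have hX0 : 0 < X := by linarith
  have hB10 : 0 ≤ B1 := by linarith
  have hB20 : 0 ≤ B2 := by linarith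
  -- convergence
  have ha1 : τ1 ^ e1 ≤ 1 / 2 := by
    have h1 : τ1 ^ e1 * 4 ≤ τ1 ^ e1 * X :=
      mul_le_mul_of_nonneg_left (by linarith) (pow_nonneg hτ10 _)
    linarith
  have hτ11 : τ1 ≤ 1 := by
    by_contra hcon
    have h1 := one_le_pow₀ (not_le.1 hcon).le (n := e1)
    linarith
  have hbt1 : B1 * τ1 < 1 := by
    by_contra hcon
    have h1 := one_le_pow₀ (not_lt.1 hcon) (n := e1)
    have h2 : τ1 ^ e1 * (4 * B1 ^ e1) ≤ τ1 ^ e1 * X :=
      mul_le_mul_of_nonneg_left hX (pow_nonneg hτ10 _)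
    rw [mul_pow] at h1
    nlinarith
  have hbt2 : B2 * τ2 ≤ 1 / 2 := by
    by_contra hcon
    have h0 : 1 < 2 * B2 * τ2 := by linarith [not_le.1 hcon]
    have h1 := one_lt_pow₀ h0 (n := e2) (by omega)
    rw [mul_pow] at h1
    have h2 : (2 * B2) ^ e2 * τ2 ^ e2 ≤ X2 * τ2 ^ e2 :=
      mul_le_mul_of_nonneg_right hX2 (pow_nonneg hτ20 _)
    linarith
  have hbt20 : 0 ≤ B2 * τ2 := mul_nonneg hB20 hτ20
  have hcv1 : ∀ m ∈ s, HasSum (fun k => PowerSeries.coeff k (u m) * T1 ^ k) (evz T1 (u m)) :=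
    fun m hm => evz_hasSum le_rfl (gr_of_le hB10 hτ10 hbt1 (hu m hm))
  have hcv2 : ∀ m ∈ s, HasSum (fun l => PowerSeries.coeff l (v m) * T2 ^ l) (evz T2 (v m)) :=
    fun m hm => evz_hasSum le_rfl (gr_of_le hB20 hτ20 (by linarith) (hv m hm))
  -- the inner sums
  set V : ℝ := 2 * (s.card * Z * c1 * c2) * B2 ^ (e2 * G) with hV
  have hD0 : 0 ≤ (s.card : ℝ) * Z * c1 * c2 := by positivity
  have hV0 : 0 ≤ V := by positivity
  have hGk : ∀ k, ‖∑ m ∈ s, a m * (PowerSeries.coeff k (u m) * evz T2 (v m))‖ *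
      X ^ (TT - k / e1) ≤ V * B1 ^ k := by
    intro k
    have hexG : TT ≤ k / e1 + la * G := by
      rw [mul_comm la]
      exact hG.trans (Nat.le_add_left _ _)
    have hex : ∃ L, TT ≤ k / e1 + la * L := ⟨G, hexG⟩
    classical
    set L := Nat.find hex with hL
    have hL1 : TT ≤ k / e1 + la * L := Nat.find_spec hex
    have hL2 : L ≤ G := Nat.find_min' hex hexG
    have hL3 : ∀ l, l < e2 * L → k / e1 + la * (l / e2) < TT := by
      intro l hl
      have h1 : l / e2 < L := Nat.div_lt_of_lt_mul hl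
      exact not_le.1 (Nat.find_min hex h1)
    have hsum : HasSum (fun l => (∑ m ∈ s, a m * (PowerSeries.coeff k (u m) *
        PowerSeries.coeff l (v m))) * T2 ^ l)
        (∑ m ∈ s, a m * (PowerSeries.coeff k (u m) * evz T2 (v m))) := by
      have h1 : HasSum (fun l => ∑ m ∈ s, a m * (PowerSeries.coeff k (u m) *
          (PowerSeries.coeff l (v m) * T2 ^ l)))
          (∑ m ∈ s, a m * (PowerSeries.coeff k (u m) * evz T2 (v m))) :=
        hasSum_sum fun m hm => ((hcv2 m hm).mul_left _).mul_left _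
      convert h1 using 1
      funext l
      rw [Finset.sum_mul]
      refine Finset.sum_congr rfl fun m _ => ?_
      ring
    have hterm : ∀ l, ‖(∑ m ∈ s, a m * (PowerSeries.coeff k (u m) *
        PowerSeries.coeff l (v m))) * T2 ^ l‖ ≤
        if l < e2 * L then 0 else (s.card * Z * c1 * c2) * B1 ^ k * (B2 * τ2) ^ l := by
      intro l
      split_ifs with h
      · rw [hvan k l (hL3 l h), zero_mul, norm_zero]
      · rw [norm_mul, norm_pow, ← hτ2]
        have h1 : ‖∑ m ∈ s, a m * (PowerSeries.coeff k (u m) * PowerSeries.coeff l (v m))‖ ≤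
            ∑ m ∈ s, Z * ((c1 * B1 ^ k) * (c2 * B2 ^ l)) := by
          refine norm_sum_le_of_le _ fun m hm => ?_
          rw [norm_mul, norm_mul]
          refine mul_le_mul (hZ m hm) (mul_le_mul (hu m hm k) (hv m hm l) (norm_nonneg _) ?_)
            (mul_nonneg (norm_nonneg _) (norm_nonneg _)) hZ0
          exact mul_nonneg hc1 (pow_nonneg hB10 _)
        rw [Finset.sum_const, nsmul_eq_mul] at h1
        refine (mul_le_mul_of_nonneg_right h1 (pow_nonneg hτ20 l)).trans (le_of_eq ?_)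
        rw [mul_pow]
        ring
    have hG1 : ‖∑ m ∈ s, a m * (PowerSeries.coeff k (u m) * evz T2 (v m))‖ ≤
        2 * ((s.card * Z * c1 * c2) * B1 ^ k * (B2 * τ2) ^ (e2 * L)) := by
      refine tal_hs hsum hterm fun n => ?_
      have hmono : ∑ l ∈ Finset.range n, (if l < e2 * L then (0 : ℝ) else
          (s.card * Z * c1 * c2) * B1 ^ k * (B2 * τ2) ^ l) ≤
          ∑ l ∈ Finset.range (e2 * L + n), (if l < e2 * L then (0 : ℝ) else
          (s.card * Z * c1 * c2) * B1 ^ k * (B2 * τ2) ^ l) := by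
        refine Finset.sum_le_sum_of_subset_of_nonneg (Finset.range_subset_range.2 (by omega))
          fun l _ _ => ?_
        split_ifs
        · exact le_rfl
        · positivity
      refine hmono.trans ?_
      rw [Finset.sum_range_add]
      have h1 : ∑ l ∈ Finset.range (e2 * L), (if l < e2 * L then (0 : ℝ) else
          (s.card * Z * c1 * c2) * B1 ^ k * (B2 * τ2) ^ l) = 0 := by
        refine Finset.sum_eq_zero fun l hl => ?_
        rw [if_pos (Finset.mem_range.1 hl)]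
      rw [h1, zero_add]
      have h2 : ∀ i ∈ Finset.range n, (if e2 * L + i < e2 * L then (0 : ℝ) else
          (s.card * Z * c1 * c2) * B1 ^ k * (B2 * τ2) ^ (e2 * L + i)) ≤
          ((s.card * Z * c1 * c2) * B1 ^ k * (B2 * τ2) ^ (e2 * L)) * (1 / 2) ^ i := by
        intro i _
        rw [if_neg (by omega), pow_add, ← mul_assoc]
        exact mul_le_mul_of_nonneg_left (pow_le_pow_left₀ hbt20 hbt2 i) (by positivity)
      refine (Finset.sum_le_sum h2).trans ?_
      rw [← Finset.mul_sum, mul_comm (2 : ℝ)]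
      exact mul_le_mul_of_nonneg_left (sum_geometric_two_le n) (by positivity)
    have hG2 : (B2 * τ2) ^ (e2 * L) * X ^ (TT - k / e1) ≤ B2 ^ (e2 * G) := by
      have h1 : X ^ (TT - k / e1) ≤ X2 ^ L := by
        calc X ^ (TT - k / e1) ≤ X ^ (la * L) := pow_le_pow_right₀ hX1 (by omega)
          _ = (X ^ la) ^ L := pow_mul _ _ _
          _ ≤ X2 ^ L := pow_le_pow_left₀ (pow_nonneg hX0.le _) hXX L
      calc (B2 * τ2) ^ (e2 * L) * X ^ (TT - k / e1) ≤ (B2 * τ2) ^ (e2 * L) * X2 ^ L :=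
            mul_le_mul_of_nonneg_left h1 (pow_nonneg hbt20 _)
        _ = B2 ^ (e2 * L) * (τ2 ^ e2 * X2) ^ L := by
            rw [mul_pow, mul_pow, pow_mul τ2, mul_assoc]
        _ ≤ B2 ^ (e2 * L) * 1 := by
            refine mul_le_mul_of_nonneg_left ?_ (pow_nonneg hB20 _)
            refine pow_le_one₀ (mul_nonneg (pow_nonneg hτ20 _) ?_) hT2
            exact (pow_nonneg hX0.le la).trans hXX
        _ ≤ B2 ^ (e2 * G) := by
            rw [mul_one]
            exact pow_le_pow_right₀ hB2 (Nat.mul_le_mul_left e2 hL2)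
    calc ‖∑ m ∈ s, a m * (PowerSeries.coeff k (u m) * evz T2 (v m))‖ * X ^ (TT - k / e1)
        ≤ 2 * ((s.card * Z * c1 * c2) * B1 ^ k * (B2 * τ2) ^ (e2 * L)) * X ^ (TT - k / e1) :=
          mul_le_mul_of_nonneg_right hG1 (pow_nonneg hX0.le _)
      _ = 2 * ((s.card * Z * c1 * c2) * B1 ^ k) *
            ((B2 * τ2) ^ (e2 * L) * X ^ (TT - k / e1)) := by ring
      _ ≤ 2 * ((s.card * Z * c1 * c2) * B1 ^ k) * B2 ^ (e2 * G) :=
          mul_le_mul_of_nonneg_left hG2 (by positivity)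
      _ = V * B1 ^ k := by
          rw [hV]
          ring
  -- the outer sum
  have hS : HasSum (fun k => (∑ m ∈ s, a m * (PowerSeries.coeff k (u m) * evz T2 (v m))) *
      T1 ^ k * (X : ℂ) ^ TT)
      ((∑ m ∈ s, a m * (evz T1 (u m) * evz T2 (v m))) * (X : ℂ) ^ TT) := by
    have h1 : HasSum (fun k => ∑ m ∈ s, a m * ((PowerSeries.coeff k (u m) * T1 ^ k) *
        evz T2 (v m))) (∑ m ∈ s, a m * (evz T1 (u m) * evz T2 (v m))) :=
      hasSum_sum fun m hm => ((hcv1 m hm).mul_right _).mul_left _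
    have h2 : (fun k => (∑ m ∈ s, a m * (PowerSeries.coeff k (u m) * evz T2 (v m))) * T1 ^ k) =
        fun k => ∑ m ∈ s, a m * ((PowerSeries.coeff k (u m) * T1 ^ k) * evz T2 (v m)) := by
      funext l
      rw [Finset.sum_mul]
      refine Finset.sum_congr rfl fun m _ => ?_
      ring
    rw [← h2] at h1
    exact h1.mul_right _
  set y : ℝ := 2 * B1 ^ e1 with hy
  have hy2 : 2 ≤ y := by linarith
  have hy0 : 0 ≤ y := by linarith
  have hyX : y ≤ X * (1 / 2) := by linarith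
  set F : ℕ → ℝ := fun K => if K < TT then y ^ K else y ^ TT * (1 / 2) ^ (K - TT) with hF
  have hF0 : ∀ K, 0 ≤ F K := by
    intro K
    rw [hF]
    dsimp only
    split_ifs
    · positivity
    · positivity
  have hterm : ∀ k, ‖(∑ m ∈ s, a m * (PowerSeries.coeff k (u m) * evz T2 (v m))) *
      T1 ^ k * (X : ℂ) ^ TT‖ ≤ V * B1 ^ e1 * F (k / e1) := by
    intro k
    set K := k / e1 with hK
    rw [norm_mul, norm_mul, norm_pow, norm_pow, ← hτ1, Complex.norm_real, Real.norm_of_nonneg hX0.le]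
    have hXs : X ^ TT = X ^ (TT - K) * X ^ (min K TT) := by
      rw [← pow_add]
      congr 1
      omega
    have hk1 : e1 * K ≤ k := Nat.mul_div_le k e1
    have hk2 : k ≤ e1 * K + e1 := by
      have := Nat.lt_mul_div_succ k (show 0 < e1 by omega)
      rw [← hK, Nat.mul_add, Nat.mul_one] at this
      exact this.le
    have h1 : B1 ^ k * τ1 ^ k * X ^ (min K TT) ≤ B1 ^ e1 * F K := by
      have h2 : B1 ^ k * τ1 ^ k ≤ B1 ^ e1 * ((B1 ^ e1) ^ K * (τ1 ^ e1) ^ K) := by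
        calc B1 ^ k * τ1 ^ k ≤ B1 ^ (e1 * K + e1) * τ1 ^ (e1 * K) :=
              mul_le_mul (pow_le_pow_right₀ hB1 hk2) (pow_le_pow_of_le_one hτ10 hτ11 hk1)
                (pow_nonneg hτ10 _) (pow_nonneg hB10 _)
          _ = B1 ^ e1 * ((B1 ^ e1) ^ K * (τ1 ^ e1) ^ K) := by
              rw [pow_add, pow_mul, pow_mul]
              ring
      have h3 : (B1 ^ e1) ^ K * (τ1 ^ e1) ^ K * X ^ (min K TT) ≤ F K := by
        rw [hF]
        dsimp only
        split_ifs with hlt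
        · rw [min_eq_left hlt.le, mul_assoc, ← mul_pow, ← mul_pow, hy]
          refine pow_le_pow_left₀ (by positivity) ?_ K
          rw [mul_comm (2 : ℝ)]
          exact mul_le_mul_of_nonneg_left hT1 (by positivity)
        · have hle : TT ≤ K := not_lt.1 hlt
          rw [min_eq_right hle]
          obtain ⟨j, hj⟩ := Nat.exists_eq_add_of_le hle
          rw [hj, Nat.add_sub_cancel_left, pow_add (B1 ^ e1), pow_add (τ1 ^ e1)]
          have h4 : (B1 ^ e1) ^ TT * (τ1 ^ e1) ^ TT * X ^ TT ≤ y ^ TT := by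
            rw [mul_assoc, ← mul_pow, ← mul_pow, hy]
            refine pow_le_pow_left₀ (by positivity) ?_ TT
            rw [mul_comm (2 : ℝ)]
            exact mul_le_mul_of_nonneg_left hT1 (by positivity)
          have h5 : (B1 ^ e1) ^ j * (τ1 ^ e1) ^ j ≤ (1 / 2) ^ j := by
            rw [← mul_pow]
            refine pow_le_pow_left₀ (by positivity) ?_ j
            have h6 : τ1 ^ e1 * (4 * B1 ^ e1) ≤ τ1 ^ e1 * X :=
              mul_le_mul_of_nonneg_left hX (pow_nonneg hτ10 _)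
            nlinarith
          calc (B1 ^ e1) ^ TT * (B1 ^ e1) ^ j * ((τ1 ^ e1) ^ TT * (τ1 ^ e1) ^ j) * X ^ TT
              = ((B1 ^ e1) ^ TT * (τ1 ^ e1) ^ TT * X ^ TT) *
                ((B1 ^ e1) ^ j * (τ1 ^ e1) ^ j) := by ring
            _ ≤ y ^ TT * (1 / 2) ^ j := mul_le_mul h4 h5 (by positivity) (by positivity)
      calc B1 ^ k * τ1 ^ k * X ^ (min K TT)
          ≤ B1 ^ e1 * ((B1 ^ e1) ^ K * (τ1 ^ e1) ^ K) * X ^ (min K TT) :=
            mul_le_mul_of_nonneg_right h2 (pow_nonneg hX0.le _)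
        _ = B1 ^ e1 * ((B1 ^ e1) ^ K * (τ1 ^ e1) ^ K * X ^ (min K TT)) := by ring
        _ ≤ B1 ^ e1 * F K := mul_le_mul_of_nonneg_left h3 (by positivity)
    calc ‖∑ m ∈ s, a m * (PowerSeries.coeff k (u m) * evz T2 (v m))‖ * τ1 ^ k * X ^ TT
        = (‖∑ m ∈ s, a m * (PowerSeries.coeff k (u m) * evz T2 (v m))‖ * X ^ (TT - K)) *
          (τ1 ^ k * X ^ (min K TT)) := by
          rw [hXs]
          ring
      _ ≤ (V * B1 ^ k) * (τ1 ^ k * X ^ (min K TT)) :=
          mul_le_mul_of_nonneg_right (hGk k) (by positivity)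
      _ = V * (B1 ^ k * τ1 ^ k * X ^ (min K TT)) := by ring
      _ ≤ V * (B1 ^ e1 * F K) := mul_le_mul_of_nonneg_left h1 hV0
      _ = V * B1 ^ e1 * F K := by ring
  have hsumF : ∀ n, ∑ k ∈ Finset.range n, V * B1 ^ e1 * F (k / e1) ≤
      V * B1 ^ e1 * (e1 * (3 * y ^ TT)) := by
    intro n
    rw [← Finset.mul_sum]
    refine mul_le_mul_of_nonneg_left ?_ (by positivity)
    calc ∑ k ∈ Finset.range n, F (k / e1) ≤ ∑ k ∈ Finset.range (e1 * n), F (k / e1) :=
          Finset.sum_le_sum_of_subset_of_nonneg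
            (Finset.range_subset_range.2 (Nat.le_mul_of_pos_left n (by omega)))
            fun k _ _ => hF0 _
      _ = e1 * ∑ K ∈ Finset.range n, F K := tal_blocks F he1 n
      _ ≤ e1 * (3 * y ^ TT) := by
          refine mul_le_mul_of_nonneg_left ?_ (Nat.cast_nonneg _)
          calc ∑ K ∈ Finset.range n, F K ≤ ∑ K ∈ Finset.range (TT + n), F K :=
                Finset.sum_le_sum_of_subset_of_nonneg
                  (Finset.range_subset_range.2 (by omega)) fun k _ _ => hF0 _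
            _ = ∑ K ∈ Finset.range TT, F K + ∑ i ∈ Finset.range n, F (TT + i) :=
                Finset.sum_range_add _ _ _
            _ ≤ y ^ TT + y ^ TT * 2 := by
                refine add_le_add ?_ ?_
                · have h1 : ∑ K ∈ Finset.range TT, F K = ∑ K ∈ Finset.range TT, y ^ K :=
                    Finset.sum_congr rfl fun K hK => by
                      rw [hF]
                      dsimp only
                      rw [if_pos (Finset.mem_range.1 hK)]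
                  rw [h1]
                  exact tal_geo hy2 TT
                · have h1 : ∑ i ∈ Finset.range n, F (TT + i) =
                      y ^ TT * ∑ i ∈ Finset.range n, (1 / 2 : ℝ) ^ i := by
                    rw [Finset.mul_sum]
                    refine Finset.sum_congr rfl fun i _ => ?_
                    rw [hF]
                    dsimp only
                    rw [if_neg (by omega), Nat.add_sub_cancel_left]
                  rw [h1]
                  exact mul_le_mul_of_nonneg_left (sum_geometric_two_le n) (by positivity)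
            _ = 3 * y ^ TT := by ring
  have hfin := tal_hs hS hterm hsumF
  rw [norm_mul, norm_pow, Complex.norm_real, Real.norm_of_nonneg hX0.le] at hfin
  refine hfin.trans (le_of_eq ?_)
  rw [hV]
  ring

end Pool.Agent.H52.AC
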